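import Mathlib

/-! # MP_1fe246_co: abstract doubling families (module FAM) -/

set_option autoImplicit false

namespace H54.Mor

/-- **FAM.** A set `S` of objects with sizes, with a partial child relation that at least doubles
the size, functional in the child, such that every large object has a parent, and finitely many
small objects: then the number of objects of size in `[m,2m)` is bounded. -/
theorem fam {Δ : Type} (S : Set Δ) (size : Δ → ℕ) (Ch : Δ → Δ → Prop) (L : ℕ)
    (hfun : ∀ d₁ ∈ S, ∀ d d', Ch d₁ d → Ch d₁ d' → d = d')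
    (h1 : ∀ d ∈ S, 1 ≤ size d) (hgrow : ∀ d₁ ∈ S, ∀ d, Ch d₁ d → 2 * size d₁ ≤ size d)
    (hpar : ∀ d ∈ S, L ≤ size d → ∃ d₁ ∈ S, Ch d₁ d)
    (hfin : {d | d ∈ S ∧ size d < L}.Finite) :
    ∃ C, ∀ m, {d | d ∈ S ∧ m ≤ size d ∧ size d < 2 * m}.Finite ∧
      {d | d ∈ S ∧ m ≤ size d ∧ size d < 2 * m}.ncard ≤ C := by
  classical
  set R : Set Δ := {d | d ∈ S ∧ size d < L} with hR
  -- descent to a root
  have key : ∀ n : ℕ, ∀ d ∈ S, size d ≤ n → ∃ r ∈ R, ∃ k : ℕ, ∃ ch : ℕ → Δ, ch 0 = r ∧ ch k = d ∧
      (∀ i < k, ch i ∈ S ∧ Ch (ch i) (ch (i + 1))) := by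
    intro n
    induction n with
    | zero =>
      intro d hd hn
      have := h1 d hd
      omega
    | succ n ih =>
      intro d hd hn
      by_cases hL : size d < L
      · exact ⟨d, ⟨hd, hL⟩, 0, fun _ => d, rfl, rfl, by intro i hi; omega⟩
      · obtain ⟨d₁, hd₁, hch⟩ := hpar d hd (by omega)
        have h2 := hgrow d₁ hd₁ d hch
        have h3 := h1 d₁ hd₁
        obtain ⟨r, hr, k, ch, hc0, hck, hc⟩ := ih d₁ hd₁ (by omega)
        refine ⟨r, hr, k + 1, fun i => if i ≤ k then ch i else d, by simp [hc0], by simp, ?_⟩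
        intro i hi
        rcases Nat.lt_or_ge i k with h | h
        · have h4 : i ≤ k := by omega
          have h5 : i + 1 ≤ k := by omega
          simp only [h4, h5, if_true]
          exact hc i h
        · have h4 : i = k := by omega
          subst h4
          simp only [le_refl, if_true, hck]
          have h5 : ¬ (i + 1 ≤ i) := by omega
          simp only [h5, if_false]
          exact ⟨hd₁, hch⟩
  choose! r hr k ch hc0 hck hc using fun d (hd : d ∈ S) => key (size d) d hd le_rfl
  -- two objects with the same root: chains agree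
  have hagree : ∀ d ∈ S, ∀ d' ∈ S, r d = r d' → ∀ i, i ≤ k d → i ≤ k d' → ch d i = ch d' i := by
    intro d hd d' hd' hrr i
    induction i with
    | zero => intro _ _; rw [hc0 d hd, hc0 d' hd', hrr]
    | succ i ih =>
      intro h2 h3
      have e := ih (by omega) (by omega)
      have h4 := hc d hd i (by omega)
      have h5 := hc d' hd' i (by omega)
      rw [← e] at h5
      exact hfun _ h4.1 _ _ h4.2 h5.2
  have hsz : ∀ d ∈ S, ∀ i j : ℕ, i + j ≤ k d → 2 ^ j * size (ch d i) ≤ size (ch d (i + j)) := by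
    intro d hd i j
    induction j with
    | zero => intro _; simp
    | succ j ih =>
      intro h2
      have h3 := ih (by omega)
      have h4 := hc d hd (i + j) (by omega)
      have h5 := hgrow _ h4.1 _ h4.2
      have h6 : i + (j + 1) = i + j + 1 := by ring
      rw [h6, pow_succ]
      nlinarith
  have hchS : ∀ d ∈ S, ∀ i ≤ k d, ch d i ∈ S := by
    intro d hd i hi
    rcases Nat.lt_or_ge i (k d) with h | h
    · exact (hc d hd i h).1
    · have : i = k d := by omega
      rw [this, hck d hd]; exact hd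
  have hinj : ∀ m : ℕ, Set.InjOn r {d | d ∈ S ∧ m ≤ size d ∧ size d < 2 * m} := by
    intro m d hd d' hd' hrr
    obtain ⟨hdS, hd1, hd2⟩ := hd
    obtain ⟨hdS', hd1', hd2'⟩ := hd'
    have main : ∀ d ∈ S, ∀ d' ∈ S, m ≤ size d → size d < 2 * m → m ≤ size d' → size d' < 2 * m →
        r d = r d' → k d ≤ k d' → d = d' := by
      intro d hd d' hd' h2 h3 h4 h5 hrr hkk
      have e := hagree d hd d' hd' hrr (k d) le_rfl hkk
      rw [hck d hd] at e
      have h6 := hsz d' hd' (k d) (k d' - k d) (by omega)
      have h7 : k d + (k d' - k d) = k d' := by omega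
      rw [h7, hck d' hd', ← e] at h6
      have h8 : k d' - k d = 0 := by
        by_contra hne
        have h9 : 2 ^ 1 ≤ 2 ^ (k d' - k d) := Nat.pow_le_pow_right (by norm_num) (by omega)
        have h10 : 2 * size d ≤ 2 ^ (k d' - k d) * size d := by
          apply Nat.mul_le_mul_right
          simpa using h9
        omega
      have h9 : k d' = k d := by omega
      have h10 := hck d' hd'
      rw [h9, ← e] at h10
      exact h10
    rcases le_total (k d) (k d') with h | h
    · exact main d hdS d' hdS' hd1 hd2 hd1' hd2' hrr h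
    · exact (main d' hdS' d hdS hd1' hd2' hd1 hd2 hrr.symm h).symm
  refine ⟨R.ncard, fun m => ?_⟩
  have hmaps : Set.MapsTo r {d | d ∈ S ∧ m ≤ size d ∧ size d < 2 * m} R :=
    fun d hd => hr d hd.1
  exact ⟨Set.Finite.of_injOn hmaps (hinj m) hfin, Set.ncard_le_ncard_of_injOn r hmaps (hinj m) hfin⟩

end H54.Mor
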