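import Pool.Agent.H68.MW.Defs

/-! # MP_1fe246_co: bad words and the growth of the number of right special words (module BAD) -/

set_option autoImplicit false

open Pool.Agent.H68.MW

namespace H54.Mor

variable {B : Type}

lemma win_left (V : ℤ → B) (e : ℤ) (n : ℕ) :
    win V (e - ((n + 1 : ℕ) : ℤ)) (n + 1) = V (e - n - 1) :: win V (e - n) n := by
  rw [win_succ]
  have h1 : e - ((n + 1 : ℕ) : ℤ) = e - n - 1 := by push_cast; ring
  have h2 : e - ((n + 1 : ℕ) : ℤ) + 1 = e - n := by push_cast; ring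
  rw [h2, h1]

lemma cons_mem_RS_iff (V : ℤ → B) (n : ℕ) (a : B) (w : List B) :
    a :: w ∈ RS V (n + 1) ↔ ∃ e e' : ℤ, w = win V (e - n) n ∧ w = win V (e' - n) n ∧
      V e ≠ V e' ∧ a = V (e - n - 1) ∧ a = V (e' - n - 1) := by
  constructor
  · rintro ⟨e, e', h1, h2, h3⟩
    rw [win_left] at h1 h2
    simp only [List.cons.injEq] at h1 h2
    exact ⟨e, e', h1.2, h2.2, h3, h1.1, h2.1⟩
  · rintro ⟨e, e', h1, h2, h3, h4, h5⟩
    refine ⟨e, e', ?_, ?_, h3⟩
    · rw [win_left, ← h4, ← h1]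
    · rw [win_left, ← h5, ← h2]

/-- Bad words are bi-forks. -/
theorem bad_subset_BF (V : ℤ → B) (n : ℕ) : Bad V n ⊆ BF V n := by
  rintro w ⟨⟨e, e', h1, h2, h3⟩, hbad⟩
  by_cases hl : V (e - n - 1) = V (e' - n - 1)
  · have ha : V (e - n - 1) :: w ∈ RS V (n + 1) :=
      (cons_mem_RS_iff V n _ w).mpr ⟨e, e', h1, h2, h3, rfl, hl⟩
    have hb : ∃ b, b ≠ V (e - n - 1) ∧ b :: w ∈ RS V (n + 1) := by
      by_contra hcon
      push Not at hcon
      apply hbad
      refine ⟨_, ha, fun b hb => ?_⟩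
      by_contra hne
      exact hcon b hne hb
    obtain ⟨b, hbne, hb⟩ := hb
    obtain ⟨f, f', g1, g2, g3, g4, g5⟩ := (cons_mem_RS_iff V n _ w).mp hb
    by_cases hef : V f = V e
    · refine ⟨e', f, h2, g1, ?_, ?_⟩
      · rw [hef]; exact h3.symm
      · rw [← g4, ← hl]; exact hbne.symm
    · refine ⟨e, f, h1, g1, fun h => hef h.symm, ?_⟩
      rw [← g4]; exact hbne.symm
  · exact ⟨e, e', h1, h2, h3, hl⟩

section counting

variable [Fintype B]

lemma RS_finite (V : ℤ → B) (n : ℕ) : (RS V n).Finite := by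
  refine (List.finite_length_eq B n).subset ?_
  rintro w ⟨e, _, h, _⟩
  rw [Set.mem_ofPred_eq, h, length_win]

lemma Bad_finite (V : ℤ → B) (n : ℕ) : (Bad V n).Finite :=
  (RS_finite V n).subset (fun _ h => h.1)

lemma rs_succ_le (V : ℤ → B) (n : ℕ) :
    rs V (n + 1) ≤ rs V n + Fintype.card B * (Bad V n).ncard := by
  classical
  set S1 : Set (List B) := {v | v ∈ RS V (n + 1) ∧ v.tail ∉ Bad V n} with hS1
  set S2 : Set (List B) := {v | v ∈ RS V (n + 1) ∧ v.tail ∈ Bad V n} with hS2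
  have hcover : RS V (n + 1) = S1 ∪ S2 := by
    ext v
    simp only [hS1, hS2, Set.mem_union, Set.mem_ofPred_eq]
    tauto
  have hcons : ∀ v ∈ RS V (n + 1), ∃ a w, v = a :: w ∧ w ∈ RS V n := by
    intro v hv
    obtain ⟨e, e', h1, h2, h3⟩ := hv
    rw [win_left] at h1 h2
    refine ⟨_, _, h1, e, e', rfl, ?_, h3⟩
    rw [h1] at h2
    simp only [List.cons.injEq] at h2
    exact h2.2
  have hS1c : S1.ncard ≤ (RS V n).ncard := by
    refine Set.ncard_le_ncard_of_injOn List.tail ?_ ?_ (RS_finite V n)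
    · intro v hv
      obtain ⟨a, w, rfl, hw⟩ := hcons v hv.1
      exact hw
    · intro v hv v' hv' h
      obtain ⟨a, w, rfl, hw⟩ := hcons v hv.1
      obtain ⟨a', w', rfl, hw'⟩ := hcons v' hv'.1
      simp only [List.tail_cons] at h
      subst h
      have hnb := hv.2
      simp only [List.tail_cons] at hnb
      have hex : ∃! a, a :: w ∈ RS V (n + 1) := by
        by_contra hcon
        exact hnb ⟨hw, hcon⟩
      rw [hex.unique hv.1 hv'.1]
  have hS2c : S2.ncard ≤ Fintype.card B * (Bad V n).ncard := by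
    have hsub : S2 ⊆ (fun p : B × List B => p.1 :: p.2) '' ((Set.univ : Set B) ×ˢ Bad V n) := by
      intro v hv
      obtain ⟨a, w, rfl, hw⟩ := hcons v hv.1
      refine ⟨(a, w), ⟨Set.mem_univ _, ?_⟩, rfl⟩
      simpa using hv.2
    have hfin : ((Set.univ : Set B) ×ˢ Bad V n).Finite := Set.finite_univ.prod (Bad_finite V n)
    calc S2.ncard ≤ _ := Set.ncard_le_ncard hsub (hfin.image _)
      _ ≤ ((Set.univ : Set B) ×ˢ Bad V n).ncard := Set.ncard_image_le hfin
      _ = _ := by rw [Set.ncard_prod, Set.ncard_univ, Nat.card_eq_fintype_card]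
  unfold rs
  rw [hcover]
  exact (Set.ncard_union_le S1 S2).trans (add_le_add hS1c hS2c)

lemma rs_le_succ (V : ℤ → B) (n : ℕ) : rs V n ≤ rs V (n + 1) + (Bad V n).ncard := by
  classical
  have hsub : RS V n ⊆ List.tail '' (RS V (n + 1)) ∪ Bad V n := by
    intro w hw
    by_cases hb : w ∈ Bad V n
    · exact Or.inr hb
    · left
      have hex : ∃! a, a :: w ∈ RS V (n + 1) := by
        by_contra hcon
        exact hb ⟨hw, hcon⟩
      obtain ⟨a, ha, -⟩ := hex
      exact ⟨a :: w, ha, rfl⟩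
  unfold rs
  calc (RS V n).ncard ≤ (List.tail '' (RS V (n + 1)) ∪ Bad V n).ncard :=
        Set.ncard_le_ncard hsub (((RS_finite V (n + 1)).image _).union (Bad_finite V n))
    _ ≤ (List.tail '' (RS V (n + 1))).ncard + (Bad V n).ncard := Set.ncard_union_le _ _
    _ ≤ _ := by
        have := Set.ncard_image_le (f := List.tail) (RS_finite V (n + 1))
        omega

/-- The number of right special words changes only through bad words. -/
theorem rs_dl (V : ℤ → B) (n m : ℕ) (h : n ≤ m) :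
    rs V m ≤ rs V n + Fintype.card B * ∑ j ∈ Finset.Ico n m, (Bad V j).ncard ∧
    rs V n ≤ rs V m + ∑ j ∈ Finset.Ico n m, (Bad V j).ncard := by
  induction m, h using Nat.le_induction with
  | base => simp
  | succ m hm ih =>
    rw [Finset.sum_Ico_succ_top hm, mul_add]
    have h1 := rs_succ_le V m
    have h2 := rs_le_succ V m
    constructor <;> omega

end counting

end H54.Mor
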