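import Pool.Agent.H54.Mor.Count

/-!
# From the order of `s` to `s(n) = Θ(p(n)/n)`
-/

open Finset Asymptotics

namespace H54.Mor

/-- Regular comparison functions. -/
structure Reg (g : ℕ → ℝ) : Prop where
  one_le : ∀ n, 1 ≤ g n
  mono : Monotone g
  dbl : ∀ n, g n ≤ 2 * g (n / 2)

lemma reg_one : Reg (fun _ => (1 : ℝ)) := ⟨fun _ => le_rfl, monotone_const, fun _ => by norm_num⟩

lemma g1_mono : Monotone g1 := by
  intro m n h
  unfold g1
  have : (m : ℝ) ≤ n := by exact_mod_cast h
  have : Real.log ((m : ℝ) + 1) ≤ Real.log ((n : ℝ) + 1) :=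
    Real.log_le_log (by positivity) (by linarith)
  linarith

lemma log_half (n : ℕ) : Real.log ((n : ℝ) + 1) ≤ Real.log 2 + Real.log (((n / 2 : ℕ) : ℝ) + 1) := by
  rw [← Real.log_mul (by norm_num) (by positivity)]
  apply Real.log_le_log (by positivity)
  have : n + 1 ≤ 2 * (n / 2 + 1) := by omega
  exact_mod_cast this

lemma log_two_le_one : Real.log 2 ≤ 1 := by
  have := Real.log_two_lt_d9; linarith

lemma reg_g1 : Reg g1 := ⟨one_le_g1, g1_mono, fun n => by
  have h1 := log_half n
  have h2 := log_two_le_one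
  have h3 := log_nonneg' (n / 2)
  unfold g1
  linarith⟩

lemma g2_mono : Monotone g2 := by
  intro m n h
  have h1 := g1_mono h
  have h2 : g2 m = Real.log (g1 m) + 1 := rfl
  have h3 : g2 n = Real.log (g1 n) + 1 := rfl
  rw [h2, h3]
  have := Real.log_le_log (by linarith [one_le_g1 m]) h1
  linarith

lemma reg_g2 : Reg g2 := ⟨one_le_g2, g2_mono, fun n => by
  have h1 := reg_g1.dbl n
  have h2 : g2 n = Real.log (g1 n) + 1 := rfl
  have h3 : g2 (n / 2) = Real.log (g1 (n / 2)) + 1 := rfl
  have h4 := one_le_g1 n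
  have h5 := one_le_g1 (n / 2)
  have h6 : Real.log (g1 n) ≤ Real.log 2 + Real.log (g1 (n / 2)) := by
    rw [← Real.log_mul (by norm_num) (by linarith)]
    exact Real.log_le_log (by linarith) h1
  have h7 := log_two_le_one
  have h8 := Real.log_nonneg h5
  rw [h2, h3]
  linarith⟩

/-- If the first difference of `p` has order `g`, `g` regular, then it has order `p(n)/n`. -/
theorem theta_of_reg {g : ℕ → ℝ} (hg : Reg g) (p : ℕ → ℝ) (hp : ∀ n, 0 ≤ p n)
    {c C : ℝ} (hc : 0 < c) (hC : 0 < C) (n1 : ℕ)
    (h : ∀ n, n1 ≤ n → c * g n ≤ p (n + 1) - p n ∧ p (n + 1) - p n ≤ C * g n) :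
    (fun n => p (n + 1) - p n) =Θ[Filter.atTop] (fun n : ℕ => p n / (n : ℝ)) := by
  -- lower bound for `p`
  have hlow : ∀ m k : ℕ, n1 ≤ m → (k : ℝ) * (c * g m) ≤ p (m + k) - p m := by
    intro m k hm
    induction k with
    | zero => simp
    | succ k ih =>
      have h1 := (h (m + k) (by omega)).1
      have h2 : g m ≤ g (m + k) := hg.mono (by omega)
      have h3 : c * g m ≤ c * g (m + k) := by gcongr
      have h4 : p (m + (k + 1)) = p (m + k + 1) := rfl
      rw [h4]; push_cast
      linarith
  have hup : ∀ k : ℕ, p (n1 + k) ≤ p n1 + (k : ℝ) * (C * g (n1 + k)) := by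
    intro k
    induction k with
    | zero => simp
    | succ k ih =>
      have h1 := (h (n1 + k) (by omega)).2
      have h2 : g (n1 + k) ≤ g (n1 + (k + 1)) := hg.mono (by omega)
      have h3 : C * g (n1 + k) ≤ C * g (n1 + (k + 1)) := by gcongr
      have h4 : p (n1 + (k + 1)) = p (n1 + k + 1) := rfl
      have h5 : (k : ℝ) * (C * g (n1 + k)) ≤ (k : ℝ) * (C * g (n1 + (k + 1))) := by gcongr
      rw [h4] at *
      push_cast
      linarith
  have key : ∀ n : ℕ, 2 * n1 + 2 ≤ n →
      (c / 4) * g n ≤ p n / n ∧ p n / n ≤ (p n1 + C) * g n := by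
    intro n hn
    have hn0 : (0 : ℝ) < n := by
      have : 0 < n := by omega
      exact_mod_cast this
    have hn1 : (1 : ℝ) ≤ n := by
      have : 1 ≤ n := by omega
      exact_mod_cast this
    constructor
    · rw [le_div_iff₀ hn0]
      have h1 := hlow (n / 2) (n - n / 2) (by omega)
      have h2 : n / 2 + (n - n / 2) = n := by omega
      rw [h2] at h1
      have h3 := hg.dbl n
      have h4 : (n : ℝ) / 2 ≤ ((n - n / 2 : ℕ) : ℝ) := by
        have : n ≤ 2 * (n - n / 2) := by omega
        have : (n : ℝ) ≤ 2 * ((n - n / 2 : ℕ) : ℝ) := by exact_mod_cast this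
        linarith
      have h5 := hp (n / 2)
      have h6 : (0:ℝ) ≤ g n := by linarith [hg.one_le n]
      calc c / 4 * g n * n = (n / 2) * (c * (g n / 2)) := by ring
        _ ≤ ((n - n / 2 : ℕ) : ℝ) * (c * g (n / 2)) := by
            gcongr
            linarith
        _ ≤ p n := by linarith
    · rw [div_le_iff₀ hn0]
      have h1 := hup (n - n1)
      have h2 : n1 + (n - n1) = n := by omega
      rw [h2] at h1
      have h3 : ((n - n1 : ℕ) : ℝ) ≤ n := by
        have : n - n1 ≤ n := by omega
        exact_mod_cast this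
      have h4 := hg.one_le n
      have h5 := hp n1
      calc p n ≤ p n1 + ((n - n1 : ℕ) : ℝ) * (C * g n) := h1
        _ ≤ p n1 * (g n * n) + (n : ℝ) * (C * g n) := by
            have h6 : p n1 ≤ p n1 * (g n * n) := by
              have : 1 ≤ g n * n := by nlinarith
              nlinarith
            have h7 : ((n - n1 : ℕ) : ℝ) * (C * g n) ≤ (n : ℝ) * (C * g n) := by
              have : 0 ≤ C * g n := by positivity
              gcongr
            linarith
        _ = (p n1 + C) * g n * n := by ring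
  have hev : ∀ᶠ n in Filter.atTop, 2 * n1 + 2 ≤ n := Filter.eventually_ge_atTop _
  constructor
  · refine IsBigO.of_bound (C * (4 / c)) ?_
    filter_upwards [hev] with n hn
    obtain ⟨h1, h2⟩ := key n hn
    obtain ⟨h3, h4⟩ := h n (by omega)
    have h5 := hg.one_le n
    rw [Real.norm_eq_abs, Real.norm_eq_abs, abs_of_nonneg (by nlinarith), abs_of_nonneg (by
      have := hp n; positivity)]
    have h6 : g n ≤ (4 / c) * (p n / n) := by
      calc g n = (4 / c) * (c / 4 * g n) := by field_simp
        _ ≤ _ := by gcongr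
    calc p (n + 1) - p n ≤ C * g n := h4
      _ ≤ C * ((4 / c) * (p n / n)) := by gcongr
      _ = _ := by ring
  · refine IsBigO.of_bound ((p n1 + C) * (1 / c)) ?_
    filter_upwards [hev] with n hn
    obtain ⟨h1, h2⟩ := key n hn
    obtain ⟨h3, h4⟩ := h n (by omega)
    have h5 := hg.one_le n
    have h7 := hp n1
    rw [Real.norm_eq_abs, Real.norm_eq_abs, abs_of_nonneg (by
      have := hp n; positivity), abs_of_nonneg (by nlinarith)]
    have h6 : g n ≤ (1 / c) * (p (n + 1) - p n) := by
      calc g n = (1 / c) * (c * g n) := by field_simp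
        _ ≤ _ := by gcongr
    calc p n / n ≤ (p n1 + C) * g n := h2
      _ ≤ (p n1 + C) * ((1 / c) * (p (n + 1) - p n)) := by gcongr
      _ = _ := by ring

end H54.Mor
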