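import Pool.Agent.H54.Mor.Average

/-!
# Right special factors and the first difference of the factor complexity
-/

open Finset Asymptotics

namespace H54.Mor

variable {α : Type*}

/-- the factor of length `n` at position `i` -/
def fac (u : ℕ → α) (n i : ℕ) : Fin n → α := fun j => u (i + j.val)

/-- set of factors of length `n` -/
def Fac (u : ℕ → α) (n : ℕ) : Set (Fin n → α) := Set.range (fac u n)

/-- right special factors of length `n` -/
def RS (u : ℕ → α) (n : ℕ) : Set (Fin n → α) :=
  {w | ∃ i i', fac u n i = w ∧ fac u n i' = w ∧ u (i + n) ≠ u (i' + n)}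

lemma fac_eq_iff (u : ℕ → α) (n i i' : ℕ) :
    fac u n i = fac u n i' ↔ ∀ j < n, u (i + j) = u (i' + j) := by
  constructor
  · intro h j hj
    exact congrFun h ⟨j, hj⟩
  · intro h
    funext j
    exact h j.1 j.2

lemma RS_subset (u : ℕ → α) (n : ℕ) : RS u n ⊆ Fac u n := by
  rintro w ⟨i, _, h, _, _⟩
  exact ⟨i, h⟩

lemma init_fac (u : ℕ → α) (n i : ℕ) : Fin.init (α := fun _ => α) (fac u (n + 1) i) = fac u n i := by
  funext j
  simp [Fin.init, fac]

lemma fac_last (u : ℕ → α) (n i : ℕ) : fac u (n + 1) i (Fin.last n) = u (i + n) := by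
  simp [fac]

section counting

variable [Finite α]

/-- lower bound -/
theorem RS_le_diff (u : ℕ → α) (n : ℕ) :
    (Fac u n).ncard + (RS u n).ncard ≤ (Fac u (n + 1)).ncard := by
  classical
  have := Fintype.ofFinite α
  set P1 : Finset (Fin (n + 1) → α) := (Fac u (n + 1)).toFinset with hP1
  set P0 : Finset (Fin n → α) := (Fac u n).toFinset with hP0
  set R : Finset (Fin n → α) := (RS u n).toFinset with hR
  have hc1 : (Fac u (n + 1)).ncard = P1.card := Set.ncard_eq_toFinset_card' _
  have hc0 : (Fac u n).ncard = P0.card := Set.ncard_eq_toFinset_card' _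
  have hcR : (RS u n).ncard = R.card := Set.ncard_eq_toFinset_card' _
  rw [hc1, hc0, hcR]
  have hmaps : ∀ w ∈ P1, Fin.init (α := fun _ => α) w ∈ P0 := by
    intro w hw
    rw [hP1, Set.mem_toFinset] at hw
    obtain ⟨i, rfl⟩ := hw
    rw [init_fac, hP0, Set.mem_toFinset]
    exact ⟨i, rfl⟩
  rw [Finset.card_eq_sum_card_fiberwise hmaps]
  have hRP : R ⊆ P0 := by
    intro w hw
    rw [hR, Set.mem_toFinset] at hw
    rw [hP0, Set.mem_toFinset]
    exact RS_subset u n hw
  have h1 : ∑ w ∈ P0, (1 + if w ∈ R then 1 else 0) = P0.card + R.card := by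
    rw [Finset.sum_add_distrib, Finset.sum_const, smul_eq_mul, mul_one, Finset.sum_ite_mem,
      Finset.inter_eq_right.mpr hRP]
    simp
  rw [← h1]
  refine Finset.sum_le_sum (fun w hw => ?_)
  split_ifs with hwR
  · rw [hR, Set.mem_toFinset] at hwR
    obtain ⟨i, i', h1, h2, h3⟩ := hwR
    have hne : fac u (n + 1) i ≠ fac u (n + 1) i' := by
      intro h
      apply h3
      rw [← fac_last u n i, ← fac_last u n i', h]
    have hsub : {fac u (n + 1) i, fac u (n + 1) i'} ⊆
        P1.filter (fun w' => Fin.init (α := fun _ => α) w' = w) := by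
      intro w' hw'
      simp only [Finset.mem_insert, Finset.mem_singleton] at hw'
      rw [Finset.mem_filter, hP1, Set.mem_toFinset]
      rcases hw' with rfl | rfl
      · exact ⟨⟨i, rfl⟩, by rw [init_fac, h1]⟩
      · exact ⟨⟨i', rfl⟩, by rw [init_fac, h2]⟩
    have := Finset.card_le_card hsub
    rw [Finset.card_pair hne] at this
    omega
  · rw [hP0, Set.mem_toFinset] at hw
    obtain ⟨i, hi⟩ := hw
    rw [Nat.add_zero, Nat.succ_le_iff, Finset.card_pos]
    refine ⟨fac u (n + 1) i, ?_⟩
    rw [Finset.mem_filter, hP1, Set.mem_toFinset]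
    exact ⟨⟨i, rfl⟩, by rw [init_fac, hi]⟩

/-- upper bound -/
theorem diff_le_RS (u : ℕ → α) (n : ℕ) :
    (Fac u (n + 1)).ncard ≤ (Fac u n).ncard + Nat.card α * (RS u n).ncard := by
  classical
  have := Fintype.ofFinite α
  set P1 : Finset (Fin (n + 1) → α) := (Fac u (n + 1)).toFinset with hP1
  set P0 : Finset (Fin n → α) := (Fac u n).toFinset with hP0
  set R : Finset (Fin n → α) := (RS u n).toFinset with hR
  have hc1 : (Fac u (n + 1)).ncard = P1.card := Set.ncard_eq_toFinset_card' _
  have hc0 : (Fac u n).ncard = P0.card := Set.ncard_eq_toFinset_card' _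
  have hcR : (RS u n).ncard = R.card := Set.ncard_eq_toFinset_card' _
  rw [hc1, hc0, hcR]
  have hmaps : ∀ w ∈ P1, Fin.init (α := fun _ => α) w ∈ P0 := by
    intro w hw
    rw [hP1, Set.mem_toFinset] at hw
    obtain ⟨i, rfl⟩ := hw
    rw [init_fac, hP0, Set.mem_toFinset]
    exact ⟨i, rfl⟩
  rw [Finset.card_eq_sum_card_fiberwise hmaps]
  have hRP : R ⊆ P0 := by
    intro w hw
    rw [hR, Set.mem_toFinset] at hw
    rw [hP0, Set.mem_toFinset]
    exact RS_subset u n hw
  have h1 : ∑ w ∈ P0, (1 + if w ∈ R then Nat.card α else 0) = P0.card + Nat.card α * R.card := by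
    rw [Finset.sum_add_distrib, Finset.sum_const, smul_eq_mul, mul_one, Finset.sum_ite_mem,
      Finset.inter_eq_right.mpr hRP]
    simp [mul_comm]
  rw [← h1]
  refine Finset.sum_le_sum (fun w hw => ?_)
  split_ifs with hwR
  · have hinj : Set.InjOn (fun w' : Fin (n + 1) → α => w' (Fin.last n))
        (P1.filter (fun w' => Fin.init (α := fun _ => α) w' = w) : Set (Fin (n + 1) → α)) := by
      intro w1 hw1 w2 hw2 h
      simp only [Finset.coe_filter, Set.mem_ofPred_eq] at hw1 hw2
      funext j
      refine Fin.lastCases ?_ (fun j => ?_) j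
      · exact h
      · have := congrFun (hw1.2.trans hw2.2.symm) j
        exact this
    have := Finset.card_le_card_of_injOn (s := P1.filter (fun w' => Fin.init (α := fun _ => α) w' = w))
      (t := (Finset.univ : Finset α)) _ (fun _ _ => Finset.mem_univ _) hinj
    rw [Finset.card_univ, ← Nat.card_eq_fintype_card] at this
    omega
  · show _ ≤ 1
    rw [Finset.card_le_one]
    intro w1 hw1 w2 hw2
    rw [Finset.mem_filter, hP1, Set.mem_toFinset] at hw1 hw2
    obtain ⟨⟨i, rfl⟩, hi⟩ := hw1
    obtain ⟨⟨i', rfl⟩, hi'⟩ := hw2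
    rw [init_fac] at hi hi'
    by_contra hne
    apply hwR
    rw [hR, Set.mem_toFinset]
    refine ⟨i, i', hi, hi', fun h => hne ?_⟩
    funext j
    refine Fin.lastCases ?_ (fun j => ?_) j
    · rw [fac_last, fac_last, h]
    · have := congrFun (hi.trans hi'.symm) j
      simpa [fac] using this

/-- Morse-Hedlund: if there is no right special factor of some length, the word is eventually
periodic. -/
theorem periodic_of_RS_empty (u : ℕ → α) (n : ℕ) (h : RS u n = ∅) :
    ∃ N p : ℕ, 0 < p ∧ ∀ m, N ≤ m → u (m + p) = u m := by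
  have hnotinj : ¬ Function.Injective (fac u n) := not_injective_infinite_finite _
  rw [Function.Injective] at hnotinj
  push Not at hnotinj
  obtain ⟨i, i', hii, hne⟩ := hnotinj
  wlog hlt : i < i' generalizing i i' with H
  · exact H i' i hii.symm hne.symm (by omega)
  -- all factors at `i + k`, `i' + k` agree
  have key : ∀ k, fac u n (i + k) = fac u n (i' + k) := by
    intro k
    induction k with
    | zero => exact hii
    | succ k ih =>
      have hnext : u (i + k + n) = u (i' + k + n) := by
        by_contra hcon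
        have : fac u n (i + k) ∈ RS u n := ⟨i + k, i' + k, rfl, ih.symm, hcon⟩
        rw [h] at this
        exact this
      rw [fac_eq_iff] at ih ⊢
      intro j hj
      rcases Nat.lt_or_ge (j + 1) n with h1 | h1
      · have := ih (j + 1) h1
        have e1 : i + (k + 1) + j = i + k + (j + 1) := by ring
        have e2 : i' + (k + 1) + j = i' + k + (j + 1) := by ring
        rw [e1, e2]; exact this
      · have hjn : j + 1 = n := by omega
        have e1 : i + (k + 1) + j = i + k + n := by omega
        have e2 : i' + (k + 1) + j = i' + k + n := by omega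
        rw [e1, e2]; exact hnext
  have hall : ∀ k, u (i + k) = u (i' + k) := by
    intro k
    rcases Nat.eq_zero_or_pos n with hn | hn
    · by_contra hcon
      subst hn
      have : fac u 0 (i + k) ∈ RS u 0 := ⟨i + k, i' + k, rfl, Subsingleton.elim _ _, by simpa using hcon⟩
      rw [h] at this
      exact this
    · have := key k
      rw [fac_eq_iff] at this
      simpa using this 0 hn
  refine ⟨i, i' - i, by omega, fun m hm => ?_⟩
  have := hall (m - i)
  have e1 : i + (m - i) = m := by omega
  have e2 : i' + (m - i) = m + (i' - i) := by omega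
  rw [e1, e2] at this
  exact this.symm

theorem one_le_RS (u : ℕ → α)
    (hu : ¬ ∃ N p : ℕ, 0 < p ∧ ∀ m, N ≤ m → u (m + p) = u m) (n : ℕ) :
    1 ≤ (RS u n).ncard := by
  rcases Nat.eq_zero_or_pos (RS u n).ncard with h | h
  · exfalso
    rw [Set.ncard_eq_zero (Set.toFinite _)] at h
    exact hu (periodic_of_RS_empty u n h)
  · exact h

end counting

/-- comparison function `n + 1` -/
lemma reg_lin : Reg (fun n : ℕ => (n : ℝ) + 1) := by
  refine ⟨fun n => by linarith [Nat.cast_nonneg (α := ℝ) n], ?_, fun n => ?_⟩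
  · intro m n h
    have : (m : ℝ) ≤ n := by exact_mod_cast h
    simpa using this
  · have : n + 1 ≤ 2 * (n / 2 + 1) := by omega
    exact_mod_cast this

/-- **Assembly.** If `c g(n) - C' ≤ |RS(n)| ≤ C g(n)` for large `n`, with `g` regular, and `u` is
not eventually periodic, then `s(n) = Θ(p(n)/n)`. -/
theorem theta_of_RS [Fintype α] (u : ℕ → α)
    (hu : ¬ ∃ N p : ℕ, 0 < p ∧ ∀ m, N ≤ m → u (m + p) = u m)
    {g : ℕ → ℝ} (hg : Reg g) {c C C' : ℝ} (hc : 0 < c) (hC : 0 < C) (n1 : ℕ)
    (h : ∀ n, n1 ≤ n → c * g n - C' ≤ ((RS u n).ncard : ℝ) ∧ ((RS u n).ncard : ℝ) ≤ C * g n) :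
    (fun n : ℕ =>
          ((Set.range (fun i : ℕ => fun j : Fin (n + 1) => u (i + j.val))).ncard : ℝ)
            - ((Set.range (fun i : ℕ => fun j : Fin n => u (i + j.val))).ncard : ℝ))
        =Θ[Filter.atTop]
      (fun n : ℕ =>
          ((Set.range (fun i : ℕ => fun j : Fin n => u (i + j.val))).ncard : ℝ) / (n : ℝ)) := by
  have hC1 : 0 < |C'| + 1 := by positivity
  have hN : 0 < Nat.card α := by
    have : Nonempty α := ⟨u 0⟩
    exact Nat.card_pos
  have hN' : (0 : ℝ) < Nat.card α := by exact_mod_cast hN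
  refine theta_of_reg hg (fun n => ((Fac u n).ncard : ℝ)) (fun n => Nat.cast_nonneg _)
    (c := c / (|C'| + 1)) (C := Nat.card α * C) (by positivity) (by positivity) n1
    (fun n hn => ?_)
  obtain ⟨h1, h2⟩ := h n hn
  have h3 : (1 : ℝ) ≤ ((RS u n).ncard : ℝ) := by exact_mod_cast one_le_RS u hu n
  have h4 : (((Fac u n).ncard : ℝ) + ((RS u n).ncard : ℝ)) ≤ ((Fac u (n + 1)).ncard : ℝ) := by
    exact_mod_cast RS_le_diff u n
  have h5 : ((Fac u (n + 1)).ncard : ℝ) ≤ ((Fac u n).ncard : ℝ) +
      (Nat.card α : ℝ) * ((RS u n).ncard : ℝ) := by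
    exact_mod_cast diff_le_RS u n
  have h6 : c / (|C'| + 1) * g n ≤ ((RS u n).ncard : ℝ) := by
    rw [div_mul_eq_mul_div, div_le_iff₀ hC1]
    have := le_abs_self C'
    nlinarith [abs_nonneg C']
  have h7 : (Nat.card α : ℝ) * ((RS u n).ncard : ℝ) ≤ (Nat.card α : ℝ) * (C * g n) := by gcongr
  constructor
  · linarith
  · linarith

end H54.Mor
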