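import Pool.Agent.H54.Mor.Growth

/-!
# Counting levels

Two sided estimates for the number of `k` with `gr d l k ≤ c n` and `n ≤ c' gr D L k`.
-/

open Finset

namespace H54.Mor

noncomputable def g1 (n : ℕ) : ℝ := Real.log (n + 1) + 1
noncomputable def g2 (n : ℕ) : ℝ := Real.log (Real.log (n + 1) + 1) + 1

lemma log_nonneg' (n : ℕ) : 0 ≤ Real.log ((n : ℝ) + 1) :=
  Real.log_nonneg (by linarith [Nat.cast_nonneg (α := ℝ) n])

lemma one_le_g1 (n : ℕ) : 1 ≤ g1 n := by
  unfold g1; linarith [log_nonneg' n]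

lemma one_le_g2 (n : ℕ) : 1 ≤ g2 n := by
  unfold g2
  have := Real.log_nonneg (x := Real.log ((n : ℝ) + 1) + 1) (by linarith [log_nonneg' n])
  linarith

/-- A finite set of naturals contained in a real interval `[a,b]` has at most `b-a+1` elements. -/
lemma card_le_of_bounds (T : Finset ℕ) (a b : ℝ) (hT : ∀ k ∈ T, a ≤ k ∧ (k : ℝ) ≤ b)
    (hab : 0 ≤ b - a + 1) : (T.card : ℝ) ≤ b - a + 1 := by
  rcases T.eq_empty_or_nonempty with h | h
  · subst h; simpa using hab
  · have h1 : T ⊆ Finset.Icc (T.min' h) (T.max' h) := by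
      intro k hk
      rw [Finset.mem_Icc]
      exact ⟨T.min'_le k hk, T.le_max' k hk⟩
    have h2 := Finset.card_le_card h1
    rw [Nat.card_Icc] at h2
    have h3 : T.min' h ≤ T.max' h := T.min'_le_max' h
    have h4 : (T.card : ℝ) ≤ (T.max' h : ℝ) + 1 - T.min' h := by
      have : T.card + T.min' h ≤ T.max' h + 1 := by omega
      have : (T.card : ℝ) + T.min' h ≤ T.max' h + 1 := by exact_mod_cast this
      linarith
    have h5 := (hT _ (T.min'_mem h)).1
    have h6 := (hT _ (T.max'_mem h)).2
    linarith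

/-- a real interval `[a,b]`, `0 ≤ b`, contains a finset of at least `b-a-1` naturals (`a ≥ 0`
is not needed: we use `max a 0`). -/
lemma exists_finset_of_bounds (a b : ℝ) (ha : 0 ≤ a) :
    ∃ T : Finset ℕ, (∀ k ∈ T, a ≤ k ∧ (k : ℝ) ≤ b) ∧ b - a - 1 ≤ (T.card : ℝ) := by
  rcases le_total 0 b with hb | hb
  · refine ⟨Finset.Icc ⌈a⌉₊ ⌊b⌋₊, fun k hk => ?_, ?_⟩
    · rw [Finset.mem_Icc] at hk
      exact ⟨(Nat.le_ceil a).trans (by exact_mod_cast hk.1),
        le_trans (by exact_mod_cast hk.2) (Nat.floor_le hb)⟩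
    · rw [Nat.card_Icc]
      have h1 := Nat.ceil_lt_add_one ha
      have h2 := Nat.lt_floor_add_one b
      have h3 : ((⌊b⌋₊ : ℝ) + 1 - ⌈a⌉₊) ≤ ((⌊b⌋₊ + 1 - ⌈a⌉₊ : ℕ) : ℝ) := by
        rcases le_total ⌈a⌉₊ (⌊b⌋₊ + 1) with h | h
        · rw [Nat.cast_sub h]; push_cast; linarith
        · have : ((⌊b⌋₊ : ℝ) + 1) ≤ ⌈a⌉₊ := by exact_mod_cast h
          have h4 : (0 : ℝ) ≤ ((⌊b⌋₊ + 1 - ⌈a⌉₊ : ℕ) : ℝ) := Nat.cast_nonneg _
          linarith
      linarith
  · exact ⟨∅, by simp, by simp; linarith⟩

lemma log_gr {l : ℝ} (hl : 1 ≤ l) (d k : ℕ) :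
    Real.log (gr d l k) = d * Real.log (k + 1) + k * Real.log l := by
  unfold gr
  have h1 : (0 : ℝ) < ((k : ℝ) + 1) ^ d := by positivity
  have h2 : (0 : ℝ) < l ^ k := by positivity
  rw [Real.log_mul h1.ne' h2.ne', Real.log_pow, Real.log_pow]

lemma n_pos_of_gr_le {l : ℝ} (hl : 1 ≤ l) {d k n : ℕ} {c : ℝ} (hc : 0 < c)
    (h : gr d l k ≤ c * n) : (0 : ℝ) < n := by
  have := gr_pos hl d k
  by_contra hcon
  have : (n : ℝ) ≤ 0 := not_lt.mp hcon
  nlinarith

lemma log_le_log_succ {n : ℕ} (hn : (0 : ℝ) < n) : Real.log n ≤ Real.log (n + 1) :=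
  Real.log_le_log hn (by linarith)

/-- upper bound, logarithmic -/
theorem count_le_g1 {l : ℝ} (hl : 1 < l) (d : ℕ) {c : ℝ} (hc : 0 < c) :
    ∃ C : ℝ, 0 < C ∧ ∀ (n : ℕ) (T : Finset ℕ), (∀ k ∈ T, gr d l k ≤ c * n) →
      (T.card : ℝ) ≤ C * g1 n := by
  have hρ : 0 < Real.log l := Real.log_pos hl
  refine ⟨(|Real.log c| + 1) / Real.log l + 1, by positivity, fun n T hT => ?_⟩
  have h1 := one_le_g1 n
  have hlog := log_nonneg' n
  have h0 : 0 ≤ (|Real.log c| + Real.log (n + 1)) / Real.log l := by positivity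
  have hb : ∀ k ∈ T, (0 : ℝ) ≤ k ∧ (k : ℝ) ≤ (|Real.log c| + Real.log (n + 1)) / Real.log l := by
    intro k hk
    refine ⟨by positivity, ?_⟩
    have hn := n_pos_of_gr_le hl.le hc (hT k hk)
    have h2 := Real.log_le_log (gr_pos hl.le d k) (hT k hk)
    rw [log_gr hl.le, Real.log_mul hc.ne' hn.ne'] at h2
    rw [le_div_iff₀ hρ]
    have h3 : 0 ≤ (d : ℝ) * Real.log (k + 1) := mul_nonneg (by positivity) (log_nonneg' k)
    have h4 := log_le_log_succ hn
    have h5 := le_abs_self (Real.log c)
    linarith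
  have := card_le_of_bounds T 0 _ hb (by linarith)
  calc (T.card : ℝ) ≤ (|Real.log c| + Real.log (n + 1)) / Real.log l - 0 + 1 := this
    _ ≤ ((|Real.log c| + 1) * g1 n) / Real.log l + g1 n := by
        have : |Real.log c| + Real.log (n + 1) ≤ (|Real.log c| + 1) * g1 n := by
          unfold g1 at h1 ⊢
          nlinarith [abs_nonneg (Real.log c)]
        rw [sub_zero]
        gcongr
    _ = _ := by ring

/-- upper bound, same exponential rate -/
theorem count_le_g2 {l : ℝ} (hl : 1 < l) (d D : ℕ) {c c' : ℝ} (hc : 0 < c) (hc' : 0 < c') :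
    ∃ C : ℝ, 0 < C ∧ ∀ (n : ℕ) (T : Finset ℕ),
      (∀ k ∈ T, gr d l k ≤ c * n ∧ (n : ℝ) ≤ c' * gr D l k) → (T.card : ℝ) ≤ C * g2 n := by
  have hρ : 0 < Real.log l := Real.log_pos hl
  set A := (|Real.log c| + 1) / Real.log l + 1 with hA
  have hA1 : 1 ≤ A := by
    have : 0 ≤ (|Real.log c| + 1) / Real.log l := by positivity
    linarith
  set B := |Real.log c| + |Real.log c'| + D * Real.log A with hB
  have hlA : 0 ≤ Real.log A := Real.log_nonneg hA1
  have hB0 : 0 ≤ B := by positivity
  refine ⟨(B + D) / Real.log l + 1, by positivity, fun n T hT => ?_⟩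
  have h1 := one_le_g2 n
  have hlog := log_nonneg' n
  set y := Real.log ((n : ℝ) + 1) with hy
  have hly : 0 ≤ Real.log (y + 1) := Real.log_nonneg (by linarith)
  have hb : ∀ k ∈ T, (Real.log n - |Real.log c'| - D * Real.log (A * (y + 1))) / Real.log l ≤ (k : ℝ)
      ∧ (k : ℝ) ≤ (|Real.log c| + Real.log n) / Real.log l := by
    intro k hk
    have hn := n_pos_of_gr_le hl.le hc (hT k hk).1
    have hg := gr_pos hl.le d k
    have hg' := gr_pos hl.le D k
    have h2 := Real.log_le_log hg (hT k hk).1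
    rw [log_gr hl.le, Real.log_mul hc.ne' hn.ne'] at h2
    have h3 := Real.log_le_log hn (hT k hk).2
    rw [Real.log_mul hc'.ne' hg'.ne', log_gr hl.le] at h3
    have h4 : 0 ≤ (d : ℝ) * Real.log (k + 1) := mul_nonneg (by positivity) (log_nonneg' k)
    have h5 := le_abs_self (Real.log c)
    have h6 := le_abs_self (Real.log c')
    have h7 : (k : ℝ) ≤ (|Real.log c| + Real.log n) / Real.log l := by
      rw [le_div_iff₀ hρ]; linarith
    refine ⟨?_, h7⟩
    rw [div_le_iff₀ hρ]
    have h8 : (k : ℝ) + 1 ≤ A * (y + 1) := by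
      have h9 := log_le_log_succ hn
      calc (k : ℝ) + 1 ≤ (|Real.log c| + Real.log n) / Real.log l + 1 := by linarith
        _ ≤ ((|Real.log c| + 1) * (y + 1)) / Real.log l + (y + 1) := by
            have : |Real.log c| + Real.log n ≤ (|Real.log c| + 1) * (y + 1) := by
              nlinarith [abs_nonneg (Real.log c)]
            gcongr
            linarith
        _ = A * (y + 1) := by rw [hA]; ring
    have h10 : Real.log ((k : ℝ) + 1) ≤ Real.log (A * (y + 1)) :=
      Real.log_le_log (by positivity) h8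
    have h11 : (D : ℝ) * Real.log (k + 1) ≤ D * Real.log (A * (y + 1)) := by gcongr
    linarith
  have hlAy : Real.log (A * (y + 1)) = Real.log A + Real.log (y + 1) :=
    Real.log_mul (by linarith) (by linarith)
  have hab : (|Real.log c| + Real.log n) / Real.log l -
      (Real.log n - |Real.log c'| - D * Real.log (A * (y + 1))) / Real.log l
      = (B + D * Real.log (y + 1)) / Real.log l := by
    rw [← sub_div]
    congr 1
    rw [hlAy, hB]; ring
  have h0 : 0 ≤ (B + D * Real.log (y + 1)) / Real.log l := by positivity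
  have := card_le_of_bounds T _ _ hb (by rw [hab]; linarith)
  rw [hab] at this
  calc (T.card : ℝ) ≤ (B + D * Real.log (y + 1)) / Real.log l + 1 := this
    _ ≤ ((B + D) * g2 n) / Real.log l + g2 n := by
        have : B + D * Real.log (y + 1) ≤ (B + D) * g2 n := by
          have h12 : g2 n = Real.log (y + 1) + 1 := rfl
          rw [h12]
          have : (0:ℝ) ≤ D := by positivity
          nlinarith
        gcongr
    _ = _ := by ring

/-- upper bound, same growth type -/
theorem count_le_one {l : ℝ} (hl : 1 < l) (d : ℕ) {c c' : ℝ} (hc : 0 < c) (hc' : 0 < c') :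
    ∃ C : ℝ, 0 < C ∧ ∀ (n : ℕ) (T : Finset ℕ),
      (∀ k ∈ T, gr d l k ≤ c * n ∧ (n : ℝ) ≤ c' * gr d l k) → (T.card : ℝ) ≤ C := by
  have hρ : 0 < Real.log l := Real.log_pos hl
  refine ⟨(|Real.log c| + |Real.log c'|) / Real.log l + 1, by positivity, fun n T hT => ?_⟩
  rcases T.eq_empty_or_nonempty with h | h
  · subst h; simp; positivity
  · set k1 := T.min' h with hk1
    have hmem := hT k1 (T.min'_mem h)
    have hn := n_pos_of_gr_le hl.le hc hmem.1
    have hg' := gr_pos hl.le d k1
    have h3 := Real.log_le_log hn hmem.2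
    rw [Real.log_mul hc'.ne' hg'.ne', log_gr hl.le] at h3
    have hb : ∀ k ∈ T, (k1 : ℝ) ≤ (k : ℝ) ∧
        (k : ℝ) ≤ k1 + (|Real.log c| + |Real.log c'|) / Real.log l := by
      intro k hk
      have hkk : k1 ≤ k := T.min'_le k hk
      refine ⟨by exact_mod_cast hkk, ?_⟩
      have h2 := Real.log_le_log (gr_pos hl.le d k) (hT k hk).1
      rw [log_gr hl.le, Real.log_mul hc.ne' hn.ne'] at h2
      have h4 : Real.log ((k1 : ℝ) + 1) ≤ Real.log ((k : ℝ) + 1) := by
        apply Real.log_le_log (by positivity)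
        have : (k1 : ℝ) ≤ k := by exact_mod_cast hkk
        linarith
      have h5 : (d : ℝ) * Real.log (k1 + 1) ≤ d * Real.log (k + 1) := by gcongr
      have h6 := le_abs_self (Real.log c)
      have h7 := le_abs_self (Real.log c')
      have h8 : ((k : ℝ) - k1) ≤ (|Real.log c| + |Real.log c'|) / Real.log l := by
        rw [le_div_iff₀ hρ]; nlinarith
      linarith
    have := card_le_of_bounds T _ _ hb (by
      have : 0 ≤ (|Real.log c| + |Real.log c'|) / Real.log l := by positivity
      linarith)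
    linarith

/-- lower bound, logarithmic -/
theorem count_ge_g1 {l L : ℝ} (hl : 1 < l) (hL : l < L) (d D : ℕ) {c c' : ℝ} (hc : 0 < c)
    (hc' : 0 < c') : ∃ a C : ℝ, 0 < a ∧ 0 < C ∧ ∀ n : ℕ, ∃ T : Finset ℕ,
      (∀ k ∈ T, gr d l k ≤ c * n ∧ (n : ℝ) ≤ c' * gr D L k) ∧ a * g1 n - C ≤ (T.card : ℝ) := by
  set m := (l + L) / 2 with hm
  have hlm : l < m := by rw [hm]; linarith
  have hmL : m < L := by rw [hm]; linarith
  have hm1 : 1 < m := by linarith
  obtain ⟨E, hE, hEE⟩ := gr_le_of_lt hl.le hlm d 0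
  have hρ : 0 < Real.log m := Real.log_pos hm1
  have hP : Real.log m < Real.log L := Real.log_lt_log (by linarith) hmL
  have hP0 : 0 < Real.log L := by linarith
  set a := 1 / Real.log m - 1 / Real.log L with ha
  have ha0 : 0 < a := by
    rw [ha, sub_pos]
    exact one_div_lt_one_div_of_lt hρ hP
  set c1 := |Real.log (c / (2 * E))| with hc1
  set c2 := |Real.log c'| with hc2
  have hc1n : 0 ≤ c1 := abs_nonneg _
  have hc2n : 0 ≤ c2 := abs_nonneg _
  have hq1 : 0 ≤ c1 / Real.log m := div_nonneg hc1n hρ.le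
  have hq2 : 0 ≤ c2 / Real.log L := div_nonneg hc2n hP0.le
  refine ⟨a, a + c1 / Real.log m + c2 / Real.log L + 1, ha0, by linarith, fun n => ?_⟩
  rcases Nat.eq_zero_or_pos n with hn | hn
  · refine ⟨∅, by simp, ?_⟩
    have : g1 n = 1 := by rw [hn]; simp [g1]
    rw [this]
    simp only [card_empty, Nat.cast_zero]
    have h1 : 0 ≤ c1 / Real.log m := by positivity
    have h2 : 0 ≤ c2 / Real.log L := by positivity
    linarith
  have hn' : (1 : ℝ) ≤ n := by exact_mod_cast hn
  set x := Real.log ((n : ℝ) + 1) with hx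
  have hx0 : 0 ≤ x := log_nonneg' n
  obtain ⟨T, hT, hTc⟩ := exists_finset_of_bounds ((x + c2) / Real.log L) ((x - c1) / Real.log m)
    (by positivity)
  refine ⟨T, fun k hk => ?_, ?_⟩
  · obtain ⟨h1, h2⟩ := hT k hk
    rw [div_le_iff₀ hP0] at h1
    rw [le_div_iff₀ hρ] at h2
    have hmk : 0 < m ^ k := by positivity
    have hL0 : 0 < L := by linarith
    have hLk : 0 < L ^ k := by positivity
    constructor
    · -- gr d l k ≤ E m^k ≤ c n
      have h3 := hEE k
      have h4 : gr 0 m k = m ^ k := by simp [gr]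
      rw [h4] at h3
      have h5 : m ^ k ≤ (c / (2 * E)) * (n + 1) := by
        rw [← Real.log_le_log_iff hmk (by positivity), Real.log_pow,
          Real.log_mul (by positivity) (by positivity)]
        have := neg_abs_le (Real.log (c / (2 * E)))
        linarith
      calc gr d l k ≤ E * m ^ k := h3
        _ ≤ E * ((c / (2 * E)) * (n + 1)) := by gcongr
        _ = c * ((n + 1) / 2) := by field_simp
        _ ≤ c * n := by gcongr; linarith
    · have h5 : (n : ℝ) + 1 ≤ c' * L ^ k := by
        rw [← Real.log_le_log_iff (by positivity) (by positivity),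
          Real.log_mul (by positivity) (by positivity), Real.log_pow]
        have := neg_abs_le (Real.log c')
        linarith
      have h6 : L ^ k ≤ gr D L k := by
        unfold gr
        have : (1 : ℝ) ≤ ((k : ℝ) + 1) ^ D := one_le_pow₀ (by linarith [Nat.cast_nonneg (α := ℝ) k])
        nlinarith
      calc (n : ℝ) ≤ c' * L ^ k := by linarith
        _ ≤ c' * gr D L k := by gcongr
  · have h1 : g1 n = x + 1 := rfl
    rw [h1]
    have h2 : (x - c1) / Real.log m - (x + c2) / Real.log L - 1
        = a * x - c1 / Real.log m - c2 / Real.log L - 1 := by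
      rw [ha]; ring
    rw [h2] at hTc
    linarith

/-- lower bound, log log -/
theorem count_ge_g2 {l : ℝ} (hl : 1 < l) {d D : ℕ} (hdD : d < D) {c c' : ℝ} (hc : 0 < c)
    (hc' : 0 < c') : ∃ a C : ℝ, 0 < a ∧ 0 < C ∧ ∀ n : ℕ, ∃ T : Finset ℕ,
      (∀ k ∈ T, gr d l k ≤ c * n ∧ (n : ℝ) ≤ c' * gr D l k) ∧ a * g2 n - C ≤ (T.card : ℝ) := by
  have hρ : 0 < Real.log l := Real.log_pos hl
  set ρ := Real.log l with hρd
  set c1 := |Real.log c| with hc1
  set c2 := |Real.log c'| with hc2
  set α := 1 / (2 * ρ) with hα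
  set β := 2 / ρ with hβ
  have hα0 : 0 < α := by positivity
  have hβ0 : 0 < β := by positivity
  -- eventually in y
  have hev : ∀ᶠ y : ℝ in Filter.atTop, c2 + D * Real.log y + D * |Real.log α| ≤ y / 2 ∧
      ρ ≤ y / 2 ∧ 1 ≤ y ∧ c1 + |Real.log β| * d ≤ Real.log y ∧ 1 ≤ β * y := by
    have h1 : (fun y : ℝ => c2 + D * Real.log y + D * |Real.log α|) =o[Filter.atTop]
        (fun y : ℝ => y) := by
      have hl1 : (fun y : ℝ => (D : ℝ) * Real.log y) =o[Filter.atTop] (fun y : ℝ => y) :=
        Real.isLittleO_log_id_atTop.const_mul_left _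
      have hl2 : (fun _ : ℝ => c2) =o[Filter.atTop] (fun y : ℝ => y) :=
        Asymptotics.isLittleO_const_id_atTop _
      have hl3 : (fun _ : ℝ => D * |Real.log α|) =o[Filter.atTop] (fun y : ℝ => y) :=
        Asymptotics.isLittleO_const_id_atTop _
      exact (hl2.add hl1).add hl3
    have h2 := h1.bound (show (0 : ℝ) < 1 / 2 by norm_num)
    filter_upwards [h2, Filter.eventually_ge_atTop (2 * ρ), Filter.eventually_ge_atTop 1,
      Real.tendsto_log_atTop.eventually_ge_atTop (c1 + |Real.log β| * d),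
      Filter.eventually_ge_atTop (1 / β)] with y h2 h3 h4 h5 h6
    refine ⟨?_, by linarith, h4, h5, ?_⟩
    · have h7 := (le_abs_self _).trans h2
      rw [Real.norm_eq_abs, abs_of_nonneg (by linarith : (0:ℝ) ≤ y)] at h7
      linarith
    · rw [div_le_iff₀ hβ0] at h6
      linarith
  obtain ⟨y0, hy0⟩ := Filter.eventually_atTop.mp hev
  set a : ℝ := (D - d) / ρ with ha
  have hdD' : (d : ℝ) < D := by exact_mod_cast hdD
  have ha0 : 0 < a := by
    rw [ha]; apply div_pos _ hρ; linarith
  set K := (c1 + c2 + D * |Real.log α| + d * |Real.log β|) / ρ with hK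
  have hK0 : 0 ≤ K := by positivity
  refine ⟨a, a * (Real.log (|y0| + 2) + 1) + a * (Real.log 3 + 1) + K + 1, ha0, ?_, fun n => ?_⟩
  · have h1 : 0 ≤ Real.log (|y0| + 2) := Real.log_nonneg (by linarith [abs_nonneg y0])
    have h2 : 0 ≤ Real.log 3 := Real.log_nonneg (by norm_num)
    positivity
  have hlog3 : 0 ≤ Real.log 3 := Real.log_nonneg (by norm_num)
  have hlogy0 : 0 ≤ Real.log (|y0| + 2) := Real.log_nonneg (by linarith [abs_nonneg y0])
  set y := Real.log (n : ℝ) with hy
  rcases lt_or_ge y y0 with hlt | hge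
  · -- small n
    refine ⟨∅, by simp, ?_⟩
    simp only [card_empty, Nat.cast_zero]
    have h1 : g2 n ≤ Real.log (|y0| + 2) + 1 + (Real.log 3 + 1) := by
      unfold g2
      have h2 : Real.log ((n : ℝ) + 1) ≤ |y0| + 1 := by
        rcases Nat.eq_zero_or_pos n with hn | hn
        · rw [hn]; simp; positivity
        · have hn' : (1 : ℝ) ≤ n := by exact_mod_cast hn
          have h3 : Real.log ((n : ℝ) + 1) ≤ Real.log (2 * n) :=
            Real.log_le_log (by positivity) (by linarith)
          rw [Real.log_mul (by norm_num) (by positivity)] at h3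
          have h4 : Real.log 2 < 1 := by
            have := Real.log_two_lt_d9; linarith
          have h5 := le_abs_self y0
          linarith
      have h3 : Real.log (Real.log ((n : ℝ) + 1) + 1) ≤ Real.log (|y0| + 2) :=
        Real.log_le_log (by linarith [log_nonneg' n]) (by linarith)
      linarith
    have h2 := mul_le_mul_of_nonneg_left h1 ha0.le
    nlinarith
  · obtain ⟨e1, e2, e3, e4, e5⟩ := hy0 y hge
    have hy1 : 0 < y := by linarith
    have hnpos : (0 : ℝ) < n := by
      rcases Nat.eq_zero_or_pos n with hn | hn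
      · exfalso; rw [hn] at hy; simp at hy; linarith
      · exact_mod_cast hn
    have hly : 0 ≤ Real.log y := Real.log_nonneg e3
    -- the interval
    obtain ⟨T, hT, hTc⟩ := exists_finset_of_bounds
      ((y + c2 - D * Real.log y + D * |Real.log α|) / ρ)
      ((y - c1 - d * Real.log y - d * |Real.log β|) / ρ)
      (by
        apply div_nonneg _ hρ.le
        have : 0 ≤ (D : ℝ) * |Real.log α| := by positivity
        have h3 : (0:ℝ) ≤ c2 := abs_nonneg _
        linarith)
    refine ⟨T, fun k hk => ?_, ?_⟩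
    · obtain ⟨h1, h2⟩ := hT k hk
      rw [div_le_iff₀ hρ] at h1
      rw [le_div_iff₀ hρ] at h2
      have hd0 : 0 ≤ (d : ℝ) * Real.log y := by positivity
      have hd1 : 0 ≤ (d : ℝ) * |Real.log β| := by positivity
      have hD1 : 0 ≤ (D : ℝ) * |Real.log α| := by positivity
      have hc1' : 0 ≤ c1 := abs_nonneg _
      have hc2' : 0 ≤ c2 := abs_nonneg _
      -- α y ≤ k + 1 ≤ β y
      have hk1 : α * y ≤ (k : ℝ) + 1 := by
        have : (k : ℝ) * ρ ≥ y / 2 := by linarith
        have h3 : α * y * ρ = y / 2 := by rw [hα]; field_simp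
        nlinarith
      have hk2 : (k : ℝ) + 1 ≤ β * y := by
        have h3 : β * y * ρ = 2 * y := by rw [hβ]; field_simp
        have h4 : ((k : ℝ) + 1) * ρ ≤ β * y * ρ := by
          rw [h3]; nlinarith
        exact le_of_mul_le_mul_right h4 hρ
      have hlk1 : Real.log α + Real.log y ≤ Real.log (k + 1) := by
        rw [← Real.log_mul hα0.ne' hy1.ne']
        exact Real.log_le_log (by positivity) hk1
      have hlk2 : Real.log (k + 1) ≤ Real.log β + Real.log y := by
        rw [← Real.log_mul hβ0.ne' hy1.ne']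
        exact Real.log_le_log (by positivity) hk2
      constructor
      · rw [← Real.log_le_log_iff (gr_pos hl.le d k) (by positivity), log_gr hl.le,
          Real.log_mul hc.ne' hnpos.ne']
        have h5 := neg_abs_le (Real.log c)
        have h6 := le_abs_self (Real.log β)
        have h7 : (d : ℝ) * Real.log (k + 1) ≤ d * (|Real.log β| + Real.log y) := by
          gcongr; linarith
        have h8 : -c1 ≤ Real.log c := h5
        nlinarith
      · have hg := gr_pos hl.le D k
        rw [← Real.log_le_log_iff hnpos (by positivity), Real.log_mul hc'.ne' hg.ne',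
          log_gr hl.le]
        have h5 := neg_abs_le (Real.log c')
        have h6 := neg_abs_le (Real.log α)
        have h7 : (D : ℝ) * (-|Real.log α| + Real.log y) ≤ D * Real.log (k + 1) := by
          gcongr; linarith
        have h8 : -c2 ≤ Real.log c' := h5
        nlinarith
    · have h1 : (y - c1 - d * Real.log y - d * |Real.log β|) / ρ -
          (y + c2 - D * Real.log y + D * |Real.log α|) / ρ - 1
          = a * Real.log y - K - 1 := by
        rw [ha, hK]; field_simp; ring
      rw [h1] at hTc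
      have h2 : g2 n ≤ Real.log y + Real.log 3 + 1 := by
        unfold g2
        have h3 : Real.log ((n : ℝ) + 1) ≤ Real.log 2 + y := by
          rw [hy, ← Real.log_mul (by norm_num) hnpos.ne']
          apply Real.log_le_log (by positivity)
          have : (1 : ℝ) ≤ n := by
            have : 0 < n := by exact_mod_cast hnpos
            exact_mod_cast this
          linarith
        have h4 : Real.log 2 < 1 := by
          have := Real.log_two_lt_d9; linarith
        have h5 : Real.log (Real.log ((n : ℝ) + 1) + 1) ≤ Real.log (3 * y) :=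
          Real.log_le_log (by linarith [log_nonneg' n]) (by linarith)
        rw [Real.log_mul (by norm_num) hy1.ne'] at h5
        linarith
      have h3 := mul_le_mul_of_nonneg_left h2 ha0.le
      nlinarith [mul_nonneg ha0.le hlogy0]

end H54.Mor
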