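import Mathlib

/-!
# Growth types of nonerasing endomorphisms of finitely generated free monoids

For every letter `a` of a nonerasing endomorphism `σ` of a finitely generated free monoid,
`|σ^k(a)|` is, up to multiplicative constants, `(k+1)^d λ^k` for some `d : ℕ`, `λ ≥ 1`.
-/

open Finset Matrix

namespace H54.Mor

/-- The standard growth function `(k+1)^d l^k`. -/
noncomputable def gr (d : ℕ) (l : ℝ) (k : ℕ) : ℝ := ((k : ℝ) + 1) ^ d * l ^ k

/-- `f` has growth type `(d,l)`. -/
def HasGr (f : ℕ → ℝ) (d : ℕ) (l : ℝ) : Prop :=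
  1 ≤ l ∧ ∃ c C : ℝ, 0 < c ∧ 0 < C ∧ ∀ k, c * gr d l k ≤ f k ∧ f k ≤ C * gr d l k

def IsGr (f : ℕ → ℝ) : Prop := ∃ (d : ℕ) (l : ℝ), HasGr f d l

lemma gr_pos {l : ℝ} (hl : 1 ≤ l) (d k : ℕ) : 0 < gr d l k := by
  unfold gr; positivity

lemma gr_zero (d : ℕ) (l : ℝ) : gr d l 0 = 1 := by simp [gr]

lemma gr_le_of_lt {l l' : ℝ} (hl : 1 ≤ l) (h : l < l') (d d' : ℕ) :
    ∃ C : ℝ, 0 < C ∧ ∀ k, gr d l k ≤ C * gr d' l' k := by
  have hl' : 0 < l' := by linarith
  have hr0 : 0 < l / l' := by positivity
  have hr1 : l / l' < 1 := by rw [div_lt_one hl']; exact h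
  have ht := tendsto_pow_const_mul_const_pow_of_abs_lt_one d
    (r := l / l') (by rw [abs_of_pos hr0]; exact hr1)
  obtain ⟨B, hB⟩ := ht.bddAbove_range
  have hB' : ∀ k : ℕ, (k : ℝ) ^ d * (l / l') ^ k ≤ B := fun k => hB ⟨k, rfl⟩
  refine ⟨(max B 1) / (l / l'), by positivity, fun k => ?_⟩
  have h1 := hB' (k + 1)
  push_cast at h1
  have h2 : ((k : ℝ) + 1) ^ d * (l / l') ^ k ≤ (max B 1) / (l / l') := by
    rw [le_div_iff₀ hr0]
    calc ((k : ℝ) + 1) ^ d * (l / l') ^ k * (l / l') = ((k : ℝ) + 1) ^ d * (l / l') ^ (k + 1) := by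
          rw [pow_succ]; ring
      _ ≤ B := h1
      _ ≤ _ := le_max_left _ _
  have h3 : gr d l k = (((k : ℝ) + 1) ^ d * (l / l') ^ k) * l' ^ k := by
    unfold gr
    rw [div_pow]; field_simp
  rw [h3]
  have h4 : l' ^ k ≤ gr d' l' k := by
    unfold gr
    have : (1 : ℝ) ≤ ((k : ℝ) + 1) ^ d' := one_le_pow₀ (by linarith [Nat.cast_nonneg (α := ℝ) k])
    nlinarith [pow_pos hl' k]
  calc (((k : ℝ) + 1) ^ d * (l / l') ^ k) * l' ^ k
      ≤ ((max B 1) / (l / l')) * l' ^ k := by gcongr
    _ ≤ ((max B 1) / (l / l')) * gr d' l' k := by gcongr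

lemma gr_le_of_le {l : ℝ} (hl : 1 ≤ l) {d d' : ℕ} (h : d ≤ d') (k : ℕ) :
    gr d l k ≤ gr d' l k := by
  unfold gr
  have : ((k : ℝ) + 1) ^ d ≤ ((k : ℝ) + 1) ^ d' :=
    pow_le_pow_right₀ (by linarith [Nat.cast_nonneg (α := ℝ) k]) h
  gcongr

lemma gr_total {l l' : ℝ} (hl : 1 ≤ l) (hl' : 1 ≤ l') (d d' : ℕ) :
    (∃ C : ℝ, 0 < C ∧ ∀ k, gr d l k ≤ C * gr d' l' k) ∨
    (∃ C : ℝ, 0 < C ∧ ∀ k, gr d' l' k ≤ C * gr d l k) := by
  rcases lt_trichotomy l l' with h | h | h
  · exact Or.inl (gr_le_of_lt hl h _ _)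
  · subst h
    rcases le_total d d' with h | h
    · exact Or.inl ⟨1, one_pos, fun k => by rw [one_mul]; exact gr_le_of_le hl h k⟩
    · exact Or.inr ⟨1, one_pos, fun k => by rw [one_mul]; exact gr_le_of_le hl h k⟩
  · exact Or.inr (gr_le_of_lt hl' h _ _)

lemma IsGr.add {f g : ℕ → ℝ} (hf : IsGr f) (hg : IsGr g) : IsGr (fun k => f k + g k) := by
  obtain ⟨d, l, hl, c, C, hc, hC, h⟩ := hf
  obtain ⟨d', l', hl', c', C', hc', hC', h'⟩ := hg
  rcases gr_total hl hl' d d' with ⟨D, hD, hh⟩ | ⟨D, hD, hh⟩
  · refine ⟨d', l', hl', c', C * D + C', hc', by positivity, fun k => ⟨?_, ?_⟩⟩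
    · have := (h k).1
      have := (h' k).1
      have := mul_pos hc (gr_pos hl d k)
      linarith
    · have h1 := (h k).2
      have h2 := (h' k).2
      have h3 := hh k
      nlinarith
  · refine ⟨d, l, hl, c, C + C' * D, hc, by positivity, fun k => ⟨?_, ?_⟩⟩
    · have := (h k).1
      have := (h' k).1
      have := mul_pos hc' (gr_pos hl' d' k)
      linarith
    · have h1 := (h k).2
      have h2 := (h' k).2
      have h3 := hh k
      nlinarith

lemma IsGr.const_mul {f : ℕ → ℝ} (hf : IsGr f) {a : ℝ} (ha : 0 < a) :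
    IsGr (fun k => a * f k) := by
  obtain ⟨d, l, hl, c, C, hc, hC, h⟩ := hf
  refine ⟨d, l, hl, a * c, a * C, by positivity, by positivity, fun k => ⟨?_, ?_⟩⟩
  · rw [mul_assoc]; exact mul_le_mul_of_nonneg_left (h k).1 ha.le
  · rw [mul_assoc]; exact mul_le_mul_of_nonneg_left (h k).2 ha.le

lemma IsGr.sum {ι : Type*} (s : Finset ι) (hs : s.Nonempty) (f : ι → ℕ → ℝ)
    (h : ∀ i ∈ s, IsGr (f i)) : IsGr (fun k => ∑ i ∈ s, f i k) := by
  classical
  induction hs using Finset.Nonempty.cons_induction with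
  | singleton a => simpa using h a (by simp)
  | cons a s ha hs ih =>
    simp only [Finset.sum_cons]
    exact (h a (by simp)).add (ih (fun i hi => h i (by simp [hi])))

/-- the function `X` determined by `X (k+1) = r X k + e k`. -/
lemma IsGr.rec {X e : ℕ → ℝ} {r : ℝ} (hr : 0 ≤ r) (hX0 : 0 < X 0)
    (hX : ∀ k, X (k + 1) = r * X k + e k) (he : IsGr e) : IsGr X := by
  obtain ⟨d, l, hl, c, C, hc, hC, h⟩ := he
  have hepos : ∀ k, 0 < e k := fun k => lt_of_lt_of_le (mul_pos hc (gr_pos hl d k)) (h k).1
  have hXpos : ∀ k, 0 < X k := by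
    intro k
    induction k with
    | zero => exact hX0
    | succ k ih => rw [hX]; have := hepos k; have := mul_nonneg hr ih.le; linarith
  rcases lt_trichotomy r l with hrl | hrl | hrl
  · -- type (d,l)
    refine ⟨d, l, hl, min (X 0) (c / (2 ^ d * l)), X 0 + C / (l - r), ?_, ?_, fun k => ⟨?_, ?_⟩⟩
    · have : 0 < c / (2 ^ d * l) := by positivity
      exact lt_min hX0 this
    · have : 0 < l - r := by linarith
      positivity
    · cases k with
      | zero => rw [gr_zero, mul_one]; exact min_le_left _ _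
      | succ k =>
        rw [hX]
        have h1 := (h k).1
        have h2 := mul_nonneg hr (hXpos k).le
        have h3 : gr d l (k + 1) ≤ (2 ^ d * l) * gr d l k := by
          unfold gr
          push_cast
          have : ((k : ℝ) + 1 + 1) ^ d ≤ 2 ^ d * ((k : ℝ) + 1) ^ d := by
            rw [← mul_pow]
            have : (0 : ℝ) ≤ k := Nat.cast_nonneg k
            gcongr
            linarith
          calc ((k : ℝ) + 1 + 1) ^ d * l ^ (k + 1)
              ≤ (2 ^ d * ((k : ℝ) + 1) ^ d) * l ^ (k + 1) := by gcongr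
            _ = _ := by rw [pow_succ]; ring
        calc min (X 0) (c / (2 ^ d * l)) * gr d l (k + 1)
            ≤ (c / (2 ^ d * l)) * ((2 ^ d * l) * gr d l k) := by
              have := gr_pos hl d (k + 1)
              have := gr_pos hl d k
              gcongr
              exact min_le_right _ _
          _ = c * gr d l k := by field_simp
          _ ≤ r * X k + e k := by linarith
    · have hlr : 0 < l - r := by linarith
      have hCC : C = (C / (l - r)) * (l - r) := by field_simp
      induction k with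
      | zero =>
        rw [gr_zero, mul_one]
        have : 0 < C / (l - r) := by positivity
        linarith
      | succ k ih =>
        rw [hX]
        have h1 := (h k).2
        have hg := gr_pos hl d k
        have h3 : l * gr d l k ≤ gr d l (k + 1) := by
          unfold gr
          push_cast
          have : ((k : ℝ) + 1) ^ d ≤ ((k : ℝ) + 1 + 1) ^ d := by gcongr; linarith
          calc l * (((k : ℝ) + 1) ^ d * l ^ k) = ((k : ℝ) + 1) ^ d * l ^ (k + 1) := by
                rw [pow_succ]; ring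
            _ ≤ _ := by gcongr
        set D := C / (l - r) with hD
        have hDpos : 0 < D := by positivity
        calc r * X k + e k ≤ r * ((X 0 + D) * gr d l k) + C * gr d l k := by gcongr
          _ = (r * (X 0 + D) + D * (l - r)) * gr d l k := by rw [← hCC]; ring
          _ ≤ ((X 0 + D) * l) * gr d l k := by
              gcongr
              nlinarith
          _ = (X 0 + D) * (l * gr d l k) := by ring
          _ ≤ (X 0 + D) * gr d l (k + 1) := by gcongr
  · -- type (d+1,l)
    subst hrl
    refine ⟨d + 1, r, hl, min (X 0) (c / (r * ((d + 1) * 2 ^ d))), max (X 0) (C / r), ?_, ?_,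
      fun k => ⟨?_, ?_⟩⟩
    · exact lt_min hX0 (by positivity)
    · exact lt_max_of_lt_left hX0
    · set m := min (X 0) (c / (r * ((d + 1) * 2 ^ d))) with hm
      have hmpos : 0 < m := lt_min hX0 (by positivity)
      have hm2 : m * (r * ((d + 1) * 2 ^ d)) ≤ c := by
        have : m ≤ c / (r * ((d + 1) * 2 ^ d)) := min_le_right _ _
        rwa [le_div_iff₀ (by positivity)] at this
      induction k with
      | zero => rw [gr_zero, mul_one]; exact min_le_left _ _
      | succ k ih =>
        rw [hX]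
        have h1 := (h k).1
        have hb : ((k : ℝ) + 1 + 1) ^ (d + 1) - ((k : ℝ) + 1) ^ (d + 1)
            ≤ (d + 1) * 2 ^ d * ((k : ℝ) + 1) ^ d := by
          have hk : (0 : ℝ) ≤ k := Nat.cast_nonneg k
          have h4 : ((k : ℝ) + 1 + 1) ^ (d + 1) - ((k : ℝ) + 1) ^ (d + 1)
              = (((k : ℝ) + 1 + 1) - ((k : ℝ) + 1)) *
                ∑ i ∈ range (d + 1), ((k : ℝ) + 1 + 1) ^ i * ((k : ℝ) + 1) ^ (d - i) := by
            have := (Commute.all ((k : ℝ) + 1 + 1) ((k : ℝ) + 1)).mul_geom_sum₂ (d + 1)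
            rw [← this]
            simp
          rw [h4]
          have h5 : ∀ i ∈ range (d + 1), ((k : ℝ) + 1 + 1) ^ i * ((k : ℝ) + 1) ^ (d - i)
              ≤ 2 ^ d * ((k : ℝ) + 1) ^ d := by
            intro i hi
            have hi' : i ≤ d := by simp at hi; omega
            calc ((k : ℝ) + 1 + 1) ^ i * ((k : ℝ) + 1) ^ (d - i)
                ≤ (2 * ((k : ℝ) + 1)) ^ i * ((k : ℝ) + 1) ^ (d - i) := by
                  gcongr
                  linarith
              _ = 2 ^ i * (((k : ℝ) + 1) ^ i * ((k : ℝ) + 1) ^ (d - i)) := by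
                  rw [mul_pow]; ring
              _ = 2 ^ i * ((k : ℝ) + 1) ^ d := by rw [← pow_add]; congr 2; omega
              _ ≤ 2 ^ d * ((k : ℝ) + 1) ^ d := by
                  gcongr
                  norm_num
          calc (((k : ℝ) + 1 + 1) - ((k : ℝ) + 1)) *
                ∑ i ∈ range (d + 1), ((k : ℝ) + 1 + 1) ^ i * ((k : ℝ) + 1) ^ (d - i)
              ≤ (((k : ℝ) + 1 + 1) - ((k : ℝ) + 1)) *
                ∑ i ∈ range (d + 1), 2 ^ d * ((k : ℝ) + 1) ^ d := by
                  have : (0 : ℝ) ≤ ((k : ℝ) + 1 + 1) - ((k : ℝ) + 1) := by linarith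
                  exact mul_le_mul_of_nonneg_left (Finset.sum_le_sum h5) this
            _ = _ := by simp; ring
        have hrk : 0 < r ^ k := by positivity
        have h6 : gr (d + 1) r (k + 1) = r * gr (d + 1) r k +
            (((k : ℝ) + 1 + 1) ^ (d + 1) - ((k : ℝ) + 1) ^ (d + 1)) * (r * r ^ k) := by
          unfold gr; push_cast; rw [pow_succ r k]; ring
        rw [h6, mul_add]
        have h7 : m * ((((k : ℝ) + 1 + 1) ^ (d + 1) - ((k : ℝ) + 1) ^ (d + 1)) * (r * r ^ k))
            ≤ e k := by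
          calc m * ((((k : ℝ) + 1 + 1) ^ (d + 1) - ((k : ℝ) + 1) ^ (d + 1)) * (r * r ^ k))
              ≤ m * (((d + 1) * 2 ^ d * ((k : ℝ) + 1) ^ d) * (r * r ^ k)) := by gcongr
            _ = (m * (r * ((d + 1) * 2 ^ d))) * (((k : ℝ) + 1) ^ d * r ^ k) := by ring
            _ ≤ c * (((k : ℝ) + 1) ^ d * r ^ k) := by gcongr
            _ = c * gr d r k := rfl
            _ ≤ e k := h1
        have h8 : m * (r * gr (d + 1) r k) ≤ r * X k := by
          calc m * (r * gr (d + 1) r k) = r * (m * gr (d + 1) r k) := by ring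
            _ ≤ r * X k := by gcongr
        linarith
    · set m := max (X 0) (C / r) with hm
      have hmpos : 0 < m := lt_max_of_lt_left hX0
      have hm2 : C ≤ m * r := by
        have : C / r ≤ m := le_max_right _ _
        rwa [div_le_iff₀ (by positivity)] at this
      induction k with
      | zero => rw [gr_zero, mul_one]; exact le_max_left _ _
      | succ k ih =>
        rw [hX]
        have h1 := (h k).2
        have hk : (0 : ℝ) ≤ k := Nat.cast_nonneg k
        have hb : ((k : ℝ) + 1) ^ (d + 1) + ((k : ℝ) + 1) ^ d ≤ ((k : ℝ) + 1 + 1) ^ (d + 1) := by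
          have : ((k : ℝ) + 1) ^ d ≤ ((k : ℝ) + 1 + 1) ^ d := by gcongr; linarith
          calc ((k : ℝ) + 1) ^ (d + 1) + ((k : ℝ) + 1) ^ d
              = ((k : ℝ) + 1 + 1) * ((k : ℝ) + 1) ^ d := by rw [pow_succ]; ring
            _ ≤ ((k : ℝ) + 1 + 1) * ((k : ℝ) + 1 + 1) ^ d := by gcongr
            _ = _ := by rw [pow_succ]; ring
        have hrk : 0 < r ^ k := by positivity
        calc r * X k + e k ≤ r * (m * gr (d + 1) r k) + C * gr d r k := by gcongr
          _ ≤ r * (m * gr (d + 1) r k) + (m * r) * gr d r k := by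
              have := gr_pos hl d k
              gcongr
          _ = m * ((((k : ℝ) + 1) ^ (d + 1) + ((k : ℝ) + 1) ^ d) * r ^ (k + 1)) := by
              unfold gr; rw [pow_succ r k]; ring
          _ ≤ m * ((((k : ℝ) + 1 + 1) ^ (d + 1)) * r ^ (k + 1)) := by gcongr
          _ = m * gr (d + 1) r (k + 1) := by unfold gr; push_cast; ring
  · -- type (0,r)
    have hr1 : 1 ≤ r := by linarith
    set μ := (l + r) / 2 with hμ
    have hlμ : l < μ := by rw [hμ]; linarith
    have hμr : μ < r := by rw [hμ]; linarith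
    obtain ⟨D, hD, hDD⟩ := gr_le_of_lt hl hlμ d 0
    have he' : ∀ k, e k ≤ (C * D) * μ ^ k := by
      intro k
      have h1 := (h k).2
      have h2 := hDD k
      have h3 : gr 0 μ k = μ ^ k := by simp [gr]
      rw [h3] at h2
      calc e k ≤ C * gr d l k := h1
        _ ≤ C * (D * μ ^ k) := by gcongr
        _ = _ := by ring
    set B := (C * D) / (r - μ) with hB
    have hBpos : 0 < B := by
      have : 0 < r - μ := by linarith
      positivity
    have hB2 : B * (r - μ) = C * D := by
      have : r - μ ≠ 0 := by linarith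
      rw [hB]; field_simp
    refine ⟨0, r, hr1, X 0, X 0 + B, hX0, by positivity, fun k => ⟨?_, ?_⟩⟩
    · have h3 : gr 0 r k = r ^ k := by simp [gr]
      rw [h3]
      induction k with
      | zero => simp
      | succ k ih =>
        rw [hX, pow_succ]
        have := ih (by simp [gr])
        have h4 := hepos k
        nlinarith
    · have h3 : gr 0 r k = r ^ k := by simp [gr]
      rw [h3]
      have key : X k ≤ (X 0 + B) * r ^ k - B * μ ^ k := by
        clear h3
        induction k with
        | zero => simp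
        | succ k ih =>
          rw [hX]
          have h4 := he' k
          calc r * X k + e k ≤ r * ((X 0 + B) * r ^ k - B * μ ^ k) + (C * D) * μ ^ k := by
                gcongr
            _ = r * ((X 0 + B) * r ^ k - B * μ ^ k) + (B * (r - μ)) * μ ^ k := by rw [hB2]
            _ = (X 0 + B) * r ^ (k + 1) - B * μ ^ (k + 1) := by
                rw [pow_succ, pow_succ]; ring
      have : 0 < B * μ ^ k := by
        have : 0 < μ := by linarith
        positivity
      linarith


/-! ### A positive left eigenvector of an irreducible nonnegative matrix -/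

/-- Perron-Frobenius (left eigenvector), via maximising the Collatz-Wielandt number. -/
theorem exists_perron {S : Type*} [Fintype S] [DecidableEq S] [Nonempty S]
    (M : Matrix S S ℝ) (hM : ∀ s t, 0 ≤ M s t) (hirr : ∀ s t, ∃ n : ℕ, 0 < (M ^ n) s t) :
    ∃ (x : S → ℝ) (r : ℝ), (∀ s, 0 < x s) ∧ 0 ≤ r ∧ ∀ t, ∑ s, x s * M s t = r * x t := by
  classical
  -- powers are nonnegative
  have hMn : ∀ n s t, 0 ≤ (M ^ n) s t := by
    intro n
    induction n with
    | zero => intro s t; rw [pow_zero, Matrix.one_apply]; split_ifs <;> norm_num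
    | succ n ih =>
      intro s t
      rw [pow_succ, Matrix.mul_apply]
      exact Finset.sum_nonneg (fun i _ => mul_nonneg (ih _ _) (hM _ _))
  choose nf hnf using hirr
  set L := ∑ s, ∑ t, nf s t with hL
  have hnfL : ∀ s t, nf s t ≤ L := fun s t =>
    (Finset.single_le_sum (f := fun t => nf s t) (fun _ _ => Nat.zero_le _) (mem_univ t)).trans
    (Finset.single_le_sum (f := fun s => ∑ t, nf s t) (fun _ _ => Nat.zero_le _) (mem_univ s))
  set Q : Matrix S S ℝ := ∑ n ∈ range (L + 1), M ^ n with hQ
  have hQpos : ∀ s t, 0 < Q s t := by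
    intro s t
    rw [hQ, Matrix.sum_apply]
    exact Finset.sum_pos' (fun n _ => hMn n s t)
      ⟨nf s t, by simpa [Nat.lt_succ_iff] using hnfL s t, hnf s t⟩
  have hQM : Q * M = M * Q := by
    rw [hQ, Finset.sum_mul, Finset.mul_sum]
    refine Finset.sum_congr rfl (fun n _ => ?_)
    rw [← pow_succ, ← pow_succ']
  set R : ℝ := ∑ s, ∑ t, M s t with hR
  have hR0 : 0 ≤ R := Finset.sum_nonneg (fun s _ => Finset.sum_nonneg (fun t _ => hM s t))
  -- the feasible set
  set K : Set ((S → ℝ) × ℝ) := {p | p.1 ∈ stdSimplex ℝ S ∧ p.2 ∈ Set.Icc 0 R ∧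
    ∀ t, p.2 * p.1 t ≤ ∑ s, p.1 s * M s t} with hK
  have hfeas : ∀ x : S → ℝ, x ∈ stdSimplex ℝ S → ∀ r : ℝ, 0 ≤ r →
      (∀ t, r * x t ≤ ∑ s, x s * M s t) → r ≤ R := by
    intro x hx r hr h
    have hx1 : ∀ s, x s ≤ 1 := fun s => by
      have := Finset.single_le_sum (f := x) (fun i _ => hx.1 i) (mem_univ s)
      rw [hx.2] at this; exact this
    calc r = r * ∑ t, x t := by rw [hx.2, mul_one]
      _ = ∑ t, r * x t := by rw [Finset.mul_sum]
      _ ≤ ∑ t, ∑ s, x s * M s t := Finset.sum_le_sum (fun t _ => h t)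
      _ = ∑ s, ∑ t, x s * M s t := Finset.sum_comm
      _ ≤ ∑ s, ∑ t, M s t := by
          refine Finset.sum_le_sum (fun s _ => Finset.sum_le_sum (fun t _ => ?_))
          have := mul_le_mul_of_nonneg_right (hx1 s) (hM s t)
          simpa using this
  have hKc : IsCompact K := by
    have h1 : IsCompact ((stdSimplex ℝ S) ×ˢ (Set.Icc (0:ℝ) R)) :=
      (isCompact_stdSimplex ℝ S).prod isCompact_Icc
    have h2 : IsClosed {p : (S → ℝ) × ℝ | ∀ t, p.2 * p.1 t ≤ ∑ s, p.1 s * M s t} := by
      rw [Set.ofPred_forall]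
      refine isClosed_iInter (fun t => isClosed_le (by fun_prop) (by fun_prop))
    have h3 : K = ((stdSimplex ℝ S) ×ˢ (Set.Icc (0:ℝ) R)) ∩
        {p : (S → ℝ) × ℝ | ∀ t, p.2 * p.1 t ≤ ∑ s, p.1 s * M s t} := by
      ext p; simp only [hK, Set.mem_ofPred_eq, Set.mem_inter_iff, Set.mem_prod]; tauto
    rw [h3]
    exact h1.inter_right h2
  have hKne : K.Nonempty := by
    obtain ⟨s0⟩ := (inferInstance : Nonempty S)
    refine ⟨(Pi.single s0 1, 0), ?_, ⟨le_rfl, hR0⟩, fun t => ?_⟩
    · exact single_mem_stdSimplex ℝ s0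
    · simp only [zero_mul]
      refine Finset.sum_nonneg (fun s _ => mul_nonneg ?_ (hM _ _))
      by_cases h : s = s0
      · subst h; simp
      · simp [h]
  obtain ⟨⟨x, r⟩, hxr, hmax⟩ := hKc.exists_isMaxOn hKne (f := Prod.snd) continuous_snd.continuousOn
  obtain ⟨hx, hr, hle⟩ := hxr
  simp only at hx hr hle
  -- x Q > 0
  have hxQ : ∀ t, 0 < (x ᵥ* Q) t := by
    intro t
    have hex : ∃ s, 0 < x s := by
      by_contra hcon
      push Not at hcon
      have : ∑ s, x s ≤ 0 := Finset.sum_nonpos (fun s _ => hcon s)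
      rw [hx.2] at this
      norm_num at this
    obtain ⟨s, hs⟩ := hex
    exact Finset.sum_pos' (fun i _ => mul_nonneg (hx.1 i) (hQpos i t).le)
      ⟨s, mem_univ s, mul_pos hs (hQpos s t)⟩
  have heq : ∀ t, ∑ s, x s * M s t = r * x t := by
    by_contra hcon
    push Not at hcon
    obtain ⟨t0, ht0⟩ := hcon
    set y : S → ℝ := x ᵥ* M - r • x with hy
    have hy0 : ∀ t, 0 ≤ y t := by
      intro t
      have := hle t
      simp only [hy, Pi.sub_apply, Pi.smul_apply, smul_eq_mul, Matrix.vecMul, dotProduct]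
      linarith
    have hyt0 : 0 < y t0 := by
      refine lt_of_le_of_ne (hy0 t0) (fun h => ht0 ?_)
      simp only [hy, Pi.sub_apply, Pi.smul_apply, smul_eq_mul, Matrix.vecMul, dotProduct] at h
      linarith
    have hyQ : ∀ t, 0 < (y ᵥ* Q) t := fun t =>
      Finset.sum_pos' (fun i _ => mul_nonneg (hy0 i) (hQpos i t).le)
        ⟨t0, mem_univ t0, mul_pos hyt0 (hQpos t0 t)⟩
    set z : S → ℝ := x ᵥ* Q with hz
    have hzM : ∀ t, (z ᵥ* M) t = r * z t + (y ᵥ* Q) t := by
      intro t
      have : z ᵥ* M = r • z + y ᵥ* Q := by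
        rw [hz, Matrix.vecMul_vecMul, hQM, ← Matrix.vecMul_vecMul, hy, Matrix.sub_vecMul,
          Matrix.smul_vecMul]
        abel
      rw [this]; simp
    -- choose ε
    obtain ⟨t1, -, ht1⟩ := Finset.exists_min_image (univ : Finset S)
      (fun t => (y ᵥ* Q) t / z t) univ_nonempty
    set ε := (y ᵥ* Q) t1 / z t1 with hε
    have hεpos : 0 < ε := div_pos (hyQ t1) (hxQ t1)
    have hεle : ∀ t, ε * z t ≤ (y ᵥ* Q) t := fun t => by
      have := ht1 t (mem_univ t)
      rwa [le_div_iff₀ (hxQ t)] at this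
    set Z := ∑ s, z s with hZ
    have hZpos : 0 < Z := Finset.sum_pos (fun i _ => hxQ i) univ_nonempty
    set w : S → ℝ := fun s => z s / Z with hw
    have hwS : w ∈ stdSimplex ℝ S := by
      refine ⟨fun s => (div_pos (hxQ s) hZpos).le, ?_⟩
      rw [hw, ← Finset.sum_div, ← hZ, div_self hZpos.ne']
    have hwle : ∀ t, (r + ε) * w t ≤ ∑ s, w s * M s t := by
      intro t
      have h1 : ∑ s, w s * M s t = (z ᵥ* M) t / Z := by
        rw [Matrix.vecMul, dotProduct, Finset.sum_div]
        exact Finset.sum_congr rfl (fun s _ => by rw [hw]; ring)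
      rw [h1, hzM, le_div_iff₀ hZpos, hw]
      have : (r + ε) * (z t / Z) * Z = (r + ε) * z t := by field_simp
      rw [this]
      have := hεle t
      linarith
    have hmem : (w, r + ε) ∈ K :=
      ⟨hwS, ⟨by have := hr.1; linarith, hfeas w hwS _ (by have := hr.1; linarith) hwle⟩, hwle⟩
    have := hmax hmem
    simp only [Set.mem_ofPred_eq] at this
    linarith
  refine ⟨x, r, fun t => ?_, hr.1, heq⟩
  -- positivity
  have hpow : ∀ n, x ᵥ* (M ^ n) = r ^ n • x := by
    intro n
    induction n with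
    | zero => simp
    | succ n ih =>
      have h1 : x ᵥ* M = r • x := by
        ext t
        simp only [Matrix.vecMul, dotProduct, Pi.smul_apply, smul_eq_mul]
        exact heq t
      rw [pow_succ, ← Matrix.vecMul_vecMul, ih, Matrix.smul_vecMul, h1, smul_smul, pow_succ]
  have h2 : (x ᵥ* Q) t = (∑ n ∈ range (L + 1), r ^ n) * x t := by
    have : x ᵥ* Q = ∑ n ∈ range (L + 1), x ᵥ* (M ^ n) := by
      rw [hQ]
      ext t
      simp only [Matrix.vecMul, dotProduct, Finset.sum_apply, Matrix.sum_apply, Finset.mul_sum]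
      rw [Finset.sum_comm]
    rw [this, Finset.sum_apply, Finset.sum_mul]
    refine Finset.sum_congr rfl (fun n _ => ?_)
    rw [hpow]; simp
  have h3 := hxQ t
  rw [h2] at h3
  have h4 : 0 ≤ x t := hx.1 t
  rcases h4.eq_or_lt with h5 | h5
  · rw [← h5] at h3; simp at h3
  · exact h5


/-! ### Growth of letters -/

/-- `cnt σ k a` is the length of the `k`-th iterated image of the letter `a`. -/
def cnt {A : Type*} (σ : A → List A) : ℕ → A → ℝ
  | 0, _ => 1
  | (k + 1), a => ((σ a).map (cnt σ k)).sum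

section

variable {A : Type*} (σ : A → List A)

lemma cnt_succ (k : ℕ) (a : A) : cnt σ (k + 1) a = ((σ a).map (cnt σ k)).sum := rfl

lemma cnt_nonneg (k : ℕ) (a : A) : 0 ≤ cnt σ k a := by
  induction k generalizing a with
  | zero => simp [cnt]
  | succ k ih =>
    rw [cnt_succ]
    exact List.sum_nonneg (by simpa using fun b _ => ih b)

lemma cnt_le_succ_of_mem (k : ℕ) {a b : A} (h : b ∈ σ a) : cnt σ k b ≤ cnt σ (k + 1) a := by
  rw [cnt_succ]
  exact List.single_le_sum (by simpa using fun b _ => cnt_nonneg σ k b) _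
    (List.mem_map_of_mem h)

lemma one_le_cnt (hσ : ∀ a, σ a ≠ []) (k : ℕ) (a : A) : 1 ≤ cnt σ k a := by
  induction k generalizing a with
  | zero => simp [cnt]
  | succ k ih =>
    obtain ⟨b, hb⟩ := List.exists_mem_of_ne_nil _ (hσ a)
    exact (ih b).trans (cnt_le_succ_of_mem σ k hb)

lemma cnt_le_mul [Fintype A] (k : ℕ) (a : A) :
    cnt σ (k + 1) a ≤ (∑ b, ((σ b).length : ℝ)) * cnt σ k a := by
  induction k generalizing a with
  | zero =>
    have : ((σ a).length : ℝ) ≤ ∑ b, ((σ b).length : ℝ) :=
      Finset.single_le_sum (f := fun b => ((σ b).length : ℝ)) (fun _ _ => by positivity) (mem_univ a)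
    have h1 : (List.map (cnt σ 0) (σ a)).sum = ((σ a).length : ℝ) := by
      have : (List.map (cnt σ 0) (σ a)) = List.replicate (σ a).length 1 := by
        rw [List.eq_replicate_iff]; simp [cnt]
      rw [this]; simp
    rw [cnt_succ, h1]
    simpa [cnt] using this
  | succ k ih =>
    rw [cnt_succ σ (k+1), cnt_succ σ k]
    generalize σ a = w
    induction w with
    | nil => simp
    | cons b w ihw =>
      simp only [List.map_cons, List.sum_cons, mul_add]
      exact add_le_add (ih b) ihw

/-- reachability -/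
abbrev Reach (a b : A) : Prop := Relation.ReflTransGen (fun a b => b ∈ σ a) a b

lemma cnt_le_of_reach [Fintype A] {a b : A} (h : Reach σ a b) :
    ∃ C : ℝ, 0 < C ∧ ∀ k, cnt σ k b ≤ C * cnt σ k a := by
  classical
  have hK : (0:ℝ) ≤ ∑ b, ((σ b).length : ℝ) := Finset.sum_nonneg (fun _ _ => by positivity)
  induction h with
  | refl => exact ⟨1, one_pos, fun k => by rw [one_mul]⟩
  | @tail b c _ hbc ih =>
    obtain ⟨C, hC, h⟩ := ih
    refine ⟨((∑ b, ((σ b).length : ℝ)) + 1) * C, by positivity, fun k => ?_⟩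
    calc cnt σ k c ≤ cnt σ (k + 1) b := cnt_le_succ_of_mem σ k hbc
      _ ≤ (∑ b, ((σ b).length : ℝ)) * cnt σ k b := cnt_le_mul σ k b
      _ ≤ ((∑ b, ((σ b).length : ℝ)) + 1) * cnt σ k b := by
          have := cnt_nonneg σ k b
          gcongr; linarith
      _ ≤ ((∑ b, ((σ b).length : ℝ)) + 1) * (C * cnt σ k a) := by gcongr; exact h k
      _ = _ := by ring

lemma list_sum_eq_count [Fintype A] [DecidableEq A] (w : List A) (f : A → ℝ) :
    (w.map f).sum = ∑ b, (w.count b : ℝ) * f b := by
  induction w with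
  | nil => simp
  | cons a w ih =>
    simp only [List.map_cons, List.sum_cons, ih, List.count_cons, Nat.cast_add, add_mul,
      Finset.sum_add_distrib]
    rw [add_comm]
    congr 1
    simp

theorem isGr_cnt [Fintype A] (hσ : ∀ a, σ a ≠ []) (a : A) : IsGr (fun k => cnt σ k a) := by
  classical
  -- strong induction on the number of letters reachable from `a`
  generalize hn : (univ.filter (fun b => Reach σ a b)).card = n
  induction n using Nat.strong_induction_on generalizing a with
  | _ n IH =>
  set S : Type _ := {b : A // Reach σ a b ∧ Reach σ b a} with hS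
  have hmemS : ∀ b : A, b ∉ {b : A | Reach σ a b ∧ Reach σ b a} → Reach σ a b →
      IsGr (fun k => cnt σ k b) := by
    intro b hb hab
    refine IH _ ?_ b rfl
    rw [← hn]
    refine Finset.card_lt_card ⟨?_, ?_⟩
    · intro c hc
      simp only [mem_filter, mem_univ, true_and] at hc ⊢
      exact hab.trans hc
    · intro hsub
      have : a ∈ univ.filter (fun c => Reach σ b c) := hsub (by
        simp only [mem_filter, mem_univ, true_and]; exact Relation.ReflTransGen.refl)
      simp only [mem_filter, mem_univ, true_and] at this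
      exact hb ⟨hab, this⟩
  have : Nonempty S := ⟨⟨a, Relation.ReflTransGen.refl, Relation.ReflTransGen.refl⟩⟩
  set M : Matrix S S ℝ := fun s t => ((σ s.1).count t.1 : ℝ) with hM
  have hM0 : ∀ s t, 0 ≤ M s t := fun s t => by rw [hM]; positivity
  have hMn : ∀ n s t, 0 ≤ (M ^ n) s t := by
    intro n
    induction n with
    | zero => intro s t; rw [pow_zero, Matrix.one_apply]; split_ifs <;> norm_num
    | succ n ih =>
      intro s t
      rw [pow_succ, Matrix.mul_apply]
      exact Finset.sum_nonneg (fun i _ => mul_nonneg (ih _ _) (hM0 _ _))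
  have hirr : ∀ s t : S, ∃ n : ℕ, 0 < (M ^ n) s t := by
    intro s t
    have hst : Reach σ s.1 t.1 := s.2.2.trans t.2.1
    have key : ∀ (c : A), Reach σ c t.1 → ∀ (hc : Reach σ a c ∧ Reach σ c a),
        ∃ n : ℕ, 0 < (M ^ n) ⟨c, hc⟩ t := by
      intro c hct
      induction hct using Relation.ReflTransGen.head_induction_on with
      | refl => intro hc; exact ⟨0, by simp⟩
      | @head c u hcu hut ih =>
        intro hc
        have hu : Reach σ a u ∧ Reach σ u a :=
          ⟨hc.1.trans (Relation.ReflTransGen.single hcu), Relation.ReflTransGen.trans hut t.2.2⟩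
        obtain ⟨n, hn⟩ := ih hu
        refine ⟨n + 1, ?_⟩
        rw [pow_succ', Matrix.mul_apply]
        refine Finset.sum_pos' (fun i _ => mul_nonneg (hM0 _ _) (hMn _ _ _))
          ⟨⟨u, hu⟩, mem_univ _, mul_pos ?_ hn⟩
        show (0:ℝ) < ((σ c).count u : ℝ)
        exact_mod_cast List.count_pos_iff.mpr hcu
    exact key s.1 hst s.2
  obtain ⟨x, r, hx, hr, hxr⟩ := exists_perron M hM0 hirr
  set X : ℕ → ℝ := fun k => ∑ s : S, x s * cnt σ k s.1 with hX
  set e : ℕ → ℝ := fun k => ∑ s : S, x s *
    ∑ b ∈ univ.filter (fun b : A => ¬ (Reach σ a b ∧ Reach σ b a)),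
      ((σ s.1).count b : ℝ) * cnt σ k b with he
  have hrec : ∀ k, X (k + 1) = r * X k + e k := by
    intro k
    have h1 : ∀ s : S, cnt σ (k + 1) s.1 = ∑ t : S, M s t * cnt σ k t.1 +
        ∑ b ∈ univ.filter (fun b : A => ¬ (Reach σ a b ∧ Reach σ b a)),
          ((σ s.1).count b : ℝ) * cnt σ k b := by
      intro s
      rw [cnt_succ, list_sum_eq_count,
        ← Finset.sum_filter_add_sum_filter_not univ (fun b : A => Reach σ a b ∧ Reach σ b a)]
      congr 1
      rw [hM]
      exact (Finset.sum_subtype _ (by simp) _)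
    calc X (k + 1) = ∑ s : S, x s * (∑ t : S, M s t * cnt σ k t.1 +
        ∑ b ∈ univ.filter (fun b : A => ¬ (Reach σ a b ∧ Reach σ b a)),
          ((σ s.1).count b : ℝ) * cnt σ k b) := Finset.sum_congr rfl (fun s _ => by rw [h1])
      _ = ∑ s : S, x s * ∑ t : S, M s t * cnt σ k t.1 + e k := by
          simp only [mul_add, Finset.sum_add_distrib, he]
      _ = r * X k + e k := by
          congr 1
          simp only [hX, Finset.mul_sum]
          rw [Finset.sum_comm]
          refine Finset.sum_congr rfl (fun t _ => ?_)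
          have := hxr t
          calc ∑ s : S, x s * (M s t * cnt σ k t.1) = (∑ s, x s * M s t) * cnt σ k t.1 := by
                rw [Finset.sum_mul]; exact Finset.sum_congr rfl (fun s _ => by ring)
            _ = _ := by rw [this]; ring
  have hX0 : 0 < X 0 := by
    refine Finset.sum_pos (fun s _ => ?_) univ_nonempty
    have := one_le_cnt σ hσ 0 s.1
    exact mul_pos (hx s) (by linarith)
  have hXgr : IsGr X := by
    set P : Finset (S × A) := univ.filter (fun p : S × A =>
      ¬ (Reach σ a p.2 ∧ Reach σ p.2 a) ∧ p.2 ∈ σ p.1.1) with hP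
    have heP : ∀ k, e k = ∑ p ∈ P, (x p.1 * ((σ p.1.1).count p.2 : ℝ)) * cnt σ k p.2 := by
      intro k
      rw [he, hP]
      simp only [Finset.mul_sum]
      rw [Finset.sum_filter, ← Finset.univ_product_univ, Finset.sum_product]
      refine Finset.sum_congr rfl (fun s _ => ?_)
      rw [Finset.sum_filter]
      refine Finset.sum_congr rfl (fun b _ => ?_)
      by_cases h1 : (Reach σ a b ∧ Reach σ b a)
      · simp [h1]
      · by_cases h2 : b ∈ σ s.1
        · simp only [h1, h2, not_false_eq_true, true_and, if_true]; ring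
        · have : (σ s.1).count b = 0 := List.count_eq_zero.mpr h2
          simp [this]
    by_cases hPe : P.Nonempty
    · refine IsGr.rec hr hX0 hrec ?_
      have : e = fun k => ∑ p ∈ P, (x p.1 * ((σ p.1.1).count p.2 : ℝ)) * cnt σ k p.2 :=
        funext heP
      rw [this]
      refine IsGr.sum P hPe _ (fun p hp => ?_)
      rw [hP, mem_filter] at hp
      refine IsGr.const_mul (hmemS p.2 (by simpa using hp.2.1) ?_) ?_
      · exact p.1.2.1.trans (Relation.ReflTransGen.single hp.2.2)
      · have : 0 < (σ p.1.1).count p.2 := List.count_pos_iff.mpr hp.2.2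
        have h3 := hx p.1
        positivity
    · have he0 : ∀ k, e k = 0 := by
        intro k
        rw [heP, Finset.not_nonempty_iff_eq_empty.mp hPe, Finset.sum_empty]
      have hXk : ∀ k, X k = r ^ k * X 0 := by
        intro k
        induction k with
        | zero => simp
        | succ k ih => rw [hrec, he0, ih, pow_succ]; ring
      have hr1 : 1 ≤ r := by
        have h1 : X 0 ≤ X 1 := by
          refine Finset.sum_le_sum (fun s _ => ?_)
          have h2 := one_le_cnt σ hσ 1 s.1
          have h3 : cnt σ 0 s.1 = 1 := rfl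
          rw [h3]
          exact mul_le_mul_of_nonneg_left h2 (hx s).le
        have h2 := hXk 1
        rw [pow_one] at h2
        rw [h2] at h1
        by_contra hcon
        push Not at hcon
        nlinarith
      refine ⟨0, r, hr1, X 0, X 0, hX0, hX0, fun k => ?_⟩
      rw [hXk k]
      have : gr 0 r k = r ^ k := by simp [gr]
      rw [this]
      constructor <;> linarith [mul_comm (X 0) (r ^ k)]
  -- compare
  have hcomp : ∀ s : S, ∃ C : ℝ, 0 < C ∧ ∀ k, cnt σ k s.1 ≤ C * cnt σ k a := fun s =>
    cnt_le_of_reach σ s.2.1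
  choose Cs hCs hCs2 using hcomp
  obtain ⟨d, l, hl, c, C, hc, hC, h⟩ := hXgr
  set a0 : S := ⟨a, Relation.ReflTransGen.refl, Relation.ReflTransGen.refl⟩ with ha0
  set D := ∑ s : S, x s * Cs s with hD
  have hDpos : 0 < D := Finset.sum_pos (fun s _ => mul_pos (hx s) (hCs s)) univ_nonempty
  refine ⟨d, l, hl, c / D, C / x a0, by positivity, by have := hx a0; positivity, fun k => ⟨?_, ?_⟩⟩
  · have h1 := (h k).1
    have h2 : X k ≤ D * cnt σ k a := by
      rw [hD, Finset.sum_mul]
      refine Finset.sum_le_sum (fun s _ => ?_)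
      calc x s * cnt σ k s.1 ≤ x s * (Cs s * cnt σ k a) := by
            have := hx s
            gcongr; exact hCs2 s k
        _ = _ := by ring
    calc c / D * gr d l k = (c * gr d l k) / D := by ring
      _ ≤ (D * cnt σ k a) / D := div_le_div_of_nonneg_right (h1.trans h2) hDpos.le
      _ = cnt σ k a := by field_simp
  · have h1 := (h k).2
    have h2 : x a0 * cnt σ k a ≤ X k :=
      Finset.single_le_sum (f := fun s : S => x s * cnt σ k s.1)
        (fun s _ => mul_nonneg (hx s).le (cnt_nonneg σ k s.1)) (mem_univ a0)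
    have h3 := hx a0
    calc cnt σ k a = (x a0 * cnt σ k a) / x a0 := by field_simp
      _ ≤ (C * gr d l k) / x a0 := div_le_div_of_nonneg_right (h2.trans h1) h3.le
      _ = _ := by ring

/-- action of a morphism on words -/
def ap {B : Type*} (σ : A → List B) (w : List A) : List B := w.flatMap σ

lemma ap_iter_append (k : ℕ) (v w : List A) :
    (ap σ)^[k] (v ++ w) = (ap σ)^[k] v ++ (ap σ)^[k] w := by
  induction k generalizing v w with
  | zero => simp
  | succ k ih =>
    rw [Function.iterate_succ_apply, Function.iterate_succ_apply, Function.iterate_succ_apply,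
      ← ih]
    simp [ap]

lemma ap_iter_nil (k : ℕ) : (ap σ)^[k] ([] : List A) = [] := by
  induction k with
  | zero => rfl
  | succ k ih => rw [Function.iterate_succ_apply]; simpa [ap] using ih

lemma length_iter (k : ℕ) (w : List A) :
    (((ap σ)^[k] w).length : ℝ) = (w.map (cnt σ k)).sum := by
  have key : ∀ a : A, (((ap σ)^[k] [a]).length : ℝ) = cnt σ k a := by
    induction k generalizing w with
    | zero => intro a; simp [cnt]
    | succ k ih =>
      intro a
      rw [Function.iterate_succ_apply, cnt_succ]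
      have : ap σ [a] = σ a := by simp [ap]
      rw [this]
      generalize σ a = v
      induction v with
      | nil => simp [ap_iter_nil]
      | cons b v ihv =>
        have : b :: v = [b] ++ v := rfl
        rw [this, ap_iter_append, List.length_append, Nat.cast_add, ihv, ih [] b]
        simp
  induction w with
  | nil => simp [ap_iter_nil]
  | cons b v ihv =>
    have : b :: v = [b] ++ v := rfl
    rw [this, ap_iter_append, List.length_append, Nat.cast_add, ihv, key b]
    simp

/-- **Growth of letters.** For a nonerasing endomorphism `σ` of a finitely generated free monoid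
and a letter `a`, `|σ^k(a)| ≍ (k+1)^d l^k` for some `d : ℕ` and some real `l ≥ 1`. -/
theorem growth [Fintype A] (hσ : ∀ a, σ a ≠ []) (a : A) :
    ∃ (d : ℕ) (l : ℝ), 1 ≤ l ∧ ∃ c C : ℝ, 0 < c ∧ 0 < C ∧ ∀ k : ℕ,
      c * (((k : ℝ) + 1) ^ d * l ^ k) ≤ (((ap σ)^[k] [a]).length : ℝ) ∧
      (((ap σ)^[k] [a]).length : ℝ) ≤ C * (((k : ℝ) + 1) ^ d * l ^ k) := by
  obtain ⟨d, l, hl, c, C, hc, hC, h⟩ := isGr_cnt σ hσ a
  refine ⟨d, l, hl, c, C, hc, hC, fun k => ?_⟩
  have := length_iter σ k [a]
  simp only [List.map_cons, List.map_nil, List.sum_cons, List.sum_nil, add_zero] at this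
  rw [this]
  exact h k

end

end H54.Mor
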