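import Pool.Agent.H95.MW.Red

/-!
# Lower bound in the pushy case, part 1: lists

Longest common prefixes, desubstitution, the linear estimate for the longest common prefix of
`r s^j t q^j l g` and `r s^(j+1) t q^(j+1) l g`.
-/

set_option autoImplicit false

namespace H54.Mor

open Pool.Agent.H68.MW

variable {α : Type}

/-! ## longest common prefix -/

/-- length of the longest common prefix -/
def lcpl [DecidableEq α] : List α → List α → ℕ
  | [], _ => 0
  | _ :: _, [] => 0
  | a :: X, b :: Y => if a = b then lcpl X Y + 1 else 0

variable [DecidableEq α]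

lemma lcpl_append (A X Y : List α) : lcpl (A ++ X) (A ++ Y) = A.length + lcpl X Y := by
  induction A with
  | nil => simp
  | cons a A ih => simp [lcpl, ih]; omega

lemma lcpl_le_left (X Y : List α) : lcpl X Y ≤ X.length := by
  induction X generalizing Y with
  | nil => simp [lcpl]
  | cons a X ih =>
    cases Y with
    | nil => simp [lcpl]
    | cons b Y =>
      simp only [lcpl]
      split_ifs
      · have := ih Y
        simp only [List.length_cons]
        omega
      · simp

lemma lcpl_le_right (X Y : List α) : lcpl X Y ≤ Y.length := by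
  induction X generalizing Y with
  | nil => simp [lcpl]
  | cons a X ih =>
    cases Y with
    | nil => simp [lcpl]
    | cons b Y =>
      simp only [lcpl]
      split_ifs
      · have := ih Y
        simp only [List.length_cons]
        omega
      · simp

lemma lcpl_take (X Y : List α) : X.take (lcpl X Y) = Y.take (lcpl X Y) := by
  induction X generalizing Y with
  | nil => simp [lcpl]
  | cons a X ih =>
    cases Y with
    | nil => simp [lcpl]
    | cons b Y =>
      simp only [lcpl]
      split_ifs with h
      · subst h
        simp [ih Y]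
      · simp

lemma lcpl_ne (X Y : List α) (h1 : lcpl X Y < X.length) (h2 : lcpl X Y < Y.length) :
    X[lcpl X Y] ≠ Y[lcpl X Y] := by
  induction X generalizing Y with
  | nil => simp at h1
  | cons a X ih =>
    cases Y with
    | nil => simp at h2
    | cons b Y =>
      by_cases h : a = b
      · subst h
        have e : lcpl (a :: X) (a :: Y) = lcpl X Y + 1 := by simp [lcpl]
        simp only [e, List.getElem_cons_succ]
        rw [e] at h1 h2
        simp only [List.length_cons] at h1 h2
        exact ih Y (by omega) (by omega)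
      · have e : lcpl (a :: X) (b :: Y) = 0 := by simp [lcpl, h]
        simp only [e, List.getElem_cons_zero]
        exact h

/-- a mismatch bounds the longest common prefix -/
lemma lcpl_le_of_ne (X Y : List α) (i : ℕ) (h : X[i]? ≠ Y[i]?) : lcpl X Y ≤ i := by
  by_contra hcon
  push Not at hcon
  apply h
  have := congrArg (fun L => L[i]?) (lcpl_take X Y)
  simpa [List.getElem?_take, hcon] using this

/-- locality of the longest common prefix -/
lemma lcpl_local (X Y X' Y' X'' Y'' : List α) (h1 : lcpl (X ++ X') (Y ++ Y') < X.length)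
    (h2 : lcpl (X ++ X') (Y ++ Y') < Y.length) :
    lcpl (X ++ X'') (Y ++ Y'') = lcpl (X ++ X') (Y ++ Y') := by
  induction X generalizing Y with
  | nil => simp at h1
  | cons a X ih =>
    cases Y with
    | nil => simp at h2
    | cons b Y =>
      simp only [List.cons_append, lcpl, List.length_cons] at h1 h2 ⊢
      split_ifs at h1 h2 ⊢ with h
      · rw [ih Y (by omega) (by omega)]
      · rfl

/-! ## powers of words -/

/-- `s^j` -/
def pw {α : Type} (s : List α) : ℕ → List α
  | 0 => []
  | j + 1 => s ++ pw s j

omit [DecidableEq α] in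
lemma pw_succ' (s : List α) (j : ℕ) : pw s (j + 1) = pw s j ++ s := by
  induction j with
  | zero => simp [pw]
  | succ j ih =>
    have h : pw s (j + 1) = s ++ pw s j := rfl
    calc pw s (j + 1 + 1) = s ++ pw s (j + 1) := rfl
      _ = s ++ (pw s j ++ s) := by rw [ih]
      _ = pw s (j + 1) ++ s := by rw [h, List.append_assoc]

omit [DecidableEq α] in
lemma pw_add (s : List α) (i j : ℕ) : pw s (i + j) = pw s i ++ pw s j := by
  induction i with
  | zero => simp [pw]
  | succ i ih =>
    rw [show i + 1 + j = (i + j) + 1 by ring, pw, ih, pw, List.append_assoc]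

omit [DecidableEq α] in
@[simp] lemma pw_nil (j : ℕ) : pw ([] : List α) j = [] := by
  induction j with
  | zero => rfl
  | succ j ih => simp [pw, ih]

omit [DecidableEq α] in
@[simp] lemma length_pw (s : List α) (j : ℕ) : (pw s j).length = j * s.length := by
  induction j with
  | zero => simp [pw]
  | succ j ih => rw [pw, List.length_append, ih]; ring

/-- **Linear estimate.** The longest common prefix of `r s^j t q^j l g` and
`r s^(j+1) t q^(j+1) l g` has length `β j + O(1)` for some `β ≥ 1`. -/
theorem lcpl_linear (r s t q l : List α) (g : α) (hκ : 1 ≤ s.length + q.length)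
    (hg : g ∉ r ∧ g ∉ s ∧ g ∉ t ∧ g ∉ q ∧ g ∉ l) :
    ∃ β K j₁ : ℕ, 1 ≤ β ∧ ∀ j, j₁ ≤ j →
      β * j ≤ lcpl (r ++ pw s j ++ t ++ pw q j ++ l ++ [g])
        (r ++ pw s (j + 1) ++ t ++ pw q (j + 1) ++ l ++ [g]) ∧
      lcpl (r ++ pw s j ++ t ++ pw q j ++ l ++ [g])
        (r ++ pw s (j + 1) ++ t ++ pw q (j + 1) ++ l ++ [g]) ≤ β * j + K := by
  -- reduce to `e j`
  let e : ℕ → ℕ := fun j => lcpl (t ++ pw q j ++ l ++ [g]) (s ++ t ++ pw q (j + 1) ++ l ++ [g])
  have he : ∀ j, lcpl (r ++ pw s j ++ t ++ pw q j ++ l ++ [g])
        (r ++ pw s (j + 1) ++ t ++ pw q (j + 1) ++ l ++ [g]) = r.length + j * s.length + e j := by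
    intro j
    have h1 : r ++ pw s j ++ t ++ pw q j ++ l ++ [g] = (r ++ pw s j) ++ (t ++ pw q j ++ l ++ [g]) := by
      simp
    have h2 : r ++ pw s (j + 1) ++ t ++ pw q (j + 1) ++ l ++ [g] =
        (r ++ pw s j) ++ (s ++ t ++ pw q (j + 1) ++ l ++ [g]) := by
      rw [pw_succ' s j]
      simp
    rw [h1, h2, lcpl_append]
    simp [e]
  by_cases hA : ∀ j, t.length + j * q.length ≤ e j
  · -- case A
    refine ⟨s.length + q.length, r.length + t.length + l.length, 0, hκ, fun j _ => ?_⟩
    rw [he]
    have h1 := hA j
    have h2 : e j ≤ t.length + j * q.length + l.length := by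
      apply lcpl_le_of_ne
      have h3 : (t ++ pw q j ++ l ++ [g])[t.length + j * q.length + l.length]? = some g := by
        have e1 : t.length + j * q.length + l.length = (t ++ pw q j ++ l).length := by simp; omega
        rw [e1, List.getElem?_append_right le_rfl]
        simp
      rw [h3]
      intro hcon
      have h4 : t.length + j * q.length + l.length < (s ++ t ++ pw q (j + 1) ++ l).length := by
        simp
        have : (j + 1) * q.length = j * q.length + q.length := by ring
        omega
      rw [List.getElem?_append_left h4] at hcon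
      have h5 : g ∈ s ++ t ++ pw q (j + 1) ++ l := List.mem_of_getElem? hcon.symm
      have h6 : g ∉ pw q (j + 1) := by
        intro h
        have : ∀ k, g ∈ pw q k → g ∈ q := by
          intro k
          induction k with
          | zero => simp [pw]
          | succ k ih =>
            rw [pw, List.mem_append]
            rintro (h | h)
            · exact h
            · exact ih h
        exact hg.2.2.2.1 (this _ h)
      simp only [List.mem_append] at h5
      rcases h5 with ((h5 | h5) | h5) | h5
      · exact hg.2.1 h5
      · exact hg.2.2.1 h5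
      · exact h6 h5
      · exact hg.2.2.2.2 h5
    have h7 : (s.length + q.length) * j = j * s.length + j * q.length := by ring
    rw [h7]
    omega
  · -- case B
    push Not at hA
    obtain ⟨j₁, hj₁⟩ := hA
    have hs : 1 ≤ s.length := by
      by_contra hs
      have hs0 : s = [] := by
        rw [← List.length_eq_zero_iff]
        omega
      subst hs0
      have : e j₁ = (t ++ pw q j₁).length + lcpl (l ++ [g]) (q ++ l ++ [g]) := by
        have h1 : t ++ pw q j₁ ++ l ++ [g] = (t ++ pw q j₁) ++ (l ++ [g]) := by simp
        have h2 : [] ++ t ++ pw q (j₁ + 1) ++ l ++ [g] = (t ++ pw q j₁) ++ (q ++ l ++ [g]) := by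
          rw [pw_succ' q j₁]
          simp
        simp only [e]
        rw [h1, h2, lcpl_append]
      rw [this] at hj₁
      simp at hj₁
    refine ⟨s.length, r.length + e j₁, j₁, hs, fun j hj => ?_⟩
    have hej : e j = e j₁ := by
      obtain ⟨k, rfl⟩ := Nat.exists_eq_add_of_le hj
      have h1 : t ++ pw q (j₁ + k) ++ l ++ [g] = (t ++ pw q j₁) ++ (pw q k ++ l ++ [g]) := by
        rw [pw_add]
        simp
      have h2 : s ++ t ++ pw q (j₁ + k + 1) ++ l ++ [g] =
          (s ++ t ++ pw q (j₁ + 1)) ++ (pw q k ++ l ++ [g]) := by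
        rw [show j₁ + k + 1 = (j₁ + 1) + k by ring, pw_add]
        simp
      have h3 : t ++ pw q j₁ ++ l ++ [g] = (t ++ pw q j₁) ++ (l ++ [g]) := by simp
      have h4 : s ++ t ++ pw q (j₁ + 1) ++ l ++ [g] = (s ++ t ++ pw q (j₁ + 1)) ++ (l ++ [g]) := by
        simp
      simp only [e] at hj₁ ⊢
      rw [h1, h2, h3, h4]
      rw [h3, h4] at hj₁
      apply lcpl_local
      · simpa using hj₁
      · refine lt_of_lt_of_le hj₁ ?_
        simp
        have : (j₁ + 1) * q.length = j₁ * q.length + q.length := by ring
        omega
    rw [he, hej]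
    have h7 : s.length * j = j * s.length := by ring
    rw [h7]
    omega

/-! ## desubstitution -/

omit [DecidableEq α] in
lemma split_flatMap (θ : α → List α) : ∀ (w A : List α) (h : α) (B : List α),
    w.flatMap θ = A ++ h :: B →
    ∃ (A₀ : List α) (a : α) (B₀ s t : List α), w = A₀ ++ a :: B₀ ∧ θ a = s ++ h :: t ∧
      A = A₀.flatMap θ ++ s ∧ B = t ++ B₀.flatMap θ := by
  intro w
  induction w with
  | nil => intro A h B hw; simp at hw
  | cons b w ih =>
    intro A h B hw
    rw [List.flatMap_cons, List.append_eq_append_iff] at hw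
    rcases hw with ⟨A', h1, h2⟩ | ⟨C', h1, h2⟩
    · obtain ⟨A₀, a, B₀, s, t, e1, e2, e3, e4⟩ := ih A' h B h2
      refine ⟨b :: A₀, a, B₀, s, t, by simp [e1], e2, ?_, e4⟩
      rw [h1, e3]
      simp
    · cases C' with
      | nil =>
        simp only [List.nil_append] at h2
        obtain ⟨A₀, a, B₀, s, t, e1, e2, e3, e4⟩ := ih [] h B (by simpa using h2.symm)
        refine ⟨b :: A₀, a, B₀, s, t, by simp [e1], e2, ?_, e4⟩
        rw [List.flatMap_cons, List.append_assoc, ← e3, h1]
        simp
      | cons c C' =>
        simp only [List.cons_append, List.cons.injEq] at h2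
        obtain ⟨rfl, h2⟩ := h2
        exact ⟨[], b, w, A, C', by simp, h1, by simp, h2⟩

omit [DecidableEq α] in
/-- the last letter with a property is unique -/
lemma last_unique (G : α → Prop) : ∀ (s t x ρ : List α) (g r : α), s ++ g :: t = x ++ r :: ρ →
    G g → G r → (∀ b ∈ t, ¬ G b) → (∀ b ∈ ρ, ¬ G b) → s = x ∧ g = r ∧ t = ρ := by
  intro s t x ρ g r h hg hr ht hρ
  rw [List.append_eq_append_iff] at h
  rcases h with ⟨A', h1, h2⟩ | ⟨C', h1, h2⟩
  · cases A' with
    | nil =>
      simp only [List.nil_append, List.cons.injEq] at h2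
      exact ⟨by simpa using h1.symm, h2.1, h2.2⟩
    | cons c A' =>
      simp only [List.cons_append, List.cons.injEq] at h2
      exact absurd hr (ht r (by rw [h2.2]; simp))
  · cases C' with
    | nil =>
      simp only [List.nil_append, List.cons.injEq] at h2
      exact ⟨by simpa using h1, h2.1.symm, h2.2.symm⟩
    | cons c C' =>
      simp only [List.cons_append, List.cons.injEq] at h2
      exact absurd hg (hρ g (by rw [h2.2]; simp))

omit [DecidableEq α] in
/-- the first letter with a property is unique -/
lemma first_unique (G : α → Prop) : ∀ (s t x ρ : List α) (g r : α), s ++ g :: t = x ++ r :: ρ →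
    G g → G r → (∀ b ∈ s, ¬ G b) → (∀ b ∈ x, ¬ G b) → s = x ∧ g = r ∧ t = ρ := by
  intro s t x ρ g r h hg hr hs hx
  rw [List.append_eq_append_iff] at h
  rcases h with ⟨A', h1, h2⟩ | ⟨C', h1, h2⟩
  · cases A' with
    | nil =>
      simp only [List.nil_append, List.cons.injEq] at h2
      exact ⟨by simpa using h1.symm, h2.1, h2.2⟩
    | cons c A' =>
      simp only [List.cons_append, List.cons.injEq] at h2
      exact absurd hg (hx g (by rw [h1, h2.1]; simp))
  · cases C' with
    | nil =>
      simp only [List.nil_append, List.cons.injEq] at h2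
      exact ⟨by simpa using h1, h2.1.symm, h2.2.symm⟩
    | cons c C' =>
      simp only [List.cons_append, List.cons.injEq] at h2
      exact absurd hr (hs r (by rw [h1, h2.1]; simp))

end H54.Mor
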