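import Pool.Agent.H54.Mor.PushyL1

/-!
# Lower bound in the pushy case, part 2: normalised morphisms

A normalised morphism with long bounded blocks in its fixed point has a gap all of whose descendants
grow linearly, with nested left contexts.
-/

set_option autoImplicit false

namespace H54.Mor

open Pool.Agent.H68.MW

variable {α : Type}

/-- Normalised morphism: `G` is the set of growing letters, `R a` the last and `L a` the first
growing letter of `θ a`. -/
structure Nm (θ : α → List α) (G : α → Prop) (R L : α → α) (x ρ lam y : α → List α) : Prop where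
  bd : ∀ a, ¬ G a → ∀ b ∈ θ a, ¬ G b
  idem : ∀ a, ¬ G a → (θ a).flatMap θ = θ a
  last : ∀ a, G a → θ a = x a ++ R a :: ρ a
  GR : ∀ a, G a → G (R a)
  hρ : ∀ a, G a → ∀ b ∈ ρ a, ¬ G b
  first : ∀ a, G a → θ a = lam a ++ L a :: y a
  GLf : ∀ a, G a → G (L a)
  hlam : ∀ a, G a → ∀ b ∈ lam a, ¬ G b
  RR : ∀ a, G a → R (R a) = R a
  LL : ∀ a, G a → L (L a) = L a
  grow : ∀ a, G a → (θ a).flatMap θ ≠ θ a

/-- all letters bounded -/
def Bd (G : α → Prop) (w : List α) : Prop := ∀ b ∈ w, ¬ G b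

lemma Bd.append {G : α → Prop} {w w' : List α} (h : Bd G w) (h' : Bd G w') : Bd G (w ++ w') := by
  intro b hb
  rw [List.mem_append] at hb
  rcases hb with hb | hb
  · exact h b hb
  · exact h' b hb

lemma Bd.left {G : α → Prop} {w w' : List α} (h : Bd G (w ++ w')) : Bd G w :=
  fun b hb => h b (List.mem_append_left _ hb)

lemma Bd.right {G : α → Prop} {w w' : List α} (h : Bd G (w ++ w')) : Bd G w' :=
  fun b hb => h b (List.mem_append_right _ hb)

section

variable {θ : α → List α} {G : α → Prop} {R L : α → α} {x ρ lam y : α → List α}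

lemma Nm.bdf (hN : Nm θ G R L x ρ lam y) {w : List α} (h : Bd G w) : Bd G (w.flatMap θ) := by
  intro b hb
  rw [List.mem_flatMap] at hb
  obtain ⟨a, ha, hab⟩ := hb
  exact hN.bd a (h a ha) b hab

lemma Nm.idf (hN : Nm θ G R L x ρ lam y) {w : List α} (h : Bd G w) :
    (w.flatMap θ).flatMap θ = w.flatMap θ := by
  rw [flatMap_flatMap']
  apply flatMap_congr'
  intro b hb
  exact hN.idem b (h b hb)

lemma Nm.ne_nil (hN : Nm θ G R L x ρ lam y) {a : α} (h : G a) : θ a ≠ [] := by
  rw [hN.last a h]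
  simp

/-- the parent of a gap -/
lemma Nm.gap_parent (hN : Nm θ G R L x ρ lam y) (w P m Q : List α) (g g' : α)
    (h : w.flatMap θ = P ++ g :: (m ++ g' :: Q)) (hg : G g) (hg' : G g') (hm : Bd G m) :
    (∃ a, m.length ≤ (θ a).length) ∨
    ∃ (A₀ : List α) (a : α) (m₀ : List α) (a' : α) (B₀ : List α),
      w = A₀ ++ a :: (m₀ ++ a' :: B₀) ∧ G a ∧ G a' ∧ Bd G m₀ ∧
      m = ρ a ++ m₀.flatMap θ ++ lam a' ∧ g = R a ∧ g' = L a' := by
  obtain ⟨A₀, a, B₀, s, t, e1, e2, e3, e4⟩ := split_flatMap θ w P g _ h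
  rw [List.append_eq_append_iff] at e4
  rcases e4 with ⟨A', h1, h2⟩ | ⟨C', h1, h2⟩
  · left
    refine ⟨a, ?_⟩
    rw [e2, h1]
    simp
    omega
  · right
    obtain ⟨B1, a', B2, s', t', f1, f2, f3, f4⟩ := split_flatMap θ B₀ C' g' Q h2
    have hGa : G a := by
      by_contra hcon
      exact hN.bd a hcon g (by rw [e2]; simp) hg
    have hGa' : G a' := by
      by_contra hcon
      exact hN.bd a' hcon g' (by rw [f2]; simp) hg'
    have hmm : m = t ++ (B1.flatMap θ ++ s') := by rw [h1, f3]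
    have ht : Bd G t := by
      rw [hmm] at hm
      exact hm.left
    have hB1 : Bd G (B1.flatMap θ) := by
      rw [hmm] at hm
      exact hm.right.left
    have hs' : Bd G s' := by
      rw [hmm] at hm
      exact hm.right.right
    have hB1' : Bd G B1 := by
      intro b hb hGb
      refine hB1 (R b) ?_ (hN.GR b hGb)
      rw [List.mem_flatMap]
      exact ⟨b, hb, by rw [hN.last b hGb]; simp⟩
    obtain ⟨_, k2, k3⟩ := last_unique G s t (x a) (ρ a) g (R a) (by rw [← e2, hN.last a hGa]) hg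
      (hN.GR a hGa) ht (hN.hρ a hGa)
    obtain ⟨k4, k5, _⟩ := first_unique G s' t' (lam a') (y a') g' (L a')
      (by rw [← f2, hN.first a' hGa']) hg' (hN.GLf a' hGa') hs' (hN.hlam a' hGa')
    refine ⟨A₀, a, B1, a', B2, by rw [e1, f1], hGa, hGa', hB1', ?_, k2, k5⟩
    rw [hmm, k3, k4]
    simp

/-- iterates of the first letter -/
def Wn (θ : α → List α) (a : α) : ℕ → List α
  | 0 => [a]
  | n + 1 => (Wn θ a n).flatMap θ

lemma length_flatMap_le_mul (M : ℕ) (hM : ∀ a, (θ a).length ≤ M) (w : List α) :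
    (w.flatMap θ).length ≤ w.length * M := by
  induction w with
  | nil => simp
  | cons a w ih =>
    rw [List.flatMap_cons, List.length_append, List.length_cons, add_mul, one_mul]
    have := hM a
    omega

/-- If no stable gap has positive rate then all gaps are short. -/
lemma Nm.short_gaps (hN : Nm θ G R L x ρ lam y) (a₀ : α) (M : ℕ) (hM : ∀ a, (θ a).length ≤ M)
    (hno : ∀ (n : ℕ) (A₀ : List α) (g : α) (m : List α) (g' : α) (B₀ : List α),
      Wn θ a₀ n = A₀ ++ g :: (m ++ g' :: B₀) → G g → G g' → Bd G m → R g = g → L g' = g' →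
        (ρ g).flatMap θ = [] ∧ (lam g').flatMap θ = []) :
    ∀ (n : ℕ) (A₀ : List α) (g : α) (m : List α) (g' : α) (B₀ : List α),
      Wn θ a₀ n = A₀ ++ g :: (m ++ g' :: B₀) → G g → G g' → Bd G m →
        m.length ≤ 2 * M + 3 * (M * M) ∧
        ((m.flatMap θ).length ≤ M * M ∨
          (R g = g ∧ L g' = g' ∧ (m.flatMap θ).length ≤ 3 * (M * M))) := by
  intro n
  induction n with
  | zero =>
    intro A₀ g m g' B₀ h
    have := congrArg List.length h
    simp [Wn] at this
    omega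
  | succ n ih =>
    intro A₀ g m g' B₀ h hg hg' hm
    rcases hN.gap_parent (Wn θ a₀ n) A₀ m B₀ g g' h hg hg' hm with ⟨a, ha⟩ |
      ⟨A₁, a, m₀, a', B₁, k1, k2, k3, k4, k5, k6, k7⟩
    · have h1 : m.length ≤ M := ha.trans (hM a)
      have h2 := length_flatMap_le_mul M hM m
      have h3 : m.length * M ≤ M * M := Nat.mul_le_mul_right M h1
      exact ⟨by omega, Or.inl (h2.trans h3)⟩
    · obtain ⟨_, h2⟩ := ih A₁ a m₀ a' B₁ k1 k2 k3 k4
      have hρl : (ρ a).length ≤ M := by
        have := hM a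
        rw [hN.last a k2] at this
        simp at this
        omega
      have hll : (lam a').length ≤ M := by
        have := hM a'
        rw [hN.first a' k3] at this
        simp at this
        omega
      have hρl' : ((ρ a).flatMap θ).length ≤ M * M :=
        (length_flatMap_le_mul M hM _).trans (Nat.mul_le_mul_right M hρl)
      have hll' : ((lam a').flatMap θ).length ≤ M * M :=
        (length_flatMap_le_mul M hM _).trans (Nat.mul_le_mul_right M hll)
      have hθm : m.flatMap θ = (ρ a).flatMap θ ++ m₀.flatMap θ ++ (lam a').flatMap θ := by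
        rw [k5, List.flatMap_append, List.flatMap_append, hN.idf k4]
      have hst : R g = g ∧ L g' = g' := ⟨by rw [k6, hN.RR a k2], by rw [k7, hN.LL a' k3]⟩
      constructor
      · rw [k5, List.length_append, List.length_append]
        rcases h2 with h2 | ⟨_, _, h2⟩ <;> omega
      · right
        refine ⟨hst.1, hst.2, ?_⟩
        rcases h2 with h2 | ⟨s1, s2, h2⟩
        · rw [hθm, List.length_append, List.length_append]
          omega
        · obtain ⟨z1, z2⟩ := hno n A₁ a m₀ a' B₁ k1 k2 k3 k4 s1 s2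
          rw [hθm, z1, z2]
          simpa using h2

/-- descendants of the gap word -/
def Wd (θ : α → List α) (r l w₀ : List α) : ℕ → List α
  | 0 => w₀
  | j + 1 => r ++ (Wd θ r l w₀ j).flatMap θ ++ l

/-- left contexts of the descendants -/
def Cx (θ : α → List α) (x C₀ : List α) : ℕ → List α
  | 0 => C₀
  | j + 1 => (Cx θ x C₀ j).flatMap θ ++ x

lemma Nm.bd_Wd (hN : Nm θ G R L x ρ lam y) {r l w₀ : List α} (hr : Bd G r) (hl : Bd G l)
    (hw : Bd G w₀) (j : ℕ) : Bd G (Wd θ r l w₀ j) := by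
  induction j with
  | zero => exact hw
  | succ j ih => exact (hr.append (hN.bdf ih)).append hl

lemma Nm.Wd_flatMap (hN : Nm θ G R L x ρ lam y) {r l w₀ : List α} (hr : Bd G r) (hl : Bd G l)
    (hw : Bd G w₀) (j : ℕ) :
    (Wd θ r l w₀ j).flatMap θ = pw (r.flatMap θ) j ++ w₀.flatMap θ ++ pw (l.flatMap θ) j := by
  induction j with
  | zero => simp [Wd, pw]
  | succ j ih =>
    rw [Wd, List.flatMap_append, List.flatMap_append, hN.idf (hN.bd_Wd hr hl hw j), ih,
      pw_succ' (l.flatMap θ) j]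
    rw [show pw (r.flatMap θ) (j + 1) = r.flatMap θ ++ pw (r.flatMap θ) j from rfl]
    simp

lemma Nm.Wd_succ (hN : Nm θ G R L x ρ lam y) {r l w₀ : List α} (hr : Bd G r) (hl : Bd G l)
    (hw : Bd G w₀) (j : ℕ) :
    Wd θ r l w₀ (j + 1) =
      r ++ pw (r.flatMap θ) j ++ w₀.flatMap θ ++ pw (l.flatMap θ) j ++ l := by
  rw [Wd, hN.Wd_flatMap hr hl hw]
  simp

lemma Cx_shift (x C₀ : List α) (j : ℕ) :
    Cx θ x C₀ (j + 1) = Cx θ x (C₀.flatMap θ ++ x) j := by
  induction j with
  | zero => rfl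
  | succ j ih => rw [Cx, ih, Cx]

lemma flatMap_suffix {w w' : List α} (h : w <:+ w') : w.flatMap θ <:+ w'.flatMap θ := by
  obtain ⟨t, rfl⟩ := h
  rw [List.flatMap_append]
  exact List.suffix_append _ _

lemma Cx_nil_suffix (x C₀ : List α) (j : ℕ) : Cx θ x [] j <:+ Cx θ x C₀ j := by
  induction j with
  | zero => exact List.nil_suffix
  | succ j ih =>
    rw [Cx, Cx]
    obtain ⟨t, ht⟩ := flatMap_suffix (θ := θ) ih
    exact ⟨t, by rw [← List.append_assoc, ht]⟩

/-- contexts `θ^(j-1)(x) ... θ(x) x` are long -/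
lemma Nm.Cx_long (hN : Nm θ G R L x ρ lam y) (X : List α) (hX : X.flatMap θ ≠ []) (j : ℕ) :
    j ≤ (Cx θ X [] j).length := by
  classical
  let p : α → Bool := fun a => decide (θ a ≠ [])
  have hp1 : ∀ a, θ a ≠ [] → 1 ≤ (θ a).countP p := by
    intro a ha
    have : ∃ b ∈ θ a, θ b ≠ [] := by
      by_cases hG : G a
      · refine ⟨R a, by rw [hN.last a hG]; simp, hN.ne_nil (hN.GR a hG)⟩
      · by_contra hcon
        push Not at hcon
        apply ha
        rw [← hN.idem a hG, List.flatMap_eq_nil_iff]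
        exact hcon
    obtain ⟨b, hb, hb'⟩ := this
    exact List.countP_pos_iff.2 ⟨b, hb, by simpa [p] using hb'⟩
  have hp2 : ∀ w : List α, w.countP p ≤ (w.flatMap θ).countP p := by
    intro w
    induction w with
    | nil => simp
    | cons a w ih =>
      rw [List.flatMap_cons, List.countP_append, List.countP_cons]
      by_cases ha : θ a ≠ []
      · have h2 := hp1 a ha
        have h3 : (if p a = true then 1 else 0) ≤ 1 := by split_ifs <;> omega
        omega
      · have : p a = false := by simpa [p] using ha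
        rw [this]
        simp
        omega
  have hX1 : 1 ≤ X.countP p := by
    have : ∃ b ∈ X, θ b ≠ [] := by
      by_contra hcon
      push Not at hcon
      exact hX (List.flatMap_eq_nil_iff.2 hcon)
    obtain ⟨b, hb, hb'⟩ := this
    exact List.countP_pos_iff.2 ⟨b, hb, by simpa [p] using hb'⟩
  have key : ∀ j, j ≤ (Cx θ X [] j).countP p := by
    intro j
    induction j with
    | zero => simp
    | succ j ih =>
      rw [Cx, List.countP_append]
      have := hp2 (Cx θ X [] j)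
      omega
  exact (key j).trans List.countP_le_length

lemma Nm.Cx_common (hN : Nm θ G R L x ρ lam y) (X C₀ : List α) (hX : X.flatMap θ ≠ []) (j : ℕ) :
    ∃ z : List α, j ≤ z.length ∧ z <:+ Cx θ X C₀ j ∧ z <:+ Cx θ X C₀ (j + 1) := by
  refine ⟨Cx θ X [] j, hN.Cx_long X hX j, Cx_nil_suffix X C₀ j, ?_⟩
  rw [Cx_shift]
  exact Cx_nil_suffix X _ j

lemma exists_last (G : α → Prop) (P : List α) (h : ¬ Bd G P) :
    ∃ (P₁ : List α) (a : α) (v : List α), P = P₁ ++ a :: v ∧ G a ∧ Bd G v := by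
  induction P with
  | nil => exact absurd (fun b hb => by simp at hb) h
  | cons b P ih =>
    by_cases hP : Bd G P
    · refine ⟨[], b, P, rfl, ?_, hP⟩
      by_contra hb
      apply h
      intro c hc
      rw [List.mem_cons] at hc
      rcases hc with rfl | hc
      · exact hb
      · exact hP c hc
    · obtain ⟨P₁, a, v, h1, h2, h3⟩ := ih hP
      exact ⟨b :: P₁, a, v, by rw [h1]; rfl, h2, h3⟩

/-- **Nested contexts.** -/
theorem Nm.contexts (hN : Nm θ G R L x ρ lam y) (P₀ : List α) (g : α)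
    (hP : (x g).flatMap θ = [] → ¬ Bd G P₀) :
    ∃ j₀ : ℕ, ∀ j, ∃ z : List α, j ≤ z.length ∧ z <:+ Cx θ (x g) P₀ (j₀ + j) ∧
      z <:+ Cx θ (x g) P₀ (j₀ + j + 1) := by
  by_cases h1 : (x g).flatMap θ = []
  · -- case 2
    obtain ⟨P₁, h₀, v₀, hP₁, hh₀, hv₀⟩ := exists_last G P₀ (hP h1)
    have hxg : Bd G (x g) := by
      intro b hb hGb
      have := List.flatMap_eq_nil_iff.1 h1 b hb
      exact hN.ne_nil hGb this
    set h := R h₀ with hh
    have hGh : G h := hN.GR h₀ hh₀
    have hRh : R h = h := hN.RR h₀ hh₀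
    set D₀ := P₁.flatMap θ ++ x h₀ with hD₀
    set V₀ := ρ h₀ ++ v₀.flatMap θ ++ x g with hV₀
    have hV₀b : Bd G V₀ := (Bd.append (hN.hρ h₀ hh₀) (hN.bdf hv₀)).append hxg
    have hρh : Bd G (ρ h) := hN.hρ h hGh
    have hθh : θ h = x h ++ h :: ρ h := by
      have := hN.last h hGh
      rwa [hRh] at this
    have hCx : ∀ j, Cx θ (x g) P₀ (j + 1) = Cx θ (x h) D₀ j ++ h :: Wd θ (ρ h) (x g) V₀ j := by
      intro j
      induction j with
      | zero =>
        have e1 : Cx θ (x g) P₀ (0 + 1) = P₀.flatMap θ ++ x g := rfl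
        have e2 : Cx θ (x h) D₀ 0 = D₀ := rfl
        have e3 : Wd θ (ρ h) (x g) V₀ 0 = V₀ := rfl
        rw [e1, e2, e3, hP₁, hD₀, hV₀]
        simp [List.flatMap_append, List.flatMap_cons, hN.last h₀ hh₀, hh]
      | succ j ih =>
        have e1 : Cx θ (x g) P₀ (j + 1 + 1) = (Cx θ (x g) P₀ (j + 1)).flatMap θ ++ x g := rfl
        have e2 : Cx θ (x h) D₀ (j + 1) = (Cx θ (x h) D₀ j).flatMap θ ++ x h := rfl
        have e3 : Wd θ (ρ h) (x g) V₀ (j + 1) = ρ h ++ (Wd θ (ρ h) (x g) V₀ j).flatMap θ ++ x g := rfl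
        rw [e1, ih, e2, e3, List.flatMap_append, List.flatMap_cons, hθh]
        simp
    have hWd : ∀ j, Wd θ (ρ h) (x g) V₀ (j + 1) =
        ρ h ++ pw ((ρ h).flatMap θ) j ++ V₀.flatMap θ ++ x g := by
      intro j
      rw [hN.Wd_succ hρh hxg hV₀b, h1, pw_nil]
      simp
    by_cases h2 : (ρ h).flatMap θ = []
    · -- 2b
      have hxh : (x h).flatMap θ ≠ [] := by
        intro h3
        apply hN.grow h hGh
        rw [hθh, List.flatMap_append, List.flatMap_cons, h3, h2, hθh]
        simp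
      refine ⟨2, fun j => ?_⟩
      obtain ⟨z, hz1, hz2, hz3⟩ := hN.Cx_common (x h) D₀ hxh (j + 1)
      have hWc : ∀ j, Wd θ (ρ h) (x g) V₀ (j + 1) = ρ h ++ V₀.flatMap θ ++ x g := by
        intro j
        rw [hWd, h2, pw_nil]
        simp
      refine ⟨z ++ h :: (ρ h ++ V₀.flatMap θ ++ x g), ?_, ?_, ?_⟩
      · simp
        omega
      · rw [show 2 + j = (j + 1) + 1 by ring, hCx, hWc]
        obtain ⟨t, ht⟩ := hz2
        exact ⟨t, by rw [← List.append_assoc, ht]⟩
      · rw [show 2 + j + 1 = (j + 1 + 1) + 1 by ring, hCx, hWc]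
        obtain ⟨t, ht⟩ := hz3
        exact ⟨t, by rw [← List.append_assoc, ht]⟩
    · -- 2a
      refine ⟨2, fun j => ?_⟩
      have hs : 1 ≤ ((ρ h).flatMap θ).length := List.length_pos_iff.2 h2
      refine ⟨pw ((ρ h).flatMap θ) j ++ V₀.flatMap θ ++ x g, ?_, ?_, ?_⟩
      · simp only [List.length_append, length_pw]
        nlinarith
      · rw [show 2 + j = (j + 1) + 1 by ring, hCx, hWd]
        refine ⟨Cx θ (x h) D₀ (j + 1) ++ h :: ρ h, ?_⟩
        simp
      · rw [show 2 + j + 1 = (j + 1 + 1) + 1 by ring, hCx, hWd]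
        refine ⟨Cx θ (x h) D₀ (j + 1 + 1) ++ h :: (ρ h ++ (ρ h).flatMap θ), ?_⟩
        rw [show pw ((ρ h).flatMap θ) (j + 1) = (ρ h).flatMap θ ++ pw ((ρ h).flatMap θ) j from rfl]
        simp
  · -- case 1
    refine ⟨0, fun j => ?_⟩
    rw [Nat.zero_add]
    exact hN.Cx_common (x g) P₀ h1 j

end

end H54.Mor
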