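import Pool.Agent.H54.Mor.PushyL2

/-!
# Lower bound in the pushy case, part 3: right special words
-/

set_option autoImplicit false

namespace H54.Mor

open Pool.Agent.H68.MW

variable {α : Type}

section

variable {θ : α → List α} {G : α → Prop} {R L : α → α} {x ρ lam y : α → List α}

/-- gap words of the descendants form prefixes of `u` -/
lemma Nm.desc_pre (hN : Nm θ G R L x ρ lam y) (u : ℕ → α)
    (hu : ∀ w : List α, IsPre w u → IsPre (w.flatMap θ) u) (P₀ w₀ : List α) (g g' : α)
    (hg : G g) (hg' : G g') (hR : R g = g) (hL : L g' = g')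
    (h0 : IsPre (P₀ ++ g :: (w₀ ++ [g'])) u) (j : ℕ) :
    IsPre (Cx θ (x g) P₀ j ++ g :: (Wd θ (ρ g) (lam g') w₀ j ++ [g'])) u := by
  induction j with
  | zero => exact h0
  | succ j ih =>
    refine (hu _ ih).of_prefix ?_
    rw [Cx, Wd, List.flatMap_append, List.flatMap_cons, List.flatMap_append, hN.last g hg, hR]
    have h1 : [g'].flatMap θ = lam g' ++ g' :: y g' := by
      rw [List.flatMap_singleton, hN.first g' hg', hL]
    rw [h1]
    refine ⟨y g', ?_⟩
    simp

/-- a suffix of a prefix of `u` as a window -/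
lemma win_of_suffix (u : ℕ → α) (A Z : List α) (h : IsPre (A ++ Z) u) (n : ℕ) (hn : n ≤ Z.length) :
    win (twoSided u) (((A ++ Z).length : ℤ) - n) n = (Z.drop (Z.length - n)).map some := by
  apply List.ext_getElem
  · simp
    omega
  · intro i h1 h2
    rw [getElem_win]
    simp only [length_win] at h1
    rw [List.getElem_map, List.getElem_drop]
    have e1 : (0 : ℤ) ≤ ((A ++ Z).length : ℤ) - n + i := by
      simp only [List.length_append]
      push_cast
      omega
    have e2 : (((A ++ Z).length : ℤ) - n + i).toNat = A.length + (Z.length - n + i) := by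
      simp only [List.length_append]
      omega
    rw [twoSided, if_pos e1, e2]
    congr 1
    have h3 := h (A.length + (Z.length - n + i)) (by simp; omega)
    rw [← h3, List.getElem_append_right (by omega)]
    congr 1
    omega

lemma twoSided_nat (u : ℕ → α) (n : ℕ) : twoSided u (n : ℤ) = some (u n) := by
  simp [twoSided]

/-- marker: the last growing letter is followed by exactly `k` letters -/
def Mk (G : α → Prop) (w : List (Option α)) (k : ℕ) : Prop :=
  ∃ (A : List (Option α)) (g : α) (B : List (Option α)), w = A ++ some g :: B ∧ B.length = k ∧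
    G g ∧ ∀ b ∈ B, ¬ ∃ c, b = some c ∧ G c

lemma Mk.unique {G : α → Prop} {w : List (Option α)} {k k' : ℕ} (h : Mk G w k) (h' : Mk G w k') :
    k = k' := by
  obtain ⟨A, g, B, h1, h2, h3, h4⟩ := h
  obtain ⟨A', g', B', h1', h2', h3', h4'⟩ := h'
  have := last_unique (fun o : Option α => ∃ c, o = some c ∧ G c) A B A' B' (some g) (some g')
    (h1.symm.trans h1') ⟨g, rfl, h3⟩ ⟨g', rfl, h3'⟩ h4 h4'
  rw [← h2, ← h2', this.2.2]

/-- the right special words of one pair of consecutive descendants -/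
lemma rs_of_pair [DecidableEq α] (u : ℕ → α) (C C' X Y z : List α) (g : α) (hg : G g)
    (h1 : IsPre (C ++ g :: X) u) (h2 : IsPre (C' ++ g :: Y) u)
    (hX : lcpl X Y < X.length) (hY : lcpl X Y < Y.length)
    (hb : Bd G (X.take (lcpl X Y))) (hz : z <:+ C) (hz' : z <:+ C') (n : ℕ)
    (hn1 : lcpl X Y + 1 ≤ n) (hn2 : n ≤ z.length + 1 + lcpl X Y) :
    ∃ w ∈ RS (twoSided u) n, Mk G w (lcpl X Y) := by
  obtain ⟨A, hA⟩ := hz
  obtain ⟨A', hA'⟩ := hz'
  set k := lcpl X Y with hk
  set Z := z ++ g :: X.take k with hZ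
  have hZl : Z.length = z.length + 1 + k := by
    simp [hZ]
    omega
  have hZ' : Z = z ++ g :: Y.take k := by rw [hZ, hk, lcpl_take]
  have hp1 : IsPre (A ++ Z) u := by
    refine h1.of_prefix ?_
    rw [hZ, ← List.append_assoc, hA]
    refine ⟨X.drop k, ?_⟩
    simp
  have hp2 : IsPre (A' ++ Z) u := by
    refine h2.of_prefix ?_
    rw [hZ', ← List.append_assoc, hA']
    refine ⟨Y.drop k, ?_⟩
    simp
  have e1 : (A ++ Z).length = C.length + 1 + k := by
    rw [← hA]
    simp [hZl]
    omega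
  have e2 : (A' ++ Z).length = C'.length + 1 + k := by
    rw [← hA']
    simp [hZl]
    omega
  refine ⟨(Z.drop (Z.length - n)).map some, ⟨((A ++ Z).length : ℤ), ((A' ++ Z).length : ℤ), ?_, ?_, ?_⟩,
    ?_⟩
  · exact (win_of_suffix u A Z hp1 n (by omega)).symm
  · exact (win_of_suffix u A' Z hp2 n (by omega)).symm
  · rw [twoSided_nat, twoSided_nat]
    intro hcon
    have hcon := Option.some.inj hcon
    have h3 := h1 (C.length + 1 + k) (by simp; omega)
    have h4 := h2 (C'.length + 1 + k) (by simp; omega)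
    rw [List.getElem_append_right (by omega)] at h3 h4
    have e3 : C.length + 1 + k - C.length = k + 1 := by omega
    have e4 : C'.length + 1 + k - C'.length = k + 1 := by omega
    simp only [e3, e4, List.getElem_cons_succ] at h3 h4
    apply lcpl_ne X Y hX hY
    rw [h3, h4, ← e1, ← e2, hcon]
  · -- marker
    have e5 : Z.length - n ≤ z.length := by omega
    refine ⟨(z.drop (Z.length - n)).map some, g, (X.take k).map some, ?_, ?_, hg, ?_⟩
    · rw [hZ, List.drop_append_of_le_length (by rw [← hZ]; exact e5)]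
      simp
    · simp
      omega
    · intro b hbm
      rw [List.mem_map] at hbm
      obtain ⟨c, hc, rfl⟩ := hbm
      rintro ⟨c', h5, h6⟩
      have := Option.some.inj h5
      subst this
      exact hb c hc h6

end

/-- **Counting.** -/
theorem count_lower {X : Type} (S : ℕ → Set X) (hfin : ∀ n, (S n).Finite) (mk : X → ℕ → Prop)
    (huniq : ∀ w k k', mk w k → mk w k' → k = k') (f : ℕ → ℕ) (β K j₁ : ℕ) (hβ : 1 ≤ β)
    (hf : ∀ j, j₁ ≤ j → β * j ≤ f j ∧ f j ≤ β * j + K)
    (h : ∀ j, j₁ ≤ j → ∀ n, f j + 1 ≤ n → n + j₁ ≤ f j + j → ∃ w ∈ S n, mk w (f j)) :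
    ∃ c : ℝ, 0 < c ∧ ∃ N : ℕ, ∀ n, N ≤ n → c * n ≤ ((S n).ncard : ℝ) := by
  classical
  set D := K + 1 with hD
  -- strict monotonicity
  have hmono : ∀ i i', j₁ ≤ D * i → i < i' → f (D * i) < f (D * i') := by
    intro i i' hi hii
    have h1 : D * i + D ≤ D * i' := by
      calc D * i + D = D * (i + 1) := by ring
        _ ≤ D * i' := Nat.mul_le_mul_left D hii
    have h2 := (hf (D * i) hi).2
    have h3 := (hf (D * i') (by omega)).1
    have h4 : β * (D * i) + β * D ≤ β * (D * i') := by
      calc β * (D * i) + β * D = β * (D * i + D) := by ring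
        _ ≤ _ := Nat.mul_le_mul_left β h1
    have h5 : D ≤ β * D := Nat.le_mul_of_pos_left D hβ
    omega
  -- the count
  have hcount : ∀ n a b : ℕ, (∀ i, a ≤ i → i < b → j₁ ≤ D * i ∧ β * (D * i) + K + 1 ≤ n ∧
      n + j₁ ≤ (β + 1) * (D * i)) → b - a ≤ (S n).ncard := by
    intro n a b hab
    have hex : ∀ i, a ≤ i → i < b → ∃ w ∈ S n, mk w (f (D * i)) := by
      intro i h1 h2
      obtain ⟨h3, h4, h5⟩ := hab i h1 h2
      obtain ⟨h6, h7⟩ := hf (D * i) h3
      refine h (D * i) h3 n (by omega) ?_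
      have : (β + 1) * (D * i) = β * (D * i) + D * i := by ring
      omega
    rcases Nat.lt_or_ge a b with hlt | hge
    swap
    · rw [Nat.sub_eq_zero_of_le hge]
      exact Nat.zero_le _
    have hne : Nonempty X := ⟨(hex a le_rfl hlt).choose⟩
    choose! F hF1 hF2 using hex
    have hinj : Set.InjOn F (Finset.Ico a b : Set ℕ) := by
      intro i hi i' hi' he
      rw [Finset.coe_Ico, Set.mem_Ico] at hi hi'
      by_contra hne
      have h1 := hF2 i hi.1 hi.2
      have h2 := hF2 i' hi'.1 hi'.2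
      rw [he] at h1
      have h3 := huniq _ _ _ h1 h2
      rcases Nat.lt_or_gt_of_ne hne with h4 | h4
      · have := hmono i i' (hab i hi.1 hi.2).1 h4
        omega
      · have := hmono i' i (hab i' hi'.1 hi'.2).1 h4
        omega
    have hsub : F '' (Finset.Ico a b : Set ℕ) ⊆ S n := by
      rintro _ ⟨i, hi, rfl⟩
      rw [Finset.coe_Ico, Set.mem_Ico] at hi
      exact hF1 i hi.1 hi.2
    have h1 := Set.ncard_le_ncard hsub (hfin n)
    rw [hinj.ncard_image, Set.ncard_coe_finset, Nat.card_Ico] at h1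
    exact h1
  have hDpos : 0 < D := by omega
  set p := β * D with hp
  set q := (β + 1) * D with hq
  have hp0 : 0 < p := Nat.mul_pos hβ hDpos
  have hq0 : 0 < q := Nat.mul_pos (by omega) hDpos
  have hpR : (0 : ℝ) < p := by exact_mod_cast hp0
  have hqR : (0 : ℝ) < q := by exact_mod_cast hq0
  have hpq : (1 : ℝ) / p - 1 / q > 0 := by
    have h1 : (p : ℝ) < q := by
      have : p < q := by
        rw [hp, hq, add_mul]
        omega
      exact_mod_cast this
    have := one_div_lt_one_div_of_lt hpR h1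
    linarith
  set δ : ℝ := 1 / p - 1 / q with hδ
  set E : ℝ := (K + 1) / p + j₁ / q + 1 with hE
  refine ⟨δ / 2, by positivity, ⌈E * 2 / δ⌉₊ + (K + 1) + (β + 1) * j₁, fun n hn => ?_⟩
  have hn1 : E * 2 / δ ≤ n := by
    refine (Nat.le_ceil _).trans ?_
    exact_mod_cast (by omega : ⌈E * 2 / δ⌉₊ ≤ n)
  have hn2 : K + 1 ≤ n := by omega
  have hn3 : (β + 1) * j₁ ≤ n := by omega
  set a := (n + j₁) / q + 1 with ha
  set b := (n - (K + 1)) / p + 1 with hb
  have hab : ∀ i, a ≤ i → i < b → j₁ ≤ D * i ∧ β * (D * i) + K + 1 ≤ n ∧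
      n + j₁ ≤ (β + 1) * (D * i) := by
    intro i hi1 hi2
    have h1 : n + j₁ < q * ((n + j₁) / q + 1) := Nat.lt_mul_div_succ (n + j₁) hq0
    have h2 : q * a ≤ q * i := Nat.mul_le_mul_left q hi1
    have h3 : q * i = (β + 1) * (D * i) := by rw [hq]; ring
    have h4 : p * ((n - (K + 1)) / p) ≤ n - (K + 1) := Nat.mul_div_le _ _
    have h5 : p * i ≤ p * ((n - (K + 1)) / p) := Nat.mul_le_mul_left p (by omega)
    have h6 : p * i = β * (D * i) := by rw [hp]; ring
    have h7 : n + j₁ ≤ (β + 1) * (D * i) := by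
      rw [← h3]
      rw [← ha] at h1
      omega
    refine ⟨?_, by omega, h7⟩
    have h8 : (β + 1) * j₁ ≤ (β + 1) * (D * i) := by omega
    exact Nat.le_of_mul_le_mul_left h8 (by omega)
  have hc := hcount n a b hab
  have hcR : (b : ℝ) - a ≤ ((S n).ncard : ℝ) := by
    have h1 : b ≤ (S n).ncard + a := by omega
    have : (b : ℝ) ≤ ((S n).ncard : ℝ) + a := by exact_mod_cast h1
    linarith
  refine le_trans ?_ hcR
  have hbR : ((n : ℝ) - (K + 1)) / p ≤ b := by
    have h1 : n - (K + 1) < p * b := by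
      rw [hb]
      exact Nat.lt_mul_div_succ _ hp0
    have h2 : (n : ℝ) - (K + 1) ≤ p * b := by
      have h3 : n ≤ p * b + (K + 1) := by omega
      have h4 : (n : ℝ) ≤ p * b + (K + 1) := by exact_mod_cast h3
      linarith
    rw [div_le_iff₀ hpR]
    linarith
  have haR : (a : ℝ) ≤ ((n : ℝ) + j₁) / q + 1 := by
    have h1 : q * ((n + j₁) / q) ≤ n + j₁ := Nat.mul_div_le _ _
    have h2 : (q : ℝ) * ((n + j₁) / q : ℕ) ≤ (n : ℝ) + j₁ := by exact_mod_cast h1
    rw [ha]
    push_cast
    have h3 : (((n + j₁) / q : ℕ) : ℝ) ≤ ((n : ℝ) + j₁) / q := by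
      rw [le_div_iff₀ hqR]
      linarith
    linarith
  have hfinal : ((n : ℝ) - (K + 1)) / p - (((n : ℝ) + j₁) / q + 1) = δ * n - E := by
    rw [hδ, hE]
    field_simp
    ring
  have h9 : E ≤ δ / 2 * n := by
    have : E * 2 / δ * δ ≤ n * δ := mul_le_mul_of_nonneg_right hn1 hpq.le
    rw [div_mul_cancel₀ _ hpq.ne'] at this
    linarith
  linarith

end H54.Mor
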