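import Pool.Agent.H54.Mor.PushyL3

/-!
# Lower bound in the pushy case, part 4: assembly for normalised morphisms
-/

set_option autoImplicit false

namespace H54.Mor

open Pool.Agent.H68.MW

variable {α : Type}

section

variable {θ : α → List α} {G : α → Prop} {R L : α → α} {x ρ lam y : α → List α}

lemma isPre_Wn (u : ℕ → α) (hu : ∀ w : List α, IsPre w u → IsPre (w.flatMap θ) u) (n : ℕ) :
    IsPre (Wn θ (u 0) n) u := by
  induction n with
  | zero =>
    intro i hi
    simp only [Wn, List.length_singleton] at hi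
    have : i = 0 := by omega
    subst this
    simp [Wn]
  | succ n ih => exact hu _ ih

/-- decomposition of a prefix around a gap -/
lemma pre_gap (u : ℕ → α) (a e : ℕ) (h : a < e) :
    pre u (e + 1) = pre u a ++ u a :: ((List.range (e - a - 1)).map (fun t => u (a + 1 + t)) ++ [u e]) := by
  obtain ⟨k, rfl⟩ : ∃ k, e = a + 1 + k := ⟨e - a - 1, by omega⟩
  have e1 : a + 1 + k - a - 1 = k := by omega
  rw [e1]
  induction k with
  | zero => simp [pre_succ]
  | succ k ih =>
    have h1 := ih (by omega) (by omega)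
    rw [show a + 1 + (k + 1) + 1 = (a + 1 + k + 1) + 1 by ring, pre_succ, h1, List.range_succ]
    simp
    ring_nf

/-- existence of a stable gap with positive rate -/
lemma Nm.exists_gap [Fintype α] (hN : Nm θ G R L x ρ lam y) (u : ℕ → α)
    (hu : ∀ w : List α, IsPre w u → IsPre (w.flatMap θ) u) (hu0 : G (u 0))
    (hgen : ∀ m, ∃ n, m < (Wn θ (u 0) n).length) (hinf : ∀ N, ∃ i, N ≤ i ∧ G (u i))
    (hpush : ∀ K, ∃ i, ∀ j, j < K → ¬ G (u (i + j))) :
    ∃ (n : ℕ) (A₀ : List α) (g : α) (m : List α) (g' : α) (B₀ : List α),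
      Wn θ (u 0) n = A₀ ++ g :: (m ++ g' :: B₀) ∧ G g ∧ G g' ∧ Bd G m ∧ R g = g ∧ L g' = g' ∧
        1 ≤ ((ρ g).flatMap θ).length + ((lam g').flatMap θ).length := by
  classical
  by_contra hcon
  push Not at hcon
  have hshort := hN.short_gaps (u 0) (tl θ) (length_le_tl θ) (by
    intro n A₀ g m g' B₀ h1 h2 h3 h4 h5 h6
    have := hcon n A₀ g m g' B₀ h1 h2 h3 h4 h5 h6
    constructor
    · rw [← List.length_eq_zero_iff]; omega
    · rw [← List.length_eq_zero_iff]; omega)
  set M := tl θ
  obtain ⟨i, hi⟩ := hpush (2 * M + 3 * (M * M) + 1)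
  have hex : ∃ e, i ≤ e ∧ G (u e) := hinf i
  obtain ⟨he1, he2⟩ := Nat.find_spec hex
  have he3 : ∀ j, i ≤ j → j < Nat.find hex → ¬ G (u j) := by
    intro j h1 h2 h3
    exact Nat.find_min hex h2 ⟨h1, h3⟩
  set e := Nat.find hex
  have he4 : i + (2 * M + 3 * (M * M) + 1) ≤ e := by
    by_contra hlt
    push Not at hlt
    apply hi (e - i) (by omega)
    rw [show i + (e - i) = e by omega]
    exact he2
  -- last growing letter before `i`
  set a := Nat.findGreatest (fun k => G (u k)) i with ha
  have ha1 : G (u a) := Nat.findGreatest_spec (P := fun k => G (u k)) (Nat.zero_le i) hu0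
  have ha2 : a ≤ i := Nat.findGreatest_le i
  have ha3 : a ≠ i := by
    intro h
    have := hi 0 (by omega)
    rw [Nat.add_zero, ← h] at this
    exact this ha1
  have ha4 : ∀ j, a < j → j < e → ¬ G (u j) := by
    intro j h1 h2
    rcases Nat.lt_or_ge j i with h3 | h3
    · exact Nat.findGreatest_is_greatest (P := fun k => G (u k)) h1 h3.le
    · exact he3 j h3 h2
  obtain ⟨n, hn⟩ := hgen e
  have hpre := isPre_Wn u hu n
  have h1 : pre u (e + 1) <+: Wn θ (u 0) n := hpre.pre_prefix hn
  obtain ⟨t, ht⟩ := h1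
  rw [pre_gap u a e (by omega)] at ht
  have h2 := hshort n (pre u a) (u a) ((List.range (e - a - 1)).map (fun t => u (a + 1 + t))) (u e) t
    (by rw [← ht]; simp) ha1 he2 (by
      intro b hb
      rw [List.mem_map] at hb
      obtain ⟨k, hk, rfl⟩ := hb
      rw [List.mem_range] at hk
      exact ha4 _ (by omega) (by omega))
  have h3 := h2.1
  rw [List.length_map, List.length_range] at h3
  omega

/-- the left context contains a growing letter if `θ(x(g))` is empty -/
lemma Nm.not_bd_context (hN : Nm θ G R L x ρ lam y) (u : ℕ → α)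
    (hu : ∀ w : List α, IsPre w u → IsPre (w.flatMap θ) u) (hu0 : G (u 0))
    (n : ℕ) (A₀ : List α) (g : α) (m : List α) (g' : α) (B₀ : List α)
    (hW : Wn θ (u 0) n = A₀ ++ g :: (m ++ g' :: B₀)) (hg : G g) (hg' : G g') (hR : R g = g)
    (hx : (x g).flatMap θ = []) : ¬ Bd G A₀ := by
  intro hA
  have hpre := isPre_Wn u hu n
  rw [hW] at hpre
  have hxb : Bd G (x g) := by
    intro b hb hGb
    exact hN.ne_nil hGb (List.flatMap_eq_nil_iff.1 hx b hb)
  have hA0 : A₀ = [] := by
    cases A₀ with
    | nil => rfl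
    | cons b A₁ =>
      exfalso
      have := hpre 0 (by simp)
      simp at this
      exact hA b (by simp) (by rw [this]; exact hu0)
  subst hA0
  have hg0 : g = u 0 := by
    have := hpre 0 (by simp)
    simpa using this
  have hθg : IsPre (θ g) u := by
    have h1 : IsPre [g] u := by
      intro i hi
      simp only [List.length_singleton] at hi
      have : i = 0 := by omega
      subst this
      simpa using hg0
    have := hu _ h1
    simpa using this
  have hxg : x g = [] := by
    cases hxx : x g with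
    | nil => rfl
    | cons b X =>
      exfalso
      rw [hN.last g hg, hxx] at hθg
      have := hθg 0 (by simp)
      simp at this
      exact hxb b (by rw [hxx]; simp) (by rw [this]; exact hu0)
  have hθ : θ g = g :: ρ g := by
    rw [hN.last g hg, hxg, hR]
    rfl
  have key : ∀ n, ∃ w, Wn θ (u 0) n = g :: w ∧ Bd G w := by
    intro n
    induction n with
    | zero => exact ⟨[], by simp [Wn, hg0], fun b hb => by simp at hb⟩
    | succ n ih =>
      obtain ⟨w, h1, h2⟩ := ih
      refine ⟨ρ g ++ w.flatMap θ, ?_, Bd.append (hN.hρ g hg) (hN.bdf h2)⟩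
      rw [Wn, h1, List.flatMap_cons, hθ]
      rfl
  obtain ⟨w, h1, h2⟩ := key n
  rw [h1] at hW
  simp only [List.nil_append, List.cons.injEq] at hW
  exact h2 g' (by rw [hW.2]; simp) hg'

/-- **Lower bound for normalised morphisms.** -/
theorem Nm.lower [Fintype α] (hN : Nm θ G R L x ρ lam y) (u : ℕ → α)
    (hu : ∀ w : List α, IsPre w u → IsPre (w.flatMap θ) u) (hu0 : G (u 0))
    (hgen : ∀ m, ∃ n, m < (Wn θ (u 0) n).length) (hinf : ∀ N, ∃ i, N ≤ i ∧ G (u i))
    (hpush : ∀ K, ∃ i, ∀ j, j < K → ¬ G (u (i + j))) :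
    ∃ c : ℝ, 0 < c ∧ ∃ N : ℕ, ∀ n, N ≤ n → c * n ≤ (rs (twoSided u) n : ℝ) := by
  classical
  obtain ⟨n₀, A₀, g, m, g', B₀, hW, hg, hg', hm, hR, hL, hκ⟩ :=
    hN.exists_gap u hu hu0 hgen hinf hpush
  obtain ⟨j₀, hctx⟩ := hN.contexts A₀ g
    (hN.not_bd_context u hu hu0 n₀ A₀ g m g' B₀ hW hg hg' hR)
  have h0 : IsPre (A₀ ++ g :: (m ++ [g'])) u := by
    have := isPre_Wn u hu n₀
    rw [hW] at this
    refine this.of_prefix ⟨B₀, ?_⟩
    simp
  have hdesc := hN.desc_pre u hu A₀ m g g' hg hg' hR hL h0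
  have hρ := hN.hρ g hg
  have hlam := hN.hlam g' hg'
  set r := ρ g with hr
  set l := lam g' with hl
  have hWd := hN.Wd_succ (r := r) (l := l) (w₀ := m) hρ hlam hm
  have hbd := hN.bd_Wd (r := r) (l := l) (w₀ := m) hρ hlam hm
  have hmemb : ∀ w, Bd G w → g' ∉ w := fun w hw h => hw g' h hg'
  obtain ⟨β, K, j₁, hβ, hlin⟩ := lcpl_linear r (r.flatMap θ) (m.flatMap θ) (l.flatMap θ) l g' hκ
    ⟨hmemb _ hρ, hmemb _ (hN.bdf hρ), hmemb _ (hN.bdf hm), hmemb _ (hN.bdf hlam), hmemb _ hlam⟩
  let f : ℕ → ℕ := fun j => lcpl (Wd θ r l m (j + 1) ++ [g']) (Wd θ r l m (j + 1 + 1) ++ [g'])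
  have hf : ∀ j, j₁ ≤ j → β * j ≤ f j ∧ f j ≤ β * j + K := by
    intro j hj
    have := hlin j hj
    simp only [f]
    rw [hWd, hWd]
    exact this
  have hfin : ∀ n, (RS (twoSided u) n).Finite := by
    intro n
    refine (List.finite_length_eq (Option α) n).subset ?_
    rintro w ⟨e, e', h1, _, _⟩
    show w.length = n
    rw [h1, length_win]
  obtain ⟨c, hc, N, hN'⟩ := count_lower (fun n => RS (twoSided u) n) hfin (Mk G)
    (fun w k k' h h' => h.unique h') f β K (max j₁ j₀) hβ
    (fun j hj => hf j (le_trans (le_max_left _ _) hj)) (by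
      intro j hj n hn1 hn2
      have hjj : j₀ ≤ j := le_trans (le_max_right _ _) hj
      have hmax : j₀ ≤ max j₁ j₀ := le_max_right _ _
      obtain ⟨z, hz1, hz2, hz3⟩ := hctx (j + 1 - j₀)
      have e1 : j₀ + (j + 1 - j₀) = j + 1 := by omega
      rw [e1] at hz2 hz3
      have hlen : (Wd θ r l m (j + 1)).length < (Wd θ r l m (j + 1 + 1)).length := by
        rw [hWd, hWd]
        simp only [List.length_append, length_pw]
        nlinarith
      have hfle : f j ≤ (Wd θ r l m (j + 1)).length := by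
        apply lcpl_le_of_ne
        intro hcon
        rw [List.getElem?_append_right le_rfl, List.getElem?_append_left hlen] at hcon
        simp only [Nat.sub_self] at hcon
        have h1 : g' ∈ Wd θ r l m (j + 1 + 1) := List.mem_of_getElem? hcon.symm
        exact hbd (j + 1 + 1) g' h1 hg'
      refine rs_of_pair u (Cx θ (x g) A₀ (j + 1)) (Cx θ (x g) A₀ (j + 1 + 1))
        (Wd θ r l m (j + 1) ++ [g']) (Wd θ r l m (j + 1 + 1) ++ [g']) z g hg
        (hdesc (j + 1)) (hdesc (j + 1 + 1)) ?_ ?_ ?_ hz2 hz3 n hn1 ?_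
      · have : f j < (Wd θ r l m (j + 1) ++ [g']).length := by
          rw [List.length_append, List.length_singleton]
          omega
        exact this
      · have : f j < (Wd θ r l m (j + 1 + 1) ++ [g']).length := by
          rw [List.length_append, List.length_singleton]
          omega
        exact this
      · have h1 : (Wd θ r l m (j + 1) ++ [g']).take (f j) = (Wd θ r l m (j + 1)).take (f j) :=
          List.take_append_of_le_length hfle
        show Bd G ((Wd θ r l m (j + 1) ++ [g']).take (f j))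
        rw [h1]
        intro b hb
        exact hbd (j + 1) b (List.mem_of_mem_take hb)
      · have : n ≤ z.length + 1 + f j := by omega
        exact this)
  exact ⟨c, hc, N, hN'⟩

end

end H54.Mor
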