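import Pool.Agent.H54.Mor.PushyL4
import Pool.Agent.H36.MW.Itr

/-!
# Lower bound in the pushy case, part 5: normalisation and the final statement
-/

set_option autoImplicit false

namespace H54.Mor

open Pool.Agent.H68.MW

variable {α : Type}

/-! ## bounded and growing letters -/

lemma bdd_mem {σ : α → List α} {a b : α} (ha : BddLetter σ a) (hb : b ∈ σ a) : BddLetter σ b := by
  obtain ⟨M, hM⟩ := ha
  refine ⟨M, fun j => ?_⟩
  refine le_trans ?_ (hM (j + 1))
  rw [itr_succ']
  obtain ⟨s, t, hst⟩ := List.append_of_mem hb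
  rw [hst]
  simp
  omega

lemma bdd_itr {σ : α → List α} {a : α} (ha : BddLetter σ a) (k : ℕ) :
    ∀ b ∈ itr σ k a, BddLetter σ b := by
  induction k with
  | zero => intro b hb; simp at hb; rwa [hb]
  | succ k ih =>
    intro b hb
    rw [itr_succ, List.mem_flatMap] at hb
    obtain ⟨c, hc, hcb⟩ := hb
    exact bdd_mem (ih c hc) hcb

lemma bdd_word {σ : α → List α} (w : List α) (h : ∀ b ∈ w, BddLetter σ b) :
    ∃ M, ∀ j, (w.flatMap (itr σ j)).length ≤ M := by
  induction w with
  | nil => exact ⟨0, fun j => by simp⟩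
  | cons a w ih =>
    obtain ⟨M, hM⟩ := ih (fun b hb => h b (List.mem_cons_of_mem _ hb))
    obtain ⟨M', hM'⟩ := h a (by simp)
    refine ⟨M' + M, fun j => ?_⟩
    rw [List.flatMap_cons, List.length_append]
    exact Nat.add_le_add (hM' j) (hM j)

lemma growing_mem {σ : α → List α} {a : α} (ha : ¬ BddLetter σ a) : ∃ b ∈ σ a, ¬ BddLetter σ b := by
  by_contra hcon
  push Not at hcon
  apply ha
  obtain ⟨M, hM⟩ := bdd_word (σ a) hcon
  refine ⟨M + 1, fun j => ?_⟩
  cases j with
  | zero => simp
  | succ j =>
    rw [itr_succ']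
    have := hM j
    omega

lemma exists_first (G : α → Prop) (P : List α) (h : ¬ Bd G P) :
    ∃ (v : List α) (a : α) (P₁ : List α), P = v ++ a :: P₁ ∧ G a ∧ Bd G v := by
  induction P with
  | nil => exact absurd (fun b hb => by simp at hb) h
  | cons b P ih =>
    by_cases hb : G b
    · exact ⟨[], b, P, rfl, hb, fun c hc => by simp at hc⟩
    · have hP : ¬ Bd G P := by
        intro hP
        apply h
        intro c hc
        rw [List.mem_cons] at hc
        rcases hc with rfl | hc
        · exact hb
        · exact hP c hc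
      obtain ⟨v, a, P₁, h1, h2, h3⟩ := ih hP
      refine ⟨b :: v, a, P₁, by rw [h1]; rfl, h2, ?_⟩
      intro c hc
      rw [List.mem_cons] at hc
      rcases hc with rfl | hc
      · exact hb
      · exact h3 c hc

/-! ## eventually periodic sequences -/

lemma exists_idem {X : Type} (s : ℕ → X) (hs : ∀ i j, s i = s j → s (i + 1) = s (j + 1))
    (hfin : (Set.range s).Finite) : ∃ q : ℕ, 1 ≤ q ∧ s (q + q) = s q := by
  have hnot : ¬ Function.Injective s := by
    intro h
    exact Set.infinite_range_of_injective h hfin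
  rw [Function.Injective] at hnot
  push Not at hnot
  obtain ⟨i, j, hij, hne⟩ := hnot
  wlog hlt : i < j generalizing i j with H
  · exact H j i hij.symm hne.symm (by omega)
  have h1 : ∀ k, s (i + k) = s (j + k) := by
    intro k
    induction k with
    | zero => exact hij
    | succ k ih => exact hs _ _ ih
  obtain ⟨p, hp⟩ := Nat.exists_eq_add_of_lt hlt
  have h2 : ∀ m, i ≤ m → s (m + (p + 1)) = s m := by
    intro m hm
    have := h1 (m - i)
    rw [show i + (m - i) = m by omega, show j + (m - i) = m + (p + 1) by omega] at this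
    exact this.symm
  have h3 : ∀ k m, i ≤ m → s (m + k * (p + 1)) = s m := by
    intro k
    induction k with
    | zero => intro m hm; simp
    | succ k ih =>
      intro m hm
      rw [show m + (k + 1) * (p + 1) = (m + k * (p + 1)) + (p + 1) by ring,
        h2 _ (by omega), ih m hm]
  refine ⟨(i + 1) * (p + 1), Nat.mul_pos (by omega) (by omega), ?_⟩
  apply h3
  nlinarith

/-! ## the normalised power -/

theorem exists_nm [Fintype α] (σ : α → List α) :
    ∃ q : ℕ, 1 ≤ q ∧ ∃ (R L : α → α) (x ρ lam y : α → List α),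
      Nm (itr σ q) (fun a => ¬ BddLetter σ a) R L x ρ lam y := by
  classical
  set G : α → Prop := fun a => ¬ BddLetter σ a with hG
  have hlast : ∀ a : α, ∃ r : α, G a → G r ∧ ∃ x ρ : List α, σ a = x ++ r :: ρ ∧ Bd G ρ := by
    intro a
    by_cases ha : G a
    · have : ¬ Bd G (σ a) := by
        intro h
        obtain ⟨b, hb, hb'⟩ := growing_mem ha
        exact h b hb hb'
      obtain ⟨x, r, ρ, h1, h2, h3⟩ := exists_last G (σ a) this
      exact ⟨r, fun _ => ⟨h2, x, ρ, h1, h3⟩⟩
    · exact ⟨a, fun h => absurd h ha⟩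
  have hfirst : ∀ a : α, ∃ r : α, G a → G r ∧ ∃ x y : List α, σ a = x ++ r :: y ∧ Bd G x := by
    intro a
    by_cases ha : G a
    · have : ¬ Bd G (σ a) := by
        intro h
        obtain ⟨b, hb, hb'⟩ := growing_mem ha
        exact h b hb hb'
      obtain ⟨x, r, y, h1, h2, h3⟩ := exists_first G (σ a) this
      exact ⟨r, fun _ => ⟨h2, x, y, h1, h3⟩⟩
    · exact ⟨a, fun h => absurd h ha⟩
  choose R hR using hlast
  choose L hL using hfirst
  have hGR : ∀ k a, G a → G (R^[k] a) := by
    intro k
    induction k with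
    | zero => intro a ha; exact ha
    | succ k ih =>
      intro a ha
      rw [Function.iterate_succ_apply']
      exact (hR _ (ih a ha)).1
  have hGL : ∀ k a, G a → G (L^[k] a) := by
    intro k
    induction k with
    | zero => intro a ha; exact ha
    | succ k ih =>
      intro a ha
      rw [Function.iterate_succ_apply']
      exact (hL _ (ih a ha)).1
  have hbdσ : ∀ w : List α, Bd G w → Bd G (w.flatMap σ) := by
    intro w hw b hb
    rw [List.mem_flatMap] at hb
    obtain ⟨c, hc, hcb⟩ := hb
    have h1 := hw c hc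
    simp only [hG, not_not] at h1 ⊢
    exact bdd_mem h1 hcb
  have hlastk : ∀ k a, G a → ∃ x ρ : List α, itr σ k a = x ++ R^[k] a :: ρ ∧ Bd G ρ := by
    intro k
    induction k with
    | zero => intro a ha; exact ⟨[], [], by simp, fun b hb => by simp at hb⟩
    | succ k ih =>
      intro a ha
      obtain ⟨x, ρ, h1, h2⟩ := ih a ha
      obtain ⟨h3, x', ρ', h4, h5⟩ := hR _ (hGR k a ha)
      refine ⟨x.flatMap σ ++ x', ρ' ++ ρ.flatMap σ, ?_, h5.append (hbdσ _ h2)⟩
      rw [itr_succ, h1, List.flatMap_append, List.flatMap_cons, h4, Function.iterate_succ_apply']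
      simp
  have hfirstk : ∀ k a, G a → ∃ x y : List α, itr σ k a = x ++ L^[k] a :: y ∧ Bd G x := by
    intro k
    induction k with
    | zero => intro a ha; exact ⟨[], [], by simp, fun b hb => by simp at hb⟩
    | succ k ih =>
      intro a ha
      obtain ⟨x, y, h1, h2⟩ := ih a ha
      obtain ⟨h3, x', y', h4, h5⟩ := hL _ (hGL k a ha)
      refine ⟨x.flatMap σ ++ x', y' ++ y.flatMap σ, ?_, (hbdσ _ h2).append h5⟩
      rw [itr_succ, h1, List.flatMap_append, List.flatMap_cons, h4, Function.iterate_succ_apply']
      simp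
  -- the idempotent power
  let s : ℕ → (α → α) × (α → α) × (α → List α) := fun m =>
    (R^[m], L^[m], fun a => if BddLetter σ a then itr σ m a else [])
  have hs : ∀ i j, s i = s j → s (i + 1) = s (j + 1) := by
    intro i j hij
    simp only [s, Prod.mk.injEq] at hij ⊢
    obtain ⟨h1, h2, h3⟩ := hij
    refine ⟨?_, ?_, ?_⟩
    · rw [Function.iterate_succ', Function.iterate_succ', h1]
    · rw [Function.iterate_succ', Function.iterate_succ', h2]
    · funext a
      have := congrFun h3 a
      by_cases ha : BddLetter σ a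
      · simp only [ha, if_true] at this ⊢
        rw [itr_succ, itr_succ, this]
      · simp only [ha, if_false]
  have hbound : ∃ M, ∀ m a, (if BddLetter σ a then itr σ m a else []).length ≤ M := by
    have h1 : ∀ a, ∃ M, ∀ m, (if BddLetter σ a then itr σ m a else []).length ≤ M := by
      intro a
      by_cases ha : BddLetter σ a
      · simp only [ha, if_true]
        exact ha
      · simp only [ha, if_false]
        exact ⟨0, fun m => by simp⟩
    choose M hM using h1
    refine ⟨∑ a, M a, fun m a => (hM a m).trans ?_⟩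
    exact Finset.single_le_sum (f := M) (fun _ _ => Nat.zero_le _) (Finset.mem_univ a)
  obtain ⟨M, hM⟩ := hbound
  have hfin : (Set.range s).Finite := by
    have h1 : (Set.univ : Set (α → α)).Finite := Set.finite_univ
    have h2 : (Set.univ.pi (fun _ : α => {l : List α | l.length ≤ M})).Finite :=
      Set.Finite.pi' (fun _ => List.finite_length_le α M) |>.subset (fun f hf a => hf a (Set.mem_univ a))
    refine (h1.prod (h1.prod h2)).subset ?_
    rintro _ ⟨m, rfl⟩
    refine ⟨Set.mem_univ _, Set.mem_univ _, fun a _ => hM m a⟩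
  obtain ⟨q, hq1, hq⟩ := exists_idem s hs hfin
  simp only [s, Prod.mk.injEq] at hq
  obtain ⟨hqR, hqL, hqB⟩ := hq
  have hqB' : ∀ a, BddLetter σ a → itr σ (q + q) a = itr σ q a := by
    intro a ha
    have := congrFun hqB a
    simpa [ha] using this
  have hx : ∀ a, ∃ x ρ : List α, G a → itr σ q a = x ++ R^[q] a :: ρ ∧ Bd G ρ := by
    intro a
    by_cases ha : G a
    · obtain ⟨x, ρ, h⟩ := hlastk q a ha
      exact ⟨x, ρ, fun _ => h⟩
    · exact ⟨[], [], fun h => absurd h ha⟩
  have hy : ∀ a, ∃ x y : List α, G a → itr σ q a = x ++ L^[q] a :: y ∧ Bd G x := by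
    intro a
    by_cases ha : G a
    · obtain ⟨x, ρ, h⟩ := hfirstk q a ha
      exact ⟨x, ρ, fun _ => h⟩
    · exact ⟨[], [], fun h => absurd h ha⟩
  choose x ρ hxρ using hx
  choose lam y hlamy using hy
  refine ⟨q, hq1, R^[q], L^[q], x, ρ, lam, y, ?_⟩
  constructor
  · intro a ha b hb
    simp only [hG, not_not] at ha ⊢
    exact bdd_itr ha q b hb
  · intro a ha
    simp only [hG, not_not] at ha
    rw [← itr_add]
    exact hqB' a ha
  · exact fun a ha => (hxρ a ha).1
  · exact fun a ha => hGR q a ha
  · exact fun a ha => (hxρ a ha).2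
  · exact fun a ha => (hlamy a ha).1
  · exact fun a ha => hGL q a ha
  · exact fun a ha => (hlamy a ha).2
  · intro a _
    rw [← Function.iterate_add_apply, hqR]
  · intro a _
    rw [← Function.iterate_add_apply, hqL]
  · intro a ha hcon
    rw [← itr_add] at hcon
    apply ha
    have key : ∀ n, ∃ m, m < q + q ∧ itr σ n a = itr σ m a := by
      intro n
      induction n using Nat.strong_induction_on with
      | _ n ih =>
        rcases Nat.lt_or_ge n (q + q) with h | h
        · exact ⟨n, h, rfl⟩
        · obtain ⟨m, hm1, hm2⟩ := ih (n - q) (by omega)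
          refine ⟨m, hm1, ?_⟩
          rw [← hm2]
          obtain ⟨k, rfl⟩ := Nat.exists_eq_add_of_le h
          rw [show q + q + k - q = q + k by omega, itr_add, hcon, ← itr_add]
    refine ⟨∑ m ∈ Finset.range (q + q), (itr σ m a).length, fun n => ?_⟩
    obtain ⟨m, hm1, hm2⟩ := key n
    rw [hm2]
    exact Finset.single_le_sum (f := fun m => (itr σ m a).length) (fun _ _ => Nat.zero_le _)
      (Finset.mem_range.2 hm1)

/-! ## infinitely many growing letters -/

section

variable {θ : α → List α} {G : α → Prop} {R L : α → α} {x ρ lam y : α → List α}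

lemma Wn_eq_itr (θ : α → List α) (a : α) (n : ℕ) : Wn θ a n = itr θ n a := by
  induction n with
  | zero => rfl
  | succ n ih => rw [Wn, ih, itr_succ]

lemma Nm.growing_itr (hN : Nm θ G R L x ρ lam y) {a : α} (ha : G a) (n : ℕ) :
    ∃ b ∈ itr θ n a, G b := by
  induction n with
  | zero => exact ⟨a, by simp, ha⟩
  | succ n ih =>
    obtain ⟨b, hb, hGb⟩ := ih
    refine ⟨R b, ?_, hN.GR b hGb⟩
    rw [itr_succ, List.mem_flatMap]
    exact ⟨b, hb, by rw [hN.last b hGb]; simp⟩

lemma getElem_pw_add (W : List α) : ∀ (n i : ℕ) (h : i + W.length < (pw W n).length),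
    (pw W n)[i + W.length] = (pw W n)[i]'(by omega) := by
  intro n
  cases n with
  | zero => intro i h; simp [pw] at h
  | succ n =>
    intro i h
    have h1 : pw W (n + 1) = W ++ pw W n := rfl
    have h2 : pw W (n + 1) = pw W n ++ W := pw_succ' W n
    have hi : i < (pw W n).length := by
      rw [h1, List.length_append] at h
      omega
    have e1 : (pw W (n + 1))[i + W.length] = (pw W n)[i] := by
      simp only [h1]
      rw [List.getElem_append_right (by omega)]
      congr 1
      omega
    have e2 : (pw W (n + 1))[i]'(by omega) = (pw W n)[i] := by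
      simp only [h2]
      rw [List.getElem_append_left hi]
    rw [e1, e2]

lemma Nm.infinitely_many (hN : Nm θ G R L x ρ lam y) (u : ℕ → α)
    (hu : ∀ w : List α, IsPre w u → IsPre (w.flatMap θ) u) (hu0 : G (u 0))
    (hgen : ∀ m, ∃ n, m < (Wn θ (u 0) n).length)
    (hap : ¬ ∃ N p : ℕ, 0 < p ∧ ∀ n, N ≤ n → u (n + p) = u n) :
    ∀ N, ∃ i, N ≤ i ∧ G (u i) := by
  have hpre := isPre_Wn u hu
  have hθ : ∃ X, θ (u 0) = u 0 :: X := by
    have h1 := hpre 1
    have h2 : Wn θ (u 0) 1 = θ (u 0) := by simp [Wn]
    rw [h2] at h1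
    cases hs : θ (u 0) with
    | nil => exact absurd hs (hN.ne_nil hu0)
    | cons a X =>
      rw [hs] at h1
      have := h1 0 (by simp)
      simp at this
      exact ⟨X, by rw [this]⟩
  obtain ⟨X, hX⟩ := hθ
  have hstep : ∀ n, Wn θ (u 0) (n + 1) = Wn θ (u 0) n ++ X.flatMap (itr θ n) := by
    intro n
    rw [Wn_eq_itr, Wn_eq_itr, itr_succ', hX, List.flatMap_cons]
  by_cases hXb : Bd G X
  · -- eventually periodic
    exfalso
    apply hap
    have h1 : ∀ n, X.flatMap (itr θ (n + 1)) = X.flatMap θ := by
      intro n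
      induction n with
      | zero =>
        rw [Nat.zero_add]
        apply flatMap_congr'
        intro b _
        exact itr_one θ b
      | succ n ih =>
        rw [flatMap_itr_succ, ih, hN.idf hXb]
    have h2 : ∀ n, Wn θ (u 0) (n + 1) = (u 0 :: X) ++ pw (X.flatMap θ) n := by
      intro n
      induction n with
      | zero =>
        rw [Nat.zero_add, show Wn θ (u 0) 1 = θ (u 0) by simp [Wn], hX]
        simp [pw]
      | succ n ih => rw [hstep, ih, h1, pw_succ', List.append_assoc]
    set W := X.flatMap θ with hW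
    have hWpos : 0 < W.length := by
      rcases Nat.eq_zero_or_pos W.length with h | h
      · exfalso
        obtain ⟨n, hn⟩ := hgen (X.length + 1)
        cases n with
        | zero => simp [Wn] at hn
        | succ n =>
          rw [h2] at hn
          simp [h] at hn
      · exact h
    refine ⟨X.length + 1, W.length, hWpos, fun m hm => ?_⟩
    have h3 := hpre (m + W.length + 1 + 1)
    rw [h2] at h3
    set n := m + W.length + 1 with hn
    have hlen : ((u 0 :: X) ++ pw W n).length = X.length + 1 + n * W.length := by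
      simp
      omega
    have hbig : m + W.length < X.length + 1 + n * W.length := by nlinarith
    have e1 := h3 (m + W.length) (by rw [hlen]; exact hbig)
    have e2 := h3 m (by rw [hlen]; omega)
    rw [← e1, ← e2]
    rw [List.getElem_append_right (by simp; omega), List.getElem_append_right (by simp; omega)]
    have h4 := getElem_pw_add W n (m - (X.length + 1)) (by
      rw [length_pw]
      omega)
    simp only [List.length_cons]
    rw [← h4]
    congr 1
    omega
  · -- a growing letter in `X`
    intro N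
    have : ∃ b ∈ X, G b := by
      by_contra hcon
      push Not at hcon
      exact hXb hcon
    obtain ⟨b, hb, hGb⟩ := this
    obtain ⟨n, hn⟩ := hgen N
    obtain ⟨c, hc, hGc⟩ := hN.growing_itr hGb n
    have hcm : c ∈ X.flatMap (itr θ n) := List.mem_flatMap.2 ⟨b, hb, hc⟩
    obtain ⟨i, hi, hi'⟩ := List.mem_iff_getElem.1 hcm
    refine ⟨(Wn θ (u 0) n).length + i, by omega, ?_⟩
    have h3 := hpre (n + 1)
    rw [hstep] at h3
    have h4 := h3 ((Wn θ (u 0) n).length + i) (by rw [List.length_append]; omega)
    rw [List.getElem_append_right (by omega)] at h4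
    rw [← h4]
    have e : (Wn θ (u 0) n).length + i - (Wn θ (u 0) n).length = i := by omega
    simp only [e, hi']
    exact hGc

end

/-! ## final statement -/

/-- **Lower bound in the pushy case.** If `u` is generated by `σ` (which may erase letters), is not
eventually periodic and contains arbitrarily long blocks of bounded letters then it has at least
`c n` right special words of length `n`. -/
theorem pushy_lower {α : Type} [Fintype α] (u : ℕ → α) (σ : α → List α)
    (hσ1 : ∀ n i, i < ((fun w : List α => w.flatMap σ)^[n] [u 0]).length →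
            ((fun w : List α => w.flatMap σ)^[n] [u 0])[i]? = some (u i))
    (hσ2 : ∀ m, ∃ n, m < ((fun w : List α => w.flatMap σ)^[n] [u 0]).length)
    (hap : ¬ ∃ N p : ℕ, 0 < p ∧ ∀ n, N ≤ n → u (n + p) = u n)
    (hpush : ∀ K, ∃ i, ∀ j, j < K → BddLetter σ (u (i + j))) :
    ∃ c : ℝ, 0 < c ∧ ∃ N : ℕ, ∀ n, N ≤ n → c * n ≤ (rs (twoSided u) n : ℝ) := by
  classical
  have hit : ∀ n, (fun w : List α => w.flatMap σ)^[n] [u 0] = itr σ n (u 0) := by
    intro n
    rw [iterate_flatMap]
    simp
  simp only [hit] at hσ1 hσ2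
  have hpre : ∀ n, IsPre (itr σ n (u 0)) u := by
    intro n i hi
    have := hσ1 n i hi
    rw [List.getElem?_eq_getElem hi] at this
    exact Option.some.inj this
  have hne : σ (u 0) ≠ [] := by
    intro h0
    obtain ⟨n, hn⟩ := hσ2 1
    cases n with
    | zero => simp at hn
    | succ n =>
      rw [Nat.add_comm, itr_add] at hn
      simp [h0] at hn
  obtain ⟨x, hx⟩ : ∃ x, σ (u 0) = u 0 :: x := by
    have h1 := hpre 1
    rw [itr_one] at h1
    cases hs : σ (u 0) with
    | nil => exact absurd hs hne
    | cons a x =>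
      rw [hs] at h1
      have := h1 0 (by simp)
      simp at this
      exact ⟨x, by rw [this]⟩
  have hmono : Monotone (fun n => (itr σ n (u 0)).length) := by
    apply monotone_nat_of_le_succ
    intro n
    show (itr σ n (u 0)).length ≤ (itr σ (n + 1) (u 0)).length
    rw [Nat.add_comm, itr_add, itr_one, hx, List.flatMap_cons, List.length_append]
    omega
  have hIm : ∀ k (w : List α), IsPre w u → IsPre (w.flatMap (itr σ k)) u := by
    intro k w hw
    obtain ⟨m, hm⟩ := hσ2 w.length
    have h1 : w <+: itr σ m (u 0) := by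
      rw [hw.eq_pre]
      exact (hpre m).pre_prefix hm.le
    have h2 := flatMap_prefix (itr σ k) h1
    rw [← itr_add] at h2
    exact (hpre (m + k)).of_prefix h2
  obtain ⟨q, hq1, R, L, x', ρ, lam, y, hN⟩ := exists_nm σ
  have hu0 : ¬ BddLetter σ (u 0) := by
    rintro ⟨M, hM⟩
    obtain ⟨n, hn⟩ := hσ2 M
    exact absurd (hM n) (by omega)
  have hgen : ∀ m, ∃ n, m < (Wn (itr σ q) (u 0) n).length := by
    intro m
    obtain ⟨n, hn⟩ := hσ2 m
    refine ⟨n, ?_⟩
    rw [Wn_eq_itr, itr_itr]
    refine lt_of_lt_of_le hn (hmono ?_)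
    exact Nat.le_mul_of_pos_left n hq1
  refine hN.lower u (hIm q) hu0 hgen (hN.infinitely_many u (hIm q) hu0 hgen hap) ?_
  intro K
  obtain ⟨i, hi⟩ := hpush K
  exact ⟨i, fun j hj h => h (hi j hj)⟩

end H54.Mor
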